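import Pool.Agent.UK.Defs
import Pool.Agent.UB.Chord

/-!
# UK-Chord: chords of symmetric convex bodies

PLAN.  `0` is in the interior.  For `y ∈ K` the set `{s | y + s • bv i ∈ K}` is convex, compact and contains `0`, so it is `[-a, b]` with
`a, b ≥ 0`; `hl K i y = (a+b)/2`, and `{s ≥ 0 | y ± s • bv i ∈ K} = [0, min a b]`, so `nd K i y = min a b`.  For `y ∉ K` the latter set is empty
(`y` is the midpoint), so `nd K i y = 0`.  Measurability: `measurable_measure_prodMk_left`.  See `UB/Chord.lean` for the unconditional case (much can be copied).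
`sgm ε` preserves volume and maps `bv i` to `± bv i`; `SI K (hl K i)`, `SI K (nd K i)`: if `sgm ε` maps `K` into `K` it maps `K` onto `K` (involution).
-/

set_option autoImplicit false

open MeasureTheory Set
open scoped ENNReal NNReal

namespace Pool.Agent.UK

open Pool.Agent.CB Pool.Agent.UB

variable {n : ℕ} {K : Set (V n)}

private theorem ch_bv (i j : Fin n) : (bv i : V n) j = if j = i then 1 else 0 := by
  unfold bv
  exact EuclideanSpace.single_apply i (1 : ℝ) j

private theorem ch_at (i j : Fin n) (y : V n) (s : ℝ) :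
    (y + s • bv i) j = y j + if j = i then s else 0 := by
  have h : (y + s • bv i) j = y j + s * (bv i : V n) j := rfl
  rw [h, ch_bv]
  split_ifs <;> simp

private theorem ch_self (i : Fin n) (y : V n) (s : ℝ) : (y + s • bv i) i = y i + s := by
  rw [ch_at, if_pos rfl]

private theorem neg_pre (hK : SB K) : (fun y : V n => -y) ⁻¹' K = K := by
  ext y
  constructor
  · intro h
    have h1 := hK.symm _ h
    rwa [neg_neg] at h1
  · intro h
    exact hK.symm _ h

theorem SB.zero_mem_interior (hK : SB K) : (0 : V n) ∈ interior K := by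
  obtain ⟨x, hx⟩ := hK.nonempty
  have h1 : (fun y : V n => -y) ⁻¹' K = K := neg_pre hK
  have h2 : -x ∈ interior K := by
    have h3 := (Homeomorph.neg (V n)).preimage_interior K
    have h4 : x ∈ (Homeomorph.neg (V n)) ⁻¹' (interior K) := by
      rw [h3]
      have h5 : (Homeomorph.neg (V n)) ⁻¹' K = K := h1
      rw [h5]
      exact hx
    exact h4
  have h3 := hK.convex.interior hx h2 (a := 1 / 2) (b := 1 / 2) (by norm_num) (by norm_num)
    (by norm_num)
  have h4 : (1 / 2 : ℝ) • x + (1 / 2 : ℝ) • (-x) = 0 := by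
    rw [smul_neg, add_neg_cancel]
  rwa [h4] at h3

theorem SB.vol_pos (hK : SB K) : 0 < volume K :=
  MeasureTheory.Measure.measure_pos_of_nonempty_interior volume hK.nonempty

theorem SB.vol_lt_top (hK : SB K) : volume K < ⊤ := hK.compact.measure_lt_top

theorem SB.prob (hK : SB K) : IsProbabilityMeasure (MX.unif K) := by
  constructor
  rw [MX.unif, Measure.smul_apply, Measure.restrict_apply_univ, smul_eq_mul]
  exact ENNReal.inv_mul_cancel hK.vol_pos.ne' hK.vol_lt_top.ne

theorem SB.symP (hK : SB K) : SymP (MX.unif K) := by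
  refine ⟨hK.prob, ?_⟩
  have h2 : MeasurePreserving (fun y : V n => -y) (volume : Measure (V n)) volume :=
    (LinearIsometryEquiv.neg ℝ : V n ≃ₗᵢ[ℝ] V n).measurePreserving
  have h4 := h2.restrict_preimage hK.compact.measurableSet
  rw [neg_pre hK] at h4
  rw [MX.unif, Measure.map_smul, h4.map_eq]

theorem SB.ae_mem (hK : SB K) : ∀ᵐ y ∂(MX.unif K), y ∈ K := by
  rw [MX.unif]
  exact Measure.ae_smul_measure (ae_restrict_mem hK.compact.measurableSet) _

theorem SB.measurable_hl (hK : SB K) (i : Fin n) : Measurable (hl K i) := by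
  have hc : IsClosed {z : V n × ℝ | z.1 + z.2 • bv i ∈ K} := by
    refine hK.compact.isClosed.preimage ?_
    fun_prop
  have h1 := measurable_measure_prodMk_left (ν := (volume : Measure ℝ)) hc.measurableSet
  have h2 : hl K i = fun y : V n => (volume (Prod.mk y ⁻¹' {z : V n × ℝ | z.1 + z.2 • bv i ∈ K})).toReal / 2 :=
    rfl
  rw [h2]
  exact h1.ennreal_toReal.div_const 2

theorem SB.measurable_nd (hK : SB K) (i : Fin n) : Measurable (nd K i) := by
  have hc : IsClosed {z : V n × ℝ | 0 ≤ z.2 ∧ z.1 + z.2 • bv i ∈ K ∧ z.1 - z.2 • bv i ∈ K} := by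
    refine IsClosed.inter ?_ (IsClosed.inter ?_ ?_)
    · exact isClosed_le continuous_const continuous_snd
    · exact hK.compact.isClosed.preimage (by fun_prop)
    · exact hK.compact.isClosed.preimage (by fun_prop)
  have h1 := measurable_measure_prodMk_left (ν := (volume : Measure ℝ)) hc.measurableSet
  have h2 : nd K i = fun y : V n => (volume (Prod.mk y ⁻¹'
      {z : V n × ℝ | 0 ≤ z.2 ∧ z.1 + z.2 • bv i ∈ K ∧ z.1 - z.2 • bv i ∈ K})).toReal :=
    rfl
  rw [h2]
  exact h1.ennreal_toReal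

theorem SB.chord (hK : SB K) (i : Fin n) {y : V n} (hy : y ∈ K) : ∃ a b : ℝ, 0 ≤ a ∧ 0 ≤ b ∧
    (∀ s : ℝ, y + s • bv i ∈ K ↔ -a ≤ s ∧ s ≤ b) ∧ hl K i y = (a + b) / 2 ∧
    nd K i y = min a b := by
  set A : Set ℝ := {s : ℝ | y + s • bv i ∈ K} with hA
  have h0 : (0 : ℝ) ∈ A := by
    show y + (0 : ℝ) • bv i ∈ K
    rwa [zero_smul, add_zero]
  have hAcl : IsClosed A := by
    refine hK.compact.isClosed.preimage ?_
    fun_prop
  have hAc : IsCompact A := by
    have h1 : IsCompact ((fun p : V n => p i - y i) '' K) :=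
      hK.compact.image (by fun_prop)
    refine h1.of_isClosed_subset hAcl ?_
    intro t ht
    refine ⟨y + t • bv i, ht, ?_⟩
    show (y + t • bv i) i - y i = t
    rw [ch_self]
    ring
  have hconv : Convex ℝ A := by
    intro s hs t ht p q hp hq hpq
    have h1 := hK.convex hs ht hp hq hpq
    have h2 : p • (y + s • bv i) + q • (y + t • bv i) = y + (p • s + q • t) • bv i := by
      have h3 : y = (p + q) • y := by rw [hpq, one_smul]
      conv_rhs => rw [h3]
      simp only [smul_add, add_smul, smul_smul, smul_eq_mul]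
      abel
    rw [h2] at h1
    exact h1
  have hconn : IsConnected A := ⟨⟨0, h0⟩, hconv.isPreconnected⟩
  have hI := eq_Icc_of_connected_compact hconn hAc
  set a := - sInf A with ha
  set b := sSup A with hb
  have h0' : (0 : ℝ) ∈ Icc (sInf A) b := by rw [← hI]; exact h0
  have ha0 : 0 ≤ a := by
    have := h0'.1
    linarith
  have hb0 : 0 ≤ b := h0'.2
  have hiff : ∀ s : ℝ, y + s • bv i ∈ K ↔ -a ≤ s ∧ s ≤ b := by
    intro s
    have h1 : y + s • bv i ∈ K ↔ s ∈ A := Iff.rfl
    rw [h1, hI, mem_Icc, ha, neg_neg]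
  refine ⟨a, b, ha0, hb0, hiff, ?_, ?_⟩
  · have h1 : hl K i y = (volume A).toReal / 2 := rfl
    have h2 : A = Icc (-a) b := by
      ext s
      exact hiff s
    rw [h1, h2, Real.volume_Icc, ENNReal.toReal_ofReal (by linarith)]
    ring
  · have h1 : {s : ℝ | 0 ≤ s ∧ y + s • bv i ∈ K ∧ y - s • bv i ∈ K} = Icc 0 (min a b) := by
      ext s
      have h2 : y - s • bv i = y + (-s) • bv i := by
        rw [neg_smul, sub_eq_add_neg]
      simp only [mem_setOf_eq, h2, hiff, mem_Icc, le_min_iff]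
      constructor
      · rintro ⟨h3, ⟨_, h4⟩, h5, _⟩
        exact ⟨h3, by linarith, h4⟩
      · rintro ⟨h3, h4, h5⟩
        exact ⟨h3, ⟨by linarith, h5⟩, by linarith, by linarith⟩
    unfold nd
    rw [h1, Real.volume_Icc, ENNReal.toReal_ofReal (by rw [sub_zero]; exact le_min ha0 hb0),
      sub_zero]

/-- A chord through its midpoint `y`. -/
theorem SB.nd_mid (hK : SB K) (i : Fin n) {y : V n}
    (h : ∀ s : ℝ, y + s • bv i ∈ K ↔ |s| ≤ hl K i y) {s : ℝ} (hs : |s| ≤ hl K i y) :
    nd K i (y + s • bv i) = hl K i y - |s| := by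
  set l := hl K i y with hl0
  have h1 : {t : ℝ | 0 ≤ t ∧ y + s • bv i + t • bv i ∈ K ∧ y + s • bv i - t • bv i ∈ K} =
      Icc 0 (l - |s|) := by
    ext t
    have h2 : y + s • bv i + t • bv i = y + (s + t) • bv i := by
      rw [add_smul, add_assoc]
    have h3 : y + s • bv i - t • bv i = y + (s - t) • bv i := by
      rw [sub_smul, add_sub_assoc]
    simp only [mem_setOf_eq, h2, h3, h, mem_Icc]
    constructor
    · rintro ⟨h4, h5, h6⟩
      refine ⟨h4, ?_⟩
      rw [abs_le] at h5 h6
      rcases abs_cases s with ⟨h7, _⟩ | ⟨h7, _⟩ <;> rw [h7] <;> linarith [h5.1, h5.2, h6.1, h6.2]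
    · rintro ⟨h4, h5⟩
      refine ⟨h4, ?_, ?_⟩
      · rw [abs_le]
        constructor <;> linarith [neg_abs_le s, le_abs_self s]
      · rw [abs_le]
        constructor <;> linarith [neg_abs_le s, le_abs_self s]
  unfold nd
  rw [h1, Real.volume_Icc, ENNReal.toReal_ofReal (by linarith), sub_zero]

theorem nd_nonneg (i : Fin n) (y : V n) : 0 ≤ nd K i y := by
  unfold nd
  positivity

theorem SB.nd_le_hl (hK : SB K) (i : Fin n) (y : V n) : nd K i y ≤ hl K i y := by
  by_cases hy : y ∈ K
  · obtain ⟨a, b, _, _, _, h1, h2⟩ := hK.chord i hy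
    rw [h1, h2]
    have h3 := min_le_left a b
    have h4 := min_le_right a b
    linarith
  · have h1 : {s : ℝ | 0 ≤ s ∧ y + s • bv i ∈ K ∧ y - s • bv i ∈ K} = ∅ := by
      ext s
      simp only [mem_setOf_eq, mem_empty_iff_false, iff_false]
      rintro ⟨_, h2, h3⟩
      apply hy
      have h4 := hK.convex h2 h3 (a := 1 / 2) (b := 1 / 2) (by norm_num) (by norm_num)
        (by norm_num)
      have h5 : (1 / 2 : ℝ) • (y + s • bv i) + (1 / 2 : ℝ) • (y - s • bv i) = y := by
        rw [smul_add, smul_sub]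
        have : (1 / 2 : ℝ) • y + (1 / 2 : ℝ) • s • bv i + ((1 / 2 : ℝ) • y - (1 / 2 : ℝ) • s • bv i)
            = (1 / 2 : ℝ) • y + (1 / 2 : ℝ) • y := by abel
        rw [this, ← add_smul]
        norm_num
      rwa [h5] at h4
    unfold nd
    rw [h1, measure_empty, ENNReal.toReal_zero]
    exact hl_nonneg i y

theorem SB.hl_bdd (hK : SB K) (i : Fin n) : ∃ R : ℝ, ∀ y, hl K i y ≤ R := by
  obtain ⟨R, hR⟩ : ∃ R : ℝ, ∀ p ∈ K, |p i| ≤ R := by
    have h1 : IsCompact ((fun p : V n => |p i|) '' K) := hK.compact.image (by fun_prop)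
    obtain ⟨R, hR⟩ := h1.bddAbove
    exact ⟨R, fun p hp => hR ⟨p, hp, rfl⟩⟩
  have hR0 : 0 ≤ R := (abs_nonneg _).trans (hR 0 (interior_subset hK.zero_mem_interior))
  refine ⟨R, fun y => ?_⟩
  have h1 : {t : ℝ | y + t • bv i ∈ K} ⊆ Icc (- y i - R) (- y i + R) := by
    intro t ht
    have h2 := hR _ ht
    rw [ch_self, abs_le] at h2
    exact ⟨by linarith [h2.1], by linarith [h2.2]⟩
  have h2 : volume {t : ℝ | y + t • bv i ∈ K} ≤ ENNReal.ofReal (2 * R) := by
    refine (measure_mono h1).trans (le_of_eq ?_)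
    rw [Real.volume_Icc]
    congr 1
    ring
  have h3 : (volume {t : ℝ | y + t • bv i ∈ K}).toReal ≤ 2 * R :=
    ENNReal.toReal_le_of_le_ofReal (by linarith) h2
  unfold hl
  linarith

private theorem sg_sq (b : Bool) : sg b * sg b = 1 := by
  cases b <;> simp [sg]

private theorem sgm_sgm (ε : Fin n → Bool) (y : V n) : sgm ε (sgm ε y) = y := by
  ext i
  have h1 : sgm ε (sgm ε y) i = sg (ε i) * (sg (ε i) * y i) := rfl
  rw [h1, ← mul_assoc, sg_sq, one_mul]

private theorem sgm_mem {ε : Fin n → Bool} (h : ∀ y ∈ K, sgm ε y ∈ K) (y : V n) :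
    sgm ε y ∈ K ↔ y ∈ K := by
  constructor
  · intro h1
    have h2 := h _ h1
    rwa [sgm_sgm] at h2
  · exact h y

private theorem sgm_line (ε : Fin n → Bool) (i : Fin n) (y : V n) (s : ℝ) :
    sgm ε y + s • bv i = sgm ε (y + (sg (ε i) * s) • bv i) := by
  ext j
  have h1 : (sgm ε (y + (sg (ε i) * s) • bv i)) j = sg (ε j) * (y + (sg (ε i) * s) • bv i) j := rfl
  have h2 : (sgm ε y) j = sg (ε j) * y j := rfl
  rw [h1, ch_at, ch_at, h2]
  by_cases hj : j = i
  · subst hj
    rw [if_pos rfl, if_pos rfl, mul_add, ← mul_assoc, sg_sq, one_mul]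
  · rw [if_neg hj, if_neg hj, add_zero, add_zero]

/-- Sign changes preserving `K`. -/
theorem SB.hl_si (hK : SB K) (i : Fin n) : SI K (hl K i) := by
  intro ε h y
  have h1 : {s : ℝ | sgm ε y + s • bv i ∈ K} = (fun s => sg (ε i) * s) ⁻¹' {s | y + s • bv i ∈ K} := by
    ext s
    show sgm ε y + s • bv i ∈ K ↔ y + (sg (ε i) * s) • bv i ∈ K
    rw [sgm_line, sgm_mem h]
  unfold hl
  rw [h1]
  congr 2
  cases hb : ε i
  · have h2 : (fun s : ℝ => sg false * s) = fun s => -s := by
      funext s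
      simp [sg]
    rw [h2]
    have h3 := Measure.measure_preimage_neg (volume : Measure ℝ) {s | y + s • bv i ∈ K}
    exact h3
  · have h2 : (fun s : ℝ => sg true * s) = fun s => s := by
      funext s
      simp [sg]
    rw [h2]
    rfl

theorem SB.nd_si (hK : SB K) (i : Fin n) : SI K (nd K i) := by
  intro ε h y
  have h1 : {s : ℝ | 0 ≤ s ∧ sgm ε y + s • bv i ∈ K ∧ sgm ε y - s • bv i ∈ K} =
      {s : ℝ | 0 ≤ s ∧ y + s • bv i ∈ K ∧ y - s • bv i ∈ K} := by
    ext s
    have h3 : ∀ z : V n, z - s • bv i = z + (-s) • bv i := by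
      intro z
      rw [neg_smul, sub_eq_add_neg]
    simp only [mem_setOf_eq, h3]
    rw [sgm_line, sgm_line, sgm_mem h, sgm_mem h]
    cases hb : ε i
    · have h4 : sg false * s = -s := by simp [sg]
      have h5 : sg false * -s = s := by simp [sg]
      rw [h4, h5]
      tauto
    · have h4 : sg true * s = s := by simp [sg]
      have h5 : sg true * -s = -s := by simp [sg]
      rw [h4, h5]
  unfold nd
  rw [h1]

/-- Invariant functions are even. -/
theorem SB.even (hK : SB K) {w : V n → ℝ} (hw : SI K w) (y : V n) : w (-y) = w y := by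
  have h1 : ∀ z : V n, sgm (fun _ => false) z = -z := by
    intro z
    ext i
    have h2 : (sgm (fun _ => false) z) i = sg false * z i := rfl
    have h3 : (-z) i = - z i := rfl
    rw [h2, h3]
    simp [sg]
  have h2 := hw (fun _ => false) (fun z hz => by rw [h1]; exact hK.symm z hz) y
  rwa [h1] at h2

end Pool.Agent.UK
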