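import Pool.Agent.UK.GBad
import Pool.Agent.UB.G3b

/-!
# UK-GDec: super-decay

PLAN.  As `UB/G3c.lean` (much can be copied), with the blocks in place of the coordinates.  `a_b = min (1, ‖ξ_b‖²)`, `ξ_b = bl π b ξ`, `A = ∑ a_b`;
`Am ξ ≤ k A` (`min (1, ξ_i²) ≤ a_(π i)`, at most `k` coordinates in a block), so it is enough to bound `Ph π K ξ (1 + A)^l`.
`m = 8 l + 8`.  If `A ≤ A₀(l)` (in particular `A < 2m`): `Ph ≤ 1`.  Otherwise `UB.blocks`: disjoint `T_j`, `∑_{T_j} a ≥ A/(2m)`; `d = A^(-1/2)`, `E_b = Bad π ξ d b`.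
If for some `j` the weighted share of the `b ∈ T_j` with `y ∈ E_b` is `< 1/2`, then (outside `E_b` with `ξ_b ≠ 0`: `|cos <ξ_b, y>| ≤ exp (-(1-|cos|)) ≤ exp (-d a_b)`;
`ξ_b = 0`: `a_b = 0`) `∏ |cos| ≤ exp (-d A_j/2) ≤ exp (-A^(1/2)/(4m))`.  All `T_j` bad: probability `≤ 2^m C d^(m/4) = 2^m C A^(-m/8)` (`UB.prod_sum_blocks`, `bad_prob m`;
labels in disjoint sets are distinct; if `∑_{T_j} a` is needed as an equality take `A_j := ∑_{T_j} a`).
-/

set_option autoImplicit false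

open MeasureTheory Set
open scoped ENNReal NNReal

namespace Pool.Agent.UK

open Pool.Agent.CB Pool.Agent.UB

private theorem sd_exp (k : ℕ) {c : ℝ} (hc : 0 < c) :
    ∃ B : ℝ, 0 ≤ B ∧ ∀ x : ℝ, 0 ≤ x → x ^ k * Real.exp (-(c * x)) ≤ B := by
  refine ⟨k.factorial / c ^ k, by positivity, fun x hx => ?_⟩
  have h := Real.pow_div_factorial_le_exp (c * x) (by positivity) k
  rw [Real.exp_neg, ← div_eq_mul_inv, div_le_div_iff₀ (Real.exp_pos _) (by positivity)]
  rw [div_le_iff₀ (by positivity), mul_pow] at h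
  nlinarith

private theorem sd_cont {n : ℕ} (π : Fin n → Fin n) (ξ : V n) :
    Continuous fun y : V n => ∏ b, |Real.cos (inner ℝ (bl π b ξ) y)| := by
  refine continuous_finset_prod _ fun j _ => ?_
  fun_prop

private theorem sd_nonneg {n : ℕ} (π : Fin n → Fin n) (ξ y : V n) :
    0 ≤ ∏ b, |Real.cos (inner ℝ (bl π b ξ) y)| :=
  Finset.prod_nonneg fun _ _ => abs_nonneg _

private theorem sd_le_one {n : ℕ} (π : Fin n → Fin n) (ξ y : V n) :
    ∏ b, |Real.cos (inner ℝ (bl π b ξ) y)| ≤ 1 :=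
  Finset.prod_le_one (fun _ _ => abs_nonneg _) fun _ _ => Real.abs_cos_le_one _

private theorem sd_prob {n k : ℕ} {π : Fin n → Fin n} {K : Set (V n)} (hK : BU k π K) :
    IsProbabilityMeasure (MX.unif K) := by
  constructor
  rw [MX.unif, Measure.smul_apply, Measure.restrict_apply_univ, smul_eq_mul]
  exact ENNReal.inv_mul_cancel
    (MeasureTheory.Measure.measure_pos_of_nonempty_interior volume hK.nonempty).ne'
    hK.compact.measure_lt_top.ne

private theorem sd_phi_le {n : ℕ} {K : Set (V n)} (hP : IsProbabilityMeasure (MX.unif K))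
    (π : Fin n → Fin n) (ξ : V n) : Ph π K ξ ≤ 1 := by
  haveI := hP
  have h : ‖∫ y, ∏ b, |Real.cos (inner ℝ (bl π b ξ) y)| ∂(MX.unif K)‖ ≤
      1 * (MX.unif K).real Set.univ := by
    refine norm_integral_le_of_norm_le_const (Filter.Eventually.of_forall fun y => ?_)
    rw [Real.norm_eq_abs, abs_of_nonneg (sd_nonneg π ξ y)]
    exact sd_le_one π ξ y
  rw [probReal_univ, mul_one] at h
  exact (le_abs_self _).trans h

private theorem sd_phi_nonneg {n : ℕ} (π : Fin n → Fin n) (K : Set (V n)) (ξ : V n) :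
    0 ≤ Ph π K ξ :=
  integral_nonneg fun y => sd_nonneg π ξ y

/-- the product on the good event -/
private theorem sd_good {n : ℕ} (π : Fin n → Fin n) (ξ y : V n) {d : ℝ} (hd : 0 < d)
    (T : Finset (Fin n)) (E : Fin n → Set (V n))
    (hE : ∀ j, y ∉ E j → d * min 1 (‖bl π j ξ‖ ^ 2) ≤ 1 - |Real.cos (inner ℝ (bl π j ξ) y)|)
    {B : ℝ} (hB : B ≤ ∑ j ∈ T, min 1 (‖bl π j ξ‖ ^ 2))
    (h : ∑ j ∈ T, min 1 (‖bl π j ξ‖ ^ 2) * (E j).indicator (fun _ => (1 : ℝ)) y < B / 2) :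
    ∏ b, |Real.cos (inner ℝ (bl π b ξ) y)| ≤ Real.exp (-(d * (B / 2))) := by
  classical
  have h1 : ∏ b, |Real.cos (inner ℝ (bl π b ξ) y)| ≤
      ∏ j ∈ T, Real.exp (-(d * (min 1 (‖bl π j ξ‖ ^ 2) *
        (1 - (E j).indicator (fun _ => (1 : ℝ)) y)))) := by
    have h2 : ∏ b, |Real.cos (inner ℝ (bl π b ξ) y)| ≤
        ∏ j ∈ T, |Real.cos (inner ℝ (bl π j ξ) y)| := by
      have h3 := Finset.prod_mul_prod_compl T fun j => |Real.cos (inner ℝ (bl π j ξ) y)|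
      rw [← h3]
      refine mul_le_of_le_one_right (Finset.prod_nonneg fun _ _ => abs_nonneg _) ?_
      exact Finset.prod_le_one (fun _ _ => abs_nonneg _) fun _ _ => Real.abs_cos_le_one _
    refine h2.trans (Finset.prod_le_prod (fun _ _ => abs_nonneg _) fun j _ => ?_)
    by_cases hj : y ∈ E j
    · rw [Set.indicator_of_mem hj]
      simp only [sub_self, mul_zero, neg_zero, Real.exp_zero]
      exact Real.abs_cos_le_one _
    · rw [Set.indicator_of_notMem hj, sub_zero, mul_one]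
      have h4 := hE j hj
      have h5 := Real.add_one_le_exp (-(d * min 1 (‖bl π j ξ‖ ^ 2)))
      linarith
  refine h1.trans ?_
  rw [← Real.exp_sum]
  apply Real.exp_le_exp.2
  rw [Finset.sum_neg_distrib, ← Finset.mul_sum]
  apply neg_le_neg
  apply mul_le_mul_of_nonneg_left _ hd.le
  have h6 : ∑ j ∈ T, min 1 (‖bl π j ξ‖ ^ 2) * (1 - (E j).indicator (fun _ => (1 : ℝ)) y) =
      ∑ j ∈ T, min 1 (‖bl π j ξ‖ ^ 2) -
        ∑ j ∈ T, min 1 (‖bl π j ξ‖ ^ 2) * (E j).indicator (fun _ => (1 : ℝ)) y := by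
    rw [← Finset.sum_sub_distrib]
    exact Finset.sum_congr rfl fun j _ => by ring
  rw [h6]
  linarith

/-- `Am ξ ≤ k A`. -/
private theorem sd_am {n k : ℕ} {π : Fin n → Fin n}
    (hdim : ∀ b, (Finset.univ.filter fun i => π i = b).card ≤ k) (ξ : V n) :
    Am ξ ≤ k * ∑ b, min 1 (‖bl π b ξ‖ ^ 2) := by
  classical
  have h1 : ∀ i, min 1 (ξ i ^ 2) ≤ min 1 (‖bl π (π i) ξ‖ ^ 2) := by
    intro i
    refine min_le_min le_rfl ?_
    have h2 : ‖(bl π (π i) ξ) i‖ ≤ ‖bl π (π i) ξ‖ := PiLp.norm_apply_le _ _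
    have h3 : (bl π (π i) ξ) i = ξ i := by
      simp only [bl, if_true]
    rw [h3, Real.norm_eq_abs] at h2
    calc ξ i ^ 2 = |ξ i| ^ 2 := (sq_abs _).symm
      _ ≤ _ := pow_le_pow_left₀ (abs_nonneg _) h2 2
  have h4 : ∑ i, min 1 (‖bl π (π i) ξ‖ ^ 2) =
      ∑ b, ((Finset.univ.filter fun i => π i = b).card : ℝ) * min 1 (‖bl π b ξ‖ ^ 2) := by
    rw [← Finset.sum_fiberwise (s := (Finset.univ : Finset (Fin n))) (g := π)]
    refine Finset.sum_congr rfl fun b _ => ?_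
    rw [Finset.sum_congr rfl (g := fun _ => min 1 (‖bl π b ξ‖ ^ 2))
      (fun i hi => by rw [(Finset.mem_filter.1 hi).2]), Finset.sum_const, nsmul_eq_mul]
  unfold Am
  refine (Finset.sum_le_sum fun i _ => h1 i).trans ?_
  rw [h4, Finset.mul_sum]
  refine Finset.sum_le_sum fun b _ => ?_
  refine mul_le_mul_of_nonneg_right ?_ (le_min zero_le_one (sq_nonneg _))
  exact_mod_cast hdim b

/-- The decay in terms of the blocks. -/
private theorem sd_main (l : ℕ) : ∃ C : ℝ, 0 ≤ C ∧ ∀ (k n : ℕ) (π : Fin n → Fin n)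
    (K : Set (V n)), BU k π K → Iso K → ∀ ξ : V n,
    Ph π K ξ * (1 + ∑ b, min 1 (‖bl π b ξ‖ ^ 2)) ^ l ≤ C := by
  classical
  obtain ⟨m, hm⟩ : ∃ m, m = 8 * (l + 1) := ⟨_, rfl⟩
  have hm1 : 1 ≤ m := by omega
  have hm0 : (0 : ℝ) < m := by exact_mod_cast hm1
  obtain ⟨C1, hC1, hZ⟩ := bad_prob m
  obtain ⟨B1, hB1, hE1⟩ := sd_exp (8 * l) (c := 1 / (4 * (m : ℝ))) (by positivity)
  refine ⟨max ((1 + 2 * (m : ℝ)) ^ l) (2 ^ l * (B1 + 2 ^ m * C1)),
    le_max_of_le_left (by positivity), ?_⟩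
  intro k n π K hK hI ξ
  haveI hP := sd_prob hK
  obtain ⟨a, ha⟩ : ∃ a : Fin n → ℝ, a = fun b => min 1 (‖bl π b ξ‖ ^ 2) := ⟨_, rfl⟩
  have hab : ∀ b, a b = min 1 (‖bl π b ξ‖ ^ 2) := fun b => by rw [ha]
  obtain ⟨A, hA⟩ : ∃ A, A = ∑ b, min 1 (‖bl π b ξ‖ ^ 2) := ⟨_, rfl⟩
  rw [← hA]
  have ha0 : ∀ j, 0 ≤ a j := fun j => by rw [hab]; exact le_min zero_le_one (sq_nonneg _)
  have ha1 : ∀ j, a j ≤ 1 := fun j => by rw [hab]; exact min_le_left _ _
  have hAsum : A = ∑ j, a j := by rw [hA, ha]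
  have hA0 : 0 ≤ A := by rw [hAsum]; exact Finset.sum_nonneg fun j _ => ha0 j
  have hphi0 := sd_phi_nonneg π K ξ
  rcases lt_or_ge A (2 * (m : ℝ)) with hlt | hge
  · refine le_trans ?_ (le_max_left _ _)
    have h1 : (1 + A) ^ l ≤ (1 + 2 * (m : ℝ)) ^ l := pow_le_pow_left₀ (by linarith) (by linarith) _
    calc Ph π K ξ * (1 + A) ^ l ≤ 1 * (1 + A) ^ l :=
          mul_le_mul_of_nonneg_right (sd_phi_le hP π ξ) (by positivity)
      _ ≤ (1 + 2 * (m : ℝ)) ^ l := by rw [one_mul]; exact h1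
  refine le_trans ?_ (le_max_right _ _)
  have hm1' : (1 : ℝ) ≤ m := by exact_mod_cast hm1
  have hA1 : 1 ≤ A := by linarith
  -- the scale
  obtain ⟨D, hD⟩ : ∃ D, D = A ^ (1 / 8 : ℝ) := ⟨_, rfl⟩
  have hD1 : 1 ≤ D := by rw [hD]; exact Real.one_le_rpow hA1 (by norm_num)
  have hD0 : 0 < D := by linarith
  have hD8 : D ^ 8 = A := by
    rw [hD, ← Real.rpow_natCast, ← Real.rpow_mul hA0]
    norm_num
  obtain ⟨d, hd⟩ : ∃ d, d = (D ^ 4)⁻¹ := ⟨_, rfl⟩
  have hd0 : 0 < d := by rw [hd]; positivity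
  have hd1 : d ≤ 1 := by rw [hd]; exact inv_le_one_of_one_le₀ (one_le_pow₀ hD1)
  have hdm : d ^ ((m : ℝ) / 4) = (D ^ m)⁻¹ := by
    rw [hd, Real.inv_rpow (by positivity)]
    congr 1
    rw [← Real.rpow_natCast D 4, ← Real.rpow_mul hD0.le, ← Real.rpow_natCast D m]
    congr 1
    push_cast
    ring
  -- the blocks
  obtain ⟨T, hTd, hTA⟩ := blocks hm1 a ha0 ha1 (by rw [← hAsum]; exact hge)
  rw [← hAsum] at hTA
  let E : Fin n → Set (V n) := fun j => Bad π ξ d j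
  have hEm : ∀ j, MeasurableSet (E j) := fun j => measurable_bad π ξ d j
  have hEc : ∀ y : V n, ∀ j, y ∉ E j →
      d * min 1 (‖bl π j ξ‖ ^ 2) ≤ 1 - |Real.cos (inner ℝ (bl π j ξ) y)| := by
    intro y j hy
    by_cases h0 : bl π j ξ = 0
    · rw [h0]
      simp
    · by_contra hcon
      push Not at hcon
      exact hy ⟨h0, Or.inl hcon⟩
  have hAb : ∀ b, 0 < ∑ j ∈ T b, a j := fun b =>
    lt_of_lt_of_le (by positivity) (hTA b)
  let Bd : Set (V n) := {ω | ∀ b, (∑ j ∈ T b, a j) / 2 ≤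
    ∑ j ∈ T b, a j * (E j).indicator (fun _ => (1 : ℝ)) ω}
  have hBadm : MeasurableSet Bd := by
    have : Bd = ⋂ b, {ω | (∑ j ∈ T b, a j) / 2 ≤
        ∑ j ∈ T b, a j * (E j).indicator (fun _ => (1 : ℝ)) ω} := by
      ext ω
      simp only [Bd, Set.mem_setOf_eq, Set.mem_iInter]
    rw [this]
    refine MeasurableSet.iInter fun b => measurableSet_le measurable_const ?_
    refine Finset.measurable_sum _ fun j _ => ?_
    exact (measurable_const.indicator (hEm j)).const_mul _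
  have hBadP : (MX.unif K).real Bd ≤ 2 ^ m * (C1 * (D ^ m)⁻¹) := by
    refine prod_sum_blocks T a ha0 hAb (fun b => rfl) E hEm ?_
    intro c hc
    have hinj : Function.Injective c := by
      intro b b' hbb
      by_contra hne
      exact Finset.disjoint_left.1 (hTd b b' hne) (hc b) (hbb ▸ hc b')
    have h1 := hZ k n π K hK hI ξ d hd0 hd1 c hinj
    rw [hdm] at h1
    exact h1
  -- the integral
  have hPhi : Ph π K ξ ≤ Real.exp (-(1 / (4 * (m : ℝ)) * D)) + (MX.unif K).real Bd := by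
    have hint : Integrable (fun y : V n => ∏ b, |Real.cos (inner ℝ (bl π b ξ) y)|)
        (MX.unif K) := by
      refine Integrable.of_bound (sd_cont π ξ).aestronglyMeasurable 1
        (Filter.Eventually.of_forall fun y => ?_)
      rw [Real.norm_eq_abs, abs_of_nonneg (sd_nonneg π ξ y)]
      exact sd_le_one π ξ y
    have hint2 : Integrable (Bd.indicator fun _ : V n => (1 : ℝ)) (MX.unif K) :=
      (integrable_const _).indicator hBadm
    have h1 : Ph π K ξ ≤ ∫ y, (Real.exp (-(1 / (4 * (m : ℝ)) * D)) +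
        Bd.indicator (fun _ : V n => (1 : ℝ)) y) ∂(MX.unif K) := by
      refine integral_mono hint ((integrable_const _).add hint2) fun y => ?_
      simp only
      by_cases hy : y ∈ Bd
      · rw [Set.indicator_of_mem hy]
        have := sd_le_one π ξ y
        have := Real.exp_pos (-(1 / (4 * (m : ℝ)) * D))
        linarith
      · rw [Set.indicator_of_notMem hy, add_zero]
        simp only [Bd, Set.mem_setOf_eq, not_forall, not_le] at hy
        obtain ⟨b, hb⟩ := hy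
        have hsum : ∑ j ∈ T b, a j = ∑ j ∈ T b, min 1 (‖bl π j ξ‖ ^ 2) :=
          Finset.sum_congr rfl fun j _ => hab j
        have hb' : ∑ j ∈ T b, min 1 (‖bl π j ξ‖ ^ 2) * (E j).indicator (fun _ => (1 : ℝ)) y <
            (∑ j ∈ T b, a j) / 2 := by
          refine lt_of_eq_of_lt ?_ hb
          exact Finset.sum_congr rfl fun j _ => by rw [hab j]
        refine (sd_good π ξ y hd0 (T b) E (hEc y) hsum.le hb').trans (Real.exp_le_exp.2 ?_)
        apply neg_le_neg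
        have h2 := hTA b
        have h3 : 1 / (4 * (m : ℝ)) * D ≤ d * (A / (2 * m) / 2) := by
          have h4 : d * (A / (2 * m) / 2) = 1 / (4 * (m : ℝ)) * D ^ 4 := by
            rw [← hD8, hd]
            field_simp
            ring
          rw [h4]
          refine mul_le_mul_of_nonneg_left ?_ (by positivity)
          calc D = D ^ 1 := (pow_one D).symm
            _ ≤ D ^ 4 := pow_le_pow_right₀ hD1 (by norm_num)
        refine h3.trans (mul_le_mul_of_nonneg_left ?_ hd0.le)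
        linarith
    rw [integral_add (integrable_const _) hint2, integral_const, probReal_univ,
      integral_indicator_const _ hBadm] at h1
    simpa using h1
  -- conclusion
  have h1A : (1 + A) ^ l ≤ 2 ^ l * D ^ (8 * l) := by
    rw [pow_mul, hD8, ← mul_pow]
    exact pow_le_pow_left₀ (by linarith) (by linarith) _
  have e1 := hE1 D hD0.le
  have e3 : (D ^ m)⁻¹ * D ^ (8 * l) ≤ 1 := by
    rw [inv_mul_le_iff₀ (by positivity), mul_one]
    exact pow_le_pow_right₀ hD1 (by omega)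
  have hDl : 0 ≤ D ^ (8 * l) := by positivity
  have h2 : Ph π K ξ * D ^ (8 * l) ≤ B1 + 2 ^ m * C1 := by
    have h3 : Ph π K ξ ≤ Real.exp (-(1 / (4 * (m : ℝ)) * D)) + 2 ^ m * (C1 * (D ^ m)⁻¹) :=
      hPhi.trans (by linarith)
    have h4 := mul_le_mul_of_nonneg_right h3 hDl
    refine h4.trans ?_
    have h5 : (Real.exp (-(1 / (4 * (m : ℝ)) * D)) +
        2 ^ m * (C1 * (D ^ m)⁻¹)) * D ^ (8 * l) =
        D ^ (8 * l) * Real.exp (-(1 / (4 * (m : ℝ)) * D)) +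
        2 ^ m * (C1 * ((D ^ m)⁻¹ * D ^ (8 * l))) := by ring
    rw [h5]
    have h6 : C1 * ((D ^ m)⁻¹ * D ^ (8 * l)) ≤ C1 * 1 := mul_le_mul_of_nonneg_left e3 hC1
    rw [mul_one] at h6
    exact add_le_add e1 (mul_le_mul_of_nonneg_left h6 (by positivity))
  calc Ph π K ξ * (1 + A) ^ l ≤ Ph π K ξ * (2 ^ l * D ^ (8 * l)) :=
        mul_le_mul_of_nonneg_left h1A hphi0
    _ = 2 ^ l * (Ph π K ξ * D ^ (8 * l)) := by ring
    _ ≤ 2 ^ l * (B1 + 2 ^ m * C1) :=
        mul_le_mul_of_nonneg_left h2 (by positivity)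

theorem superdecayK (k l : ℕ) : ∃ C : ℝ, 0 ≤ C ∧ ∀ (n : ℕ) (π : Fin n → Fin n)
    (K : Set (V n)), BU k π K → Iso K → ∀ ξ : V n, Ph π K ξ * (1 + Am ξ) ^ l ≤ C := by
  obtain ⟨C, hC0, hC⟩ := sd_main l
  refine ⟨(1 + (k : ℝ)) ^ l * C, by positivity, fun n π K hK hI ξ => ?_⟩
  have h1 := sd_am hK.dim ξ
  have h2 := hC k n π K hK hI ξ
  have hA0 : 0 ≤ ∑ b, min 1 (‖bl π b ξ‖ ^ 2) :=
    Finset.sum_nonneg fun b _ => le_min zero_le_one (sq_nonneg _)
  have hAm0 : 0 ≤ Am ξ := Finset.sum_nonneg fun b _ => le_min zero_le_one (sq_nonneg _)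
  have hk : (0 : ℝ) ≤ k := Nat.cast_nonneg k
  have h3 : 1 + Am ξ ≤ (1 + (k : ℝ)) * (1 + ∑ b, min 1 (‖bl π b ξ‖ ^ 2)) := by
    nlinarith
  have h4 : (1 + Am ξ) ^ l ≤ (1 + (k : ℝ)) ^ l * (1 + ∑ b, min 1 (‖bl π b ξ‖ ^ 2)) ^ l := by
    rw [← mul_pow]
    exact pow_le_pow_left₀ (by linarith) h3 l
  calc Ph π K ξ * (1 + Am ξ) ^ l
      ≤ Ph π K ξ * ((1 + (k : ℝ)) ^ l * (1 + ∑ b, min 1 (‖bl π b ξ‖ ^ 2)) ^ l) :=
        mul_le_mul_of_nonneg_left h4 (sd_phi_nonneg π K ξ)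
    _ = (1 + (k : ℝ)) ^ l * (Ph π K ξ * (1 + ∑ b, min 1 (‖bl π b ξ‖ ^ 2)) ^ l) := by ring
    _ ≤ (1 + (k : ℝ)) ^ l * C := mul_le_mul_of_nonneg_left h2 (by positivity)

end Pool.Agent.UK
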