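import Pool.Agent.UK.GB
import Pool.Agent.UB.Sgn

/-!
# UK-GSg: symmetrisation over the block flips

The symbol is averaged over all sign changes of blocks (`unif_fle`, `BU.si`); the mean of the cosine is a product of cosines
(`UB.mean_cos`).
-/

set_option autoImplicit false

open MeasureTheory Set
open scoped ENNReal NNReal

namespace Pool.Agent.UK

open Pool.Agent.CB Pool.Agent.UB

private theorem gsg_int {n : ℕ} {μ : Measure (V n)} [IsProbabilityMeasure μ] {f : V n → ℝ}
    (hf : Measurable f) {B : ℝ} (h : ∀ y, |f y| ≤ B) : Integrable f μ :=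
  (integrable_const B).mono' hf.aestronglyMeasurable (ae_of_all _ fun y => h y)

private theorem gsg_meas {n : ℕ} (π : Fin n → Fin n) (ε : Fin n → Bool) :
    Measurable (fle π ε : V n → V n) := by
  have : Continuous (fun y : V n => (WithLp.toLp 2 fun i => sg (ε (π i)) * y i : V n)) := by
    fun_prop
  exact this.measurable

private theorem gsg_inner {n : ℕ} (π : Fin n → Fin n) (ξ y : V n) (ε : Fin n → Bool) :
    (inner ℝ ξ (fle π ε y) : ℝ) = ∑ b, sg (ε b) * inner ℝ (bl π b ξ) y := by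
  rw [inner_sum π ξ (fle π ε y)]
  exact Finset.sum_congr rfl fun b _ => inner_fle (inb_bl π b ξ) ε y

private theorem gsg_flip {n k : ℕ} {π : Fin n → Fin n} {K : Set (V n)} (hK : BU k π K)
    {w : V n → ℝ} (hw : Wtt w) (hs : SI K w) (ξ : V n) (ε : Fin n → Bool) :
    kvs (MX.unif K) w ξ =
      ∫ y, w y * Real.cos (∑ b, sg (ε b) * inner ℝ (bl π b ξ) y) ∂(MX.unif K) := by
  have hm : Measurable fun y : V n => w y * Real.cos (inner ℝ ξ y) :=
    hw.meas.mul (by fun_prop)
  unfold kvs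
  conv_lhs => rw [← unif_fle hK ε]
  rw [integral_map (gsg_meas π ε).aemeasurable hm.aestronglyMeasurable]
  refine integral_congr_ae (ae_of_all _ fun y => ?_)
  simp only
  rw [gsg_inner, hK.si hs ε y]

private theorem gsg_eq {n k : ℕ} {π : Fin n → Fin n} {K : Set (V n)} (hK : BU k π K)
    {w : V n → ℝ} (hw : Wtt w) (hs : SI K w) (ξ : V n) :
    kvs (MX.unif K) w ξ =
      ∫ y, w y * ∏ b, Real.cos (inner ℝ (bl π b ξ) y) ∂(MX.unif K) := by
  haveI := hK.toSB.prob
  obtain ⟨B, hB⟩ := hw.bdd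
  have h1 : ∑ _ε : Fin n → Bool, kvs (MX.unif K) w ξ =
      ∑ ε : Fin n → Bool,
        ∫ y, w y * Real.cos (∑ b, sg (ε b) * inner ℝ (bl π b ξ) y) ∂(MX.unif K) :=
    Finset.sum_congr rfl fun ε _ => gsg_flip hK hw hs ξ ε
  have hint : ∀ ε ∈ (Finset.univ : Finset (Fin n → Bool)),
      Integrable (fun y : V n => w y * Real.cos (∑ b, sg (ε b) * inner ℝ (bl π b ξ) y))
        (MX.unif K) := by
    intro ε _
    refine gsg_int (B := B) (hw.meas.mul (by fun_prop)) fun y => ?_
    rw [abs_mul]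
    have := Real.abs_cos_le_one (∑ b, sg (ε b) * inner ℝ (bl π b ξ) y)
    nlinarith [hB y, abs_nonneg (w y)]
  rw [Finset.sum_const, Finset.card_univ, Fintype.card_fun, Fintype.card_bool, Fintype.card_fin,
    nsmul_eq_mul, ← integral_finsetSum _ hint] at h1
  push_cast at h1
  have h2 : ∫ y, w y * ∏ b, Real.cos (inner ℝ (bl π b ξ) y) ∂(MX.unif K) =
      (1 / 2 ^ n : ℝ) * ∫ y, ∑ ε : Fin n → Bool,
        w y * Real.cos (∑ b, sg (ε b) * inner ℝ (bl π b ξ) y) ∂(MX.unif K) := by
    rw [← integral_const_mul]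
    refine integral_congr_ae (ae_of_all _ fun y => ?_)
    simp only
    rw [← mean_cos, ← Finset.mul_sum]
    ring
  rw [h2, ← h1]
  field_simp

theorem kvs_leP {n k : ℕ} {π : Fin n → Fin n} {K : Set (V n)} (hK : BU k π K) {w : V n → ℝ}
    (hw : Wtt w) (hs : SI K w) {B : ℝ} (hB0 : 0 ≤ B) (hB : ∀ᵐ y ∂(MX.unif K), |w y| ≤ B)
    (ξ : V n) : |kvs (MX.unif K) w ξ| ≤ B * Ph π K ξ := by
  haveI := hK.toSB.prob
  rw [gsg_eq hK hw hs ξ]
  unfold Ph
  rw [← integral_const_mul]
  have hint : Integrable (fun y : V n => ∏ b, |Real.cos (inner ℝ (bl π b ξ) y)|)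
      (MX.unif K) := by
    refine gsg_int (B := 1) ?_ fun y => ?_
    · refine Finset.measurable_prod _ fun b _ => ?_
      fun_prop
    · rw [abs_of_nonneg (Finset.prod_nonneg fun b _ => abs_nonneg _)]
      exact Finset.prod_le_one (fun b _ => abs_nonneg _) fun b _ => Real.abs_cos_le_one _
  refine (abs_integral_le_integral_abs).trans ?_
  refine integral_mono_of_nonneg (ae_of_all _ fun y => abs_nonneg _) (hint.const_mul B) ?_
  filter_upwards [hB] with y hy
  rw [abs_mul, Finset.abs_prod]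
  exact mul_le_mul_of_nonneg_right hy (Finset.prod_nonneg fun b _ => abs_nonneg _)

end Pool.Agent.UK
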