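import Pool.Agent.UK.GMs
import Pool.Agent.UK.GDec
import Pool.Agent.UK.GSg

/-!
# UK-GeoK: the geometric input

PLAN.  `c l = max C_mass (max (C_dec l) (C_mom l))`, from `massK k`, `superdecayK k`, `momK`, `kvs_leP` (`choose`).
-/

set_option autoImplicit false

open MeasureTheory Set
open scoped ENNReal NNReal

namespace Pool.Agent.UK

open Pool.Agent.CB Pool.Agent.UB

theorem geoK (k : ℕ) : ∃ c : ℕ → ℝ, ∀ (n : ℕ) (π : Fin n → Fin n) (K : Set (V n)),
    BU k π K → Iso K → Geo c K := by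
  choose Cd hCd0 hCd using superdecayK k
  choose Cm hCm0 hCm using momK
  obtain ⟨C0, hC0, hmass⟩ := massK k
  refine ⟨fun l => max C0 (max (Cd l) (Cm l)), fun n π K hK hI => ?_⟩
  refine ⟨hK.toSB, fun i h hh => ?_, fun l ξ => ?_, fun l ξ w B hw hs hB0 hB => ?_⟩
  · exact (hmass n π K hK hI i h hh).trans
      (mul_le_mul_of_nonneg_right (le_max_left _ _) (sq_nonneg h))
  · exact (hCm l n K hK.toSB hI ξ).trans
      (mul_le_mul_of_nonneg_right ((le_max_right _ _).trans (le_max_right _ _))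
        (pow_nonneg (norm_nonneg ξ) l))
  · have hA : 0 ≤ Am ξ := Finset.sum_nonneg fun j _ => le_min zero_le_one (sq_nonneg _)
    have h1 := kvs_leP hK hw hs hB0 hB ξ
    have h2 := hCd l n π K hK hI ξ
    calc |kvs (MX.unif K) w ξ| * (1 + Am ξ) ^ l ≤ B * Ph π K ξ * (1 + Am ξ) ^ l :=
          mul_le_mul_of_nonneg_right h1 (by positivity)
      _ = Ph π K ξ * (1 + Am ξ) ^ l * B := by ring
      _ ≤ Cd l * B := mul_le_mul_of_nonneg_right h2 hB0
      _ ≤ _ := mul_le_mul_of_nonneg_right ((le_max_left _ _).trans (le_max_right _ _)) hB0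

end Pool.Agent.UK
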