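import Pool.Agent.UK.GNr

/-!
# UK-NrmK: isotropic position (see `UK/GNr.lean`)
-/
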