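import Pool.Agent.UK.EdB
import Pool.Agent.UB.LocC
import Pool.Agent.UB.Nrm
import Pool.Agent.UK.GeoK
import Pool.Agent.UK.NrmK
import Pool.Agent.MO.Body

/-!
# UK-Core: the local maximal inequality and the maximal inequality for block unconditional bodies

PLAN.  `locBU`: `j ≥ 2`, `p0 = 2^j/(2^j - 1)`; `geoK k`, `edB`, `UB.locC` give `D` with `LocBdd p0 D (unif K)` for isotropic `BU` bodies; `nrmK`,
`UB.unif_map`, `UB.locE_of_map` transfer it to all `BU` bodies (`E = V n`) and then to `E` with `T : E ≃L[ℝ] V n`, `BU k π (T '' K)`.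
`bddBU`: given `1 < p ≤ 2` choose `j ≥ 2` with `p0 < p`; `MO.body_bdd` (`K` symmetric: compose the flips of all blocks).  See `UB/Fin.lean`.
-/

set_option autoImplicit false

open MeasureTheory Set
open scoped ENNReal NNReal

namespace Pool.Agent.UK

open Pool.Agent.CB Pool.Agent.UB

variable {k n : ℕ} {π : Fin n → Fin n} {K : Set (V n)}

private theorem fl_at (b : Fin n) (y : V n) (i : Fin n) :
    fl π b y i = if π i = b then -y i else y i := rfl

/-- The composition of the flips of the blocks `b ∈ s`. -/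
private theorem flips (hK : BU k π K) (s : Finset (Fin n)) :
    ∀ y ∈ K, (WithLp.toLp 2 fun i => if π i ∈ s then -y i else y i : V n) ∈ K := by
  classical
  induction s using Finset.induction_on with
  | empty =>
    intro y hy
    have h1 : (WithLp.toLp 2 fun i => if π i ∈ (∅ : Finset (Fin n)) then -y i else y i : V n) = y := by
      ext i
      simp
    rw [h1]
    exact hy
  | insert b s hb ih =>
    intro y hy
    have h1 := hK.flip b _ (ih y hy)
    have h2 : fl π b (WithLp.toLp 2 fun i => if π i ∈ s then -y i else y i : V n) =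
        (WithLp.toLp 2 fun i => if π i ∈ insert b s then -y i else y i : V n) := by
      ext i
      rw [fl_at]
      show (if π i = b then -(if π i ∈ s then -y i else y i) else (if π i ∈ s then -y i else y i)) =
        if π i ∈ insert b s then -y i else y i
      by_cases h3 : π i = b
      · have h4 : π i ∉ s := by rw [h3]; exact hb
        have h5 : π i ∈ insert b s := by rw [h3]; exact Finset.mem_insert_self b s
        rw [if_pos h3, if_neg h4, if_pos h5]
      · rw [if_neg h3]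
        by_cases h4 : π i ∈ s
        · rw [if_pos h4, if_pos (Finset.mem_insert_of_mem h4)]
        · have h5 : π i ∉ insert b s := by
            rw [Finset.mem_insert]
            exact fun h => h.elim h3 h4
          rw [if_neg h4, if_neg h5]
    rwa [h2] at h1

private theorem bu_neg (hK : BU k π K) : ∀ y ∈ K, -y ∈ K := by
  intro y hy
  have h1 := flips hK Finset.univ y hy
  have h2 : (WithLp.toLp 2 fun i => if π i ∈ (Finset.univ : Finset (Fin n)) then -y i else y i :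
      V n) = -y := by
    ext i
    simp
  rwa [h2] at h1

private theorem body_of {E : Type} [NormedAddCommGroup E] [NormedSpace ℝ E]
    (T : E ≃L[ℝ] V n) {B : Set E} (hB : BU k π (T '' B)) :
    IsCompact B ∧ Convex ℝ B ∧ (interior B).Nonempty ∧ ∀ x ∈ B, -x ∈ B := by
  have h0 : T.symm '' (T '' B) = B := by
    ext x
    constructor
    · rintro ⟨_, ⟨z, hz, rfl⟩, rfl⟩
      rwa [T.symm_apply_apply]
    · intro hx
      exact ⟨T x, ⟨x, hx, rfl⟩, T.symm_apply_apply x⟩
  refine ⟨?_, ?_, ?_, ?_⟩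
  · rw [← h0]
    exact hB.compact.image T.symm.continuous
  · rw [← h0]
    exact hB.convex.is_linear_image T.symm.toLinearEquiv.toLinearMap.isLinear
  · obtain ⟨x, hx⟩ := hB.nonempty
    have h5 := T.toHomeomorph.image_interior B
    have h6 : x ∈ T.toHomeomorph '' interior B := by
      rw [h5]
      exact hx
    obtain ⟨z, hz, _⟩ := h6
    exact ⟨z, hz⟩
  · intro x hx
    obtain ⟨z, hz, h1⟩ := bu_neg hB (T x) ⟨x, hx, rfl⟩
    have h2 : z = -x := by
      apply T.injective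
      rw [h1, map_neg]
    rwa [h2] at hz

theorem locBU (k : ℕ) {j : ℕ} (hj : 2 ≤ j) {p : ℝ} (hp : p = (2 : ℝ) ^ j / ((2 : ℝ) ^ j - 1)) :
    ∃ D : ℝ≥0, ∀ (n : ℕ) (E : Type) [NormedAddCommGroup E] [NormedSpace ℝ E]
      [FiniteDimensional ℝ E] [MeasureSpace E] [BorelSpace E]
      [Measure.IsAddHaarMeasure (volume : Measure E)] (T : E ≃L[ℝ] V n) (π : Fin n → Fin n)
      (K : Set E), BU k π (T '' K) → MO.LocE p (D : ℝ≥0∞) (MX.unif K) := by
  have h4 : (4 : ℝ) ≤ 2 ^ j := by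
    calc (4 : ℝ) = 2 ^ 2 := by norm_num
      _ ≤ 2 ^ j := pow_le_pow_right₀ (by norm_num) hj
  have hden : (0 : ℝ) < 2 ^ j - 1 := by linarith
  have h1 : 1 ≤ p := by
    rw [hp, le_div_iff₀ hden]
    linarith
  obtain ⟨c, hc⟩ := geoK k
  obtain ⟨N, C1, κ, hN, hC1, hκ, hE⟩ := edB c hj hp
  obtain ⟨D, hD⟩ := locC hN h1 hC1 hκ
  refine ⟨D, ?_⟩
  intro n E _ _ _ _ _ _ T π K hK
  obtain ⟨hB1, hB2, hB3, hB4⟩ := body_of T hK
  obtain ⟨T2, hT2, hiso⟩ := nrmK hK
  have hG := hc n π _ hT2 hiso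
  have him : T2 '' (T '' K) = (T.trans T2) '' K := by
    rw [← image_comp]
    rfl
  rw [him] at hG
  have hL : LocBdd p (D : ℝ≥0∞) (MX.unif ((T.trans T2) '' K)) :=
    hD n _ hG.toSB.symP fun h hh0 hh1 s f hf => hE n _ hG h hh0 hh1 s f hf
  have hpos : volume K ≠ 0 := (Measure.measure_pos_of_nonempty_interior volume hB3).ne'
  rw [← UB.unif_map (T.trans T2) hB1.measurableSet hpos hB1.measure_lt_top.ne] at hL
  exact UB.locE_of_map (T.trans T2) hL

theorem bddBU (k : ℕ) {p : ℝ} (hp : 1 < p) (hp2 : p ≤ 2) :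
    ∃ C : ℝ≥0, ∀ (n : ℕ) (E : Type) [NormedAddCommGroup E] [NormedSpace ℝ E]
      [FiniteDimensional ℝ E] [MeasureSpace E] [BorelSpace E]
      [Measure.IsAddHaarMeasure (volume : Measure E)] (T : E ≃L[ℝ] V n) (π : Fin n → Fin n)
      (K : Set E), BU k π (T '' K) → MX.Bdd p (C : ℝ≥0∞) K := by
  obtain ⟨j0, hj0⟩ := pow_unbounded_of_one_lt (p / (p - 1)) (one_lt_two (α := ℝ))
  have hj : 2 ≤ j0 + 2 := by omega
  obtain ⟨p0, hp0⟩ : ∃ p0 : ℝ, p0 = (2 : ℝ) ^ (j0 + 2) / ((2 : ℝ) ^ (j0 + 2) - 1) := ⟨_, rfl⟩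
  have h4 : (4 : ℝ) ≤ 2 ^ (j0 + 2) := by
    have h41 : (1 : ℝ) ≤ 2 ^ j0 := one_le_pow₀ (by norm_num)
    have h42 : (2 : ℝ) ^ (j0 + 2) = 2 ^ j0 * 4 := by
      rw [pow_add]
      norm_num
    rw [h42]
    linarith
  have h5 : (2 : ℝ) ^ j0 ≤ 2 ^ (j0 + 2) := pow_le_pow_right₀ (by norm_num) (by omega)
  have hden : (0 : ℝ) < 2 ^ (j0 + 2) - 1 := by linarith
  have h1 : 1 < p0 := by
    rw [hp0, lt_div_iff₀ hden]
    linarith
  have h2 : p0 < p := by
    rw [hp0, div_lt_iff₀ hden]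
    have hp1 : 0 < p - 1 := by linarith
    have h6 : p / (p - 1) < 2 ^ (j0 + 2) := lt_of_lt_of_le hj0 h5
    rw [div_lt_iff₀ hp1] at h6
    linarith
  obtain ⟨D, hD⟩ := locBU k hj hp0
  obtain ⟨C, hC⟩ := MO.body_bdd h1 h2 hp2 D
  refine ⟨C, ?_⟩
  intro n E _ _ _ _ _ _ T π K hK
  obtain ⟨hB1, hB2, hB3, hB4⟩ := body_of T hK
  exact hC E K hB1 hB2 hB3 hB4 (hD n E T π K hK)

end Pool.Agent.UK
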