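import Pool.Agent.UB.Kv

/-!
# Project UK (MP_84a211_an): block unconditional bodies

The operator part of project UB for bodies `K` invariant under sign changes of blocks of at most `k` coordinates.  Everything
that does not mention a body is taken from `Pool.Agent.UB`.  `hl` (half length of the chord) is `UB.hl`.
-/

set_option autoImplicit false

open MeasureTheory Set
open scoped ENNReal NNReal

namespace Pool.Agent.UK

open Pool.Agent.CB Pool.Agent.UB

/-- Symmetric convex bodies. -/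
structure SB {n : ℕ} (K : Set (V n)) : Prop where
  compact : IsCompact K
  convex : Convex ℝ K
  nonempty : (interior K).Nonempty
  symm : ∀ y ∈ K, -y ∈ K

/-- Sign changes of coordinates. -/
noncomputable def sgm {n : ℕ} (ε : Fin n → Bool) (y : V n) : V n :=
  WithLp.toLp 2 fun i => sg (ε i) * y i

/-- The sign change of the block `b`. -/
noncomputable def fl {n : ℕ} (π : Fin n → Fin n) (b : Fin n) (y : V n) : V n :=
  WithLp.toLp 2 fun i => if π i = b then -y i else y i

/-- Bodies which are unconditional with respect to the blocks `{i | π i = b}` of at most `k` coordinates. -/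
structure BU {n : ℕ} (k : ℕ) (π : Fin n → Fin n) (K : Set (V n)) : Prop where
  compact : IsCompact K
  convex : Convex ℝ K
  nonempty : (interior K).Nonempty
  flip : ∀ b, ∀ y ∈ K, fl π b y ∈ K
  dim : ∀ b, (Finset.univ.filter fun i => π i = b).card ≤ k

/-- Isotropic bodies. -/
def Iso {n : ℕ} (K : Set (V n)) : Prop :=
  ∀ ξ : V n, ∫ y, (inner ℝ ξ y : ℝ) ^ 2 ∂(MX.unif K) = ‖ξ‖ ^ 2

/-- Functions which are invariant under all sign changes which preserve `K`. -/
def SI {n : ℕ} (K : Set (V n)) (w : V n → ℝ) : Prop :=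
  ∀ ε : Fin n → Bool, (∀ y ∈ K, sgm ε y ∈ K) → ∀ y, w (sgm ε y) = w y

/-- The geometric input of the operator part. -/
structure Geo {n : ℕ} (c : ℕ → ℝ) (K : Set (V n)) : Prop extends SB K where
  mass : ∀ (i : Fin n) (h : ℝ), 0 ≤ h → (MX.unif K).real {y | hl K i y ≤ h} ≤ c 0 * h ^ 2
  mom : ∀ (l : ℕ) (ξ : V n), ∫ y, |inner ℝ ξ y| ^ l ∂(MX.unif K) ≤ c l * ‖ξ‖ ^ l
  decW : ∀ (l : ℕ) (ξ : V n) (w : V n → ℝ) (B : ℝ), Wtt w → SI K w → 0 ≤ B →
    (∀ᵐ y ∂(MX.unif K), |w y| ≤ B) →
    |kvs (MX.unif K) w ξ| * (1 + Am ξ) ^ l ≤ c l * B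

/-- The largest of the symbols `kvs w ξ` of the invariant weights with `|w| ≤ 1`. -/
noncomputable def Phi {n : ℕ} (K : Set (V n)) (ξ : V n) : ℝ :=
  sSup {u | ∃ w : V n → ℝ, Wtt w ∧ SI K w ∧ (∀ᵐ y ∂(MX.unif K), |w y| ≤ 1) ∧
    u = |kvs (MX.unif K) w ξ|}

/-- Distance to the complement of `K` along the direction `± e_i`. -/
noncomputable def nd {n : ℕ} (K : Set (V n)) (i : Fin n) (y : V n) : ℝ :=
  (volume {s : ℝ | 0 ≤ s ∧ y + s • bv i ∈ K ∧ y - s • bv i ∈ K}).toReal

open Classical in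
/-- The weight of points close to the ends of the chords of class `b`. -/
noncomputable def wt {n : ℕ} (K : Set (V n)) (b : ℕ) (θ : ℝ) (i : Fin n) (y : V n) : ℝ :=
  if hl K i y ∈ Ib b ∧ nd K i y < θ then θ⁻¹ else 0

/-- The difference of two weights. -/
noncomputable def wd {n : ℕ} (K : Set (V n)) (b : ℕ) (θ : ℝ) (i : Fin n) (y : V n) : ℝ :=
  wt K b (θ / 2) i y - wt K b θ i y

open Classical in
/-- The weight with `wd^ = ξ_i² we^`. -/
noncomputable def we {n : ℕ} (K : Set (V n)) (b : ℕ) (θ : ℝ) (i : Fin n) (y : V n) : ℝ :=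
  if hl K i y ∈ Ib b then Ef θ (nd K i y) else 0

open Classical in
/-- The weight of short chords. -/
noncomputable def ws {n : ℕ} (K : Set (V n)) (r : ℝ) (i : Fin n) (y : V n) : ℝ :=
  if hl K i y ≤ r then r⁻¹ else 0

end Pool.Agent.UK
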