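import Pool.Agent.UK.Chord

/-!
# UK-Sgn: the function `Phi`

PLAN.  `Phi K ξ` is the supremum of a set bounded by `1` (`|kvs w ξ| ≤ ∫ |w| ≤ 1`) containing the value for `w = 1`.  `kvs_le`: `B = 0`: `w = 0` a.e.;
`B > 0`: `w/B` is admissible, `kvs (w/B) = kvs w/B`.  `Geo.dec`: `csSup_le` (times `(1 + Am ξ)^l`, using `Geo.decW` with `B = 1`).
-/

set_option autoImplicit false

open MeasureTheory Set
open scoped ENNReal NNReal

namespace Pool.Agent.UK

open Pool.Agent.CB Pool.Agent.UB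

variable {n : ℕ} {K : Set (V n)}

private theorem kvs_abs_le (hK : SB K) {w : V n → ℝ} {B : ℝ} (hB : ∀ᵐ y ∂(MX.unif K), |w y| ≤ B)
    (ξ : V n) : |kvs (MX.unif K) w ξ| ≤ B := by
  haveI := hK.prob
  unfold kvs
  have h := norm_integral_le_of_norm_le_const (μ := MX.unif K)
    (f := fun y : V n => w y * Real.cos (inner ℝ ξ y)) (C := B) (by
      filter_upwards [hB] with y hy
      rw [Real.norm_eq_abs, abs_mul]
      have h1 := Real.abs_cos_le_one (inner ℝ ξ y)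
      have h2 := abs_nonneg (w y)
      nlinarith)
  rw [Real.norm_eq_abs] at h
  simpa using h

private theorem bdd_above (hK : SB K) (ξ : V n) :
    BddAbove {u | ∃ w : V n → ℝ, Wtt w ∧ SI K w ∧ (∀ᵐ y ∂(MX.unif K), |w y| ≤ 1) ∧
      u = |kvs (MX.unif K) w ξ|} := by
  refine ⟨1, ?_⟩
  rintro u ⟨w, _, _, h, rfl⟩
  exact kvs_abs_le hK h ξ

private theorem wtt_one : Wtt (fun _ : V n => (1 : ℝ)) :=
  ⟨measurable_const, ⟨1, fun _ => by simp⟩, fun _ => rfl⟩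

theorem kvs_le (hK : SB K) {w : V n → ℝ} (hw : Wtt w) (hs : SI K w) {B : ℝ} (hB0 : 0 ≤ B)
    (hB : ∀ᵐ y ∂(MX.unif K), |w y| ≤ B) (ξ : V n) : |kvs (MX.unif K) w ξ| ≤ B * Phi K ξ := by
  rcases hB0.eq_or_lt with h0 | h0
  · rw [← h0, zero_mul]
    rw [← h0] at hB
    exact kvs_abs_le hK hB ξ
  · have h1 : |kvs (MX.unif K) (fun y => B⁻¹ * w y) ξ| ≤ Phi K ξ := by
      refine le_csSup (bdd_above hK ξ) ⟨fun y => B⁻¹ * w y, ?_, ?_, ?_, rfl⟩
      · obtain ⟨C, hC⟩ := hw.bdd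
        refine ⟨hw.meas.const_mul _, ⟨B⁻¹ * C, fun y => ?_⟩, fun y => ?_⟩
        · rw [abs_mul, abs_of_pos (inv_pos.2 h0)]
          exact mul_le_mul_of_nonneg_left (hC y) (inv_pos.2 h0).le
        · show B⁻¹ * w (-y) = B⁻¹ * w y
          rw [hw.even y]
      · intro ε hε y
        show B⁻¹ * w (sgm ε y) = B⁻¹ * w y
        rw [hs ε hε y]
      · filter_upwards [hB] with y hy
        rw [abs_mul, abs_of_pos (inv_pos.2 h0)]
        rw [inv_mul_le_iff₀ h0, mul_one]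
        exact hy
    have h2 : kvs (MX.unif K) (fun y => B⁻¹ * w y) ξ = B⁻¹ * kvs (MX.unif K) w ξ := by
      unfold kvs
      rw [← integral_const_mul]
      refine integral_congr_ae (ae_of_all _ fun y => ?_)
      simp only
      ring
    rw [h2, abs_mul, abs_of_pos (inv_pos.2 h0), inv_mul_le_iff₀ h0] at h1
    exact h1

theorem ft_le_Phi (hK : SB K) (ξ : V n) : |ft (MX.unif K) ξ| ≤ Phi K ξ := by
  have h1 := kvs_le hK (w := fun _ => 1) wtt_one (fun _ _ _ => rfl) zero_le_one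
    (ae_of_all _ fun _ => by simp) ξ
  have h2 : kvs (MX.unif K) (fun _ => 1) ξ = ft (MX.unif K) ξ := by
    unfold kvs ft
    simp
  rw [h2, one_mul] at h1
  exact h1

theorem Phi_nonneg (K : Set (V n)) (ξ : V n) : 0 ≤ Phi K ξ := by
  unfold Phi
  refine Real.sSup_nonneg ?_
  rintro u ⟨w, _, _, _, rfl⟩
  exact abs_nonneg _

theorem Phi_le_one (hK : SB K) (ξ : V n) : Phi K ξ ≤ 1 := by
  unfold Phi
  refine csSup_le ⟨_, fun _ => 1, wtt_one, fun _ _ _ => rfl, ae_of_all _ fun _ => by simp, rfl⟩ ?_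
  rintro u ⟨w, _, _, h, rfl⟩
  exact kvs_abs_le hK h ξ

theorem Geo.dec {c : ℕ → ℝ} (hK : Geo c K) (l : ℕ) (ξ : V n) :
    Phi K ξ * (1 + Am ξ) ^ l ≤ c l := by
  have hA : 0 ≤ Am ξ := Finset.sum_nonneg fun j _ => le_min zero_le_one (sq_nonneg _)
  have hp : 0 < (1 + Am ξ) ^ l := pow_pos (by linarith) l
  rw [← le_div_iff₀ hp]
  unfold Phi
  refine csSup_le ⟨_, fun _ => 1, wtt_one, fun _ _ _ => rfl, ae_of_all _ fun _ => by simp, rfl⟩ ?_
  rintro u ⟨w, hw, hs, h, rfl⟩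
  rw [le_div_iff₀ hp]
  have h1 := hK.decW l ξ w 1 hw hs zero_le_one h
  rwa [mul_one] at h1

end Pool.Agent.UK
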