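import Pool.Agent.UB.XG
import Pool.Agent.UK.Chord

/-!
# UK-Scale: dilations

The operator norms on `L^p` of the averages over the dilates of `K`, composed with powers of `1 - G`, do not depend on the
scale (change of variables `x ↦ t x`).
-/

set_option autoImplicit false

open MeasureTheory Set
open scoped ENNReal NNReal

namespace Pool.Agent.UK

open Pool.Agent.CB Pool.Agent.UB

/-- The rescaled function. -/
private noncomputable def rs {n : ℕ} (t : ℝ) (f : V n → ℝ) (x : V n) : ℝ := f (t • x)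

private theorem rs_nice {n : ℕ} {t : ℝ} (ht : 0 < t) {f : V n → ℝ} (hf : Nice f) :
    Nice (rs t f) := by
  refine ⟨hf.cont.comp (continuous_const_smul t), ?_, ?_⟩
  · obtain ⟨C, hC⟩ := hf.bdd
    exact ⟨C, fun x => hC _⟩
  · exact hf.int.comp_smul ht.ne'

private theorem rs_nm {n : ℕ} {t : ℝ} (ht : 0 < t) (q : ℝ≥0∞) (f : V n → ℝ) :
    nm q (rs t f) =
      ENNReal.ofReal (abs (t ^ Module.finrank ℝ (V n))⁻¹) ^ (1 / q).toReal * nm q f := by
  have h1 : MeasurableEmbedding (fun x : V n => t • x) := measurableEmbedding_const_smul₀ ht.ne'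
  have h2 : rs t f = f ∘ (fun x : V n => t • x) := rfl
  unfold nm
  rw [h2, ← h1.eLpNorm_map_measure, Measure.map_addHaar_smul _ ht.ne',
    eLpNorm_smul_measure_of_ne_zero, smul_eq_mul]
  have h3 : 0 < t ^ Module.finrank ℝ (V n) := pow_pos ht _
  rw [Ne, ENNReal.ofReal_eq_zero, not_le]
  exact abs_pos.2 (inv_pos.2 h3).ne'

private theorem cv_dil_rs {n : ℕ} (μ : Measure (V n)) (s t : ℝ) {f : V n → ℝ} (hf : Nice f)
    (x : V n) : cv (dil (s * t) μ) f (t • x) = cv (dil s μ) (rs t f) x := by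
  have h1 : Measurable (rs t f) := hf.cont.measurable.comp (measurable_const_smul t)
  rw [cv_dil μ (s * t) hf.cont.measurable, cv_dil μ s h1]
  refine integral_congr_ae (Filter.Eventually.of_forall fun y => ?_)
  show f (t • x + (s * t) • y) = f (t • (x + s • y))
  rw [smul_add, smul_smul, mul_comm s t]

private theorem cv_rs {n : ℕ} (μ : Measure (V n)) (t : ℝ) {f : V n → ℝ} (hf : Nice f) (x : V n) :
    cv (dil t μ) f (t • x) = cv μ (rs t f) x := by
  rw [cv_dil μ t hf.cont.measurable]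
  refine integral_congr_ae (Filter.Eventually.of_forall fun y => ?_)
  show f (t • x + t • y) = f (t • (x + y))
  rw [smul_add]

private theorem Qa_rs {n : ℕ} {a t : ℝ} (ha : 0 ≤ a) (ht : 0 < t) (M0 : ℕ) {f : V n → ℝ}
    (hf : Nice f) : rs t (Qa (a * t) M0 f) = Qa a M0 (rs t f) := by
  induction M0 with
  | zero => rfl
  | succ k ih =>
    have h0 : Nice (Qa (a * t) k f) :=
      (opr_Qa (mul_nonneg ha ht.le) k).nice f hf
    have h1 : Qa (a * t) (k + 1) f = om (Ga (a * t)) (Qa (a * t) k f) :=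
      Function.iterate_succ_apply' _ _ _
    have h2 : Qa a (k + 1) (rs t f) = om (Ga a) (Qa a k (rs t f)) :=
      Function.iterate_succ_apply' _ _ _
    rw [h1, h2, ← ih]
    funext x
    show Qa (a * t) k f (t • x) - cv (dil (a * t) (gam n)) (Qa (a * t) k f) (t • x) =
      rs t (Qa (a * t) k f) x - cv (dil a (gam n)) (rs t (Qa (a * t) k f)) x
    rw [cv_dil_rs (gam n) a t h0 x]
    rfl

theorem scale {n : ℕ} {K : Set (V n)} (hK : SB K) {a t B p : ℝ} (ha : 0 ≤ a) (ht : 0 < t)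
    (hp : 1 ≤ p) (M0 : ℕ)
    (h : Bq (ENNReal.ofReal p) B fun f => cv (MX.unif K) (Qa a M0 f)) :
    Bq (ENNReal.ofReal p) B fun f => cv (dil t (MX.unif K)) (Qa (a * t) M0 f) := by
  intro f hf
  have h0 : Nice (Qa (a * t) M0 f) := (opr_Qa (mul_nonneg ha ht.le) M0).nice f hf
  have h1 := h (rs t f) (rs_nice ht hf)
  have h2 : cv (MX.unif K) (Qa a M0 (rs t f)) =
      rs t (cv (dil t (MX.unif K)) (Qa (a * t) M0 f)) := by
    rw [← Qa_rs ha ht M0 hf]
    funext x
    exact (cv_rs (MX.unif K) t h0 x).symm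
  have h3 : nm (ENNReal.ofReal p) (cv (MX.unif K) (Qa a M0 (rs t f))) ≤
      ENNReal.ofReal B * nm (ENNReal.ofReal p) (rs t f) := h1
  rw [h2, rs_nm ht, rs_nm ht] at h3
  set c : ℝ≥0∞ := ENNReal.ofReal (abs (t ^ Module.finrank ℝ (V n))⁻¹) ^
    (1 / ENNReal.ofReal p).toReal with hc
  have h4 : ENNReal.ofReal (abs (t ^ Module.finrank ℝ (V n))⁻¹) ≠ 0 := by
    have h5 : 0 < t ^ Module.finrank ℝ (V n) := pow_pos ht _
    rw [Ne, ENNReal.ofReal_eq_zero, not_le]
    exact abs_pos.2 (inv_pos.2 h5).ne'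
  have hc0 : c ≠ 0 := by
    rw [hc]
    exact (ENNReal.rpow_pos (pos_iff_ne_zero.2 h4) ENNReal.ofReal_ne_top).ne'
  have hc1 : c ≠ ⊤ := by
    rw [hc]
    exact ENNReal.rpow_ne_top_of_nonneg ENNReal.toReal_nonneg ENNReal.ofReal_ne_top
  rw [← mul_assoc, mul_comm (ENNReal.ofReal B) c, mul_assoc] at h3
  exact (ENNReal.mul_le_mul_iff_right hc0 hc1).1 h3

/-- The operator is a multiplier operator, and the main estimate is monotone in the exponent base. -/
theorem opr_PQ {n : ℕ} {K : Set (V n)} (hK : SB K) {a t : ℝ} (ha : 0 ≤ a) (ht : 0 < t) (M0 : ℕ) :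
    Opr (fun ξ : V n => ft (MX.unif K) (t • ξ) * (1 - Real.exp (-(a * ‖ξ‖) ^ 2 / 2)) ^ M0)
      (2 ^ M0) fun f => cv (dil t (MX.unif K)) (Qa a M0 f) := by
  have h1 := (opr_cv (hK.symP.dil t)).comp (opr_Qa (n := n) ha M0)
  rw [one_mul] at h1
  refine h1.congr_symbol fun ξ => ?_
  rw [ft_dil]

end Pool.Agent.UK
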