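import Pool.Agent.UK.LineL
import Pool.Agent.UB.SetId

/-!
# UK-SetId: the set identity for symmetric convex bodies

PLAN.  As `UB/SetId.lean`; for `y ∈ K`, `|s| ≤ r`, `y + s • bv i ∉ K` implies `nd K i y < r` (`SB.chord`: `s > b` or `s < -a`).
-/

set_option autoImplicit false

open MeasureTheory Set
open scoped ENNReal NNReal

namespace Pool.Agent.UK

open Pool.Agent.CB Pool.Agent.UB

variable {n : ℕ}

private lemma meas_shift (i : Fin n) : Measurable fun p : V n × ℝ => p.1 + p.2 • bv (n := n) i := by
  have : Continuous fun p : V n × ℝ => p.1 + p.2 • bv (n := n) i := by fun_prop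
  exact this.measurable

open Classical in
private lemma meas_F {K : Set (V n)} (hKm : MeasurableSet K) (i : Fin n) {g : V n → ℝ}
    (hg : Nice g) (x : V n) : Measurable fun p : V n × ℝ =>
      if p.1 + p.2 • bv i ∈ K then g (x + p.1) - g (x + p.1 + p.2 • bv i) else 0 := by
  refine Measurable.ite (meas_shift i hKm) ?_ measurable_const
  have h1 := hg.cont
  have : Continuous fun p : V n × ℝ => g (x + p.1) - g (x + p.1 + p.2 • bv (n := n) i) := by
    fun_prop
  exact this.measurable

open Classical in
private lemma bdd_F (K : Set (V n)) (i : Fin n) {g : V n → ℝ}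
    (hg : Nice g) (x : V n) : ∃ C : ℝ, ∀ p : V n × ℝ,
      ‖(if p.1 + p.2 • bv i ∈ K then g (x + p.1) - g (x + p.1 + p.2 • bv i) else 0 : ℝ)‖ ≤ C := by
  obtain ⟨C, hC⟩ := hg.bdd
  refine ⟨C + C, fun p => ?_⟩
  have h0 : 0 ≤ C := (abs_nonneg _).trans (hC 0)
  split_ifs
  · exact (norm_sub_le _ _).trans (add_le_add (hC _) (hC _))
  · rw [norm_zero]; linarith

open Classical in
private lemma zero_part {K : Set (V n)} (hKm : MeasurableSet K) (hKf : volume K < ⊤)
    {ν : Measure ℝ} (hν : SymR ν) (i : Fin n) {g : V n → ℝ} (hg : Nice g) (x : V n) :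
    ∫ y in K, ∫ s, (if y + s • bv i ∈ K then g (x + y) - g (x + y + s • bv i) else 0) ∂ν = 0 := by
  have := hν.prob
  have : IsFiniteMeasure (volume.restrict K) := ⟨by simpa using hKf⟩
  have hFi : Integrable (Function.uncurry fun (y : V n) (s : ℝ) =>
      (if y + s • bv i ∈ K then g (x + y) - g (x + y + s • bv i) else 0 : ℝ))
      ((volume.restrict K).prod ν) := by
    obtain ⟨C, hC⟩ := bdd_F K i hg x
    exact Integrable.of_bound (meas_F hKm i hg x).aestronglyMeasurable C
      (Filter.Eventually.of_forall hC)
  rw [integral_integral_swap hFi]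
  set J : ℝ → ℝ := fun s =>
    ∫ y in K, (if y + s • bv i ∈ K then g (x + y) - g (x + y + s • bv i) else 0 : ℝ) with hJdef
  have hJ : ∀ s, J (-s) = - J s := by
    intro s
    simp only [hJdef]
    rw [← integral_indicator hKm, ← integral_indicator hKm, ← integral_neg,
      ← integral_add_right_eq_self _ (s • bv i)]
    refine integral_congr_ae (Filter.Eventually.of_forall fun y => ?_)
    simp only [Set.indicator_apply]
    have e1 : y + s • bv i + -s • bv i = y := by rw [neg_smul]; abel
    have e2 : x + (y + s • bv i) = x + y + s • bv i := by abel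
    have e3 : x + (y + s • bv i) + -s • bv i = x + y := by rw [neg_smul]; abel
    rw [e1, e3, e2]
    by_cases h1 : y ∈ K <;> by_cases h2 : y + s • bv i ∈ K <;> simp [h1, h2]
  have hsym : ∫ s, J s ∂ν = ∫ s, J (-s) ∂ν := by
    conv_lhs => rw [← hν.symm]
    exact integral_map_equiv (MeasurableEquiv.neg ℝ) J
  have h2 : ∫ s, J (-s) ∂ν = - ∫ s, J s ∂ν := by
    simp_rw [hJ]
    exact integral_neg _
  show ∫ s, J s ∂ν = 0
  linarith

open Classical in
theorem setid {K : Set (V n)} (hK : SB K) {r : ℝ} (hr : 0 < r) (i : Fin n) {g : V n → ℝ}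
    (hg : Nice g) (x : V n) :
    |cv (MX.unif K) (om (cv (dm (uni r) i)) g) x| ≤
      ∫ y, (if nd K i y < r then 1 else 0) * Gi r i g (x + y) ∂(MX.unif K) := by
  have hν := symR_uni hr
  have := hν.prob
  have := hK.prob
  have hKm : MeasurableSet K := hK.compact.measurableSet
  have hKf : volume K < ⊤ := hK.vol_lt_top
  have : IsFiniteMeasure (volume.restrict K) := ⟨by simpa using hKf⟩
  have hgm : Measurable g := hg.cont.measurable
  obtain ⟨C, hC⟩ := hg.bdd
  have h0 : 0 ≤ C := (abs_nonneg _).trans (hC 0)
  -- integrability in the variable of the line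
  have hIs : ∀ z : V n, Integrable (fun s : ℝ => g (z + s • bv i)) (uni r) := by
    intro z
    have hc : Continuous fun s : ℝ => g (z + s • bv i) := by
      have := hg.cont
      fun_prop
    exact Integrable.of_bound hc.aestronglyMeasurable C
      (Filter.Eventually.of_forall fun s => hC _)
  have hA : ∀ y : V n, om (cv (dm (uni r) i)) g (x + y) =
      ∫ s, (g (x + y) - g (x + y + s • bv i)) ∂(uni r) := by
    intro y
    rw [om, cv_dm hν i hgm, integral_sub (integrable_const _) (hIs _), integral_const]
    simp
  -- the inside part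
  set B1 : V n → ℝ := fun y =>
    ∫ s, (if y + s • bv i ∈ K then g (x + y) - g (x + y + s • bv i) else 0 : ℝ) ∂(uni r) with hB1
  set B2 : V n → ℝ := fun y =>
    ∫ s, (if y + s • bv i ∈ K then 0 else g (x + y) - g (x + y + s • bv i) : ℝ) ∂(uni r) with hB2
  have hF2m : Measurable fun p : V n × ℝ =>
      (if p.1 + p.2 • bv i ∈ K then 0 else g (x + p.1) - g (x + p.1 + p.2 • bv i) : ℝ) := by
    refine Measurable.ite (meas_shift i hKm) measurable_const ?_
    have h1 := hg.cont
    have : Continuous fun p : V n × ℝ => g (x + p.1) - g (x + p.1 + p.2 • bv (n := n) i) := by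
      fun_prop
    exact this.measurable
  have hF2b : ∀ p : V n × ℝ,
      ‖(if p.1 + p.2 • bv i ∈ K then 0 else g (x + p.1) - g (x + p.1 + p.2 • bv i) : ℝ)‖ ≤ C + C := by
    intro p
    split_ifs
    · rw [norm_zero]; linarith
    · exact (norm_sub_le _ _).trans (add_le_add (hC _) (hC _))
  have hsec1 : ∀ y : V n, Integrable (fun s : ℝ =>
      (if y + s • bv i ∈ K then g (x + y) - g (x + y + s • bv i) else 0 : ℝ)) (uni r) := by
    intro y
    obtain ⟨D, hD⟩ := bdd_F K i hg x
    exact Integrable.of_bound ((meas_F hKm i hg x).comp measurable_prodMk_left).aestronglyMeasurable D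
      (Filter.Eventually.of_forall fun s => hD (y, s))
  have hsec2 : ∀ y : V n, Integrable (fun s : ℝ =>
      (if y + s • bv i ∈ K then 0 else g (x + y) - g (x + y + s • bv i) : ℝ)) (uni r) := by
    intro y
    exact Integrable.of_bound (hF2m.comp measurable_prodMk_left).aestronglyMeasurable (C + C)
      (Filter.Eventually.of_forall fun s => hF2b (y, s))
  have hsplit : ∀ y : V n, om (cv (dm (uni r) i)) g (x + y) = B1 y + B2 y := by
    intro y
    rw [hA y, hB1, hB2]
    simp only
    rw [← integral_add (hsec1 y) (hsec2 y)]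
    refine integral_congr_ae (Filter.Eventually.of_forall fun s => ?_)
    simp only
    split_ifs <;> simp
  have hB1i : Integrable B1 (volume.restrict K) := by
    obtain ⟨D, hD⟩ := bdd_F K i hg x
    have hi : Integrable (fun p : V n × ℝ =>
      (if p.1 + p.2 • bv i ∈ K then g (x + p.1) - g (x + p.1 + p.2 • bv i) else 0 : ℝ))
      ((volume.restrict K).prod (uni r)) :=
      Integrable.of_bound (meas_F hKm i hg x).aestronglyMeasurable D
        (Filter.Eventually.of_forall hD)
    exact hi.integral_prod_left
  have hB2i : Integrable B2 (volume.restrict K) := by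
    have hi : Integrable (fun p : V n × ℝ =>
      (if p.1 + p.2 • bv i ∈ K then 0 else g (x + p.1) - g (x + p.1 + p.2 • bv i) : ℝ))
      ((volume.restrict K).prod (uni r)) :=
      Integrable.of_bound hF2m.aestronglyMeasurable (C + C)
        (Filter.Eventually.of_forall hF2b)
    exact hi.integral_prod_left
  have hmain : cv (MX.unif K) (om (cv (dm (uni r) i)) g) x = ∫ y, B2 y ∂(MX.unif K) := by
    rw [cv]
    simp_rw [hsplit]
    rw [MX.unif, integral_smul_measure, integral_smul_measure, integral_add hB1i hB2i,
      show ∫ y in K, B1 y = 0 from zero_part hKm hKf hν i hg x, zero_add]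
  rw [hmain]
  refine (abs_integral_le_integral_abs).trans ?_
  have hvinv : ((volume K)⁻¹ : ℝ≥0∞) ≠ ⊤ := ENNReal.inv_ne_top.2 hK.vol_pos.ne'
  have hGn : Nice (Gi r i g) := nice_Gi hr i hg
  refine integral_mono_ae ?_ ?_ ?_
  · exact (hB2i.abs).smul_measure hvinv
  · obtain ⟨D, hD⟩ := hGn.bdd
    have hm : Measurable fun y : V n =>
        (if nd K i y < r then (1 : ℝ) else 0) * Gi r i g (x + y) := by
      refine Measurable.mul (Measurable.ite ?_ measurable_const measurable_const) ?_
      · exact measurableSet_lt (hK.measurable_nd i) measurable_const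
      · exact (hGn.cont.comp (continuous_const.add continuous_id)).measurable
    refine Integrable.of_bound hm.aestronglyMeasurable D (Filter.Eventually.of_forall fun y => ?_)
    rw [norm_mul]
    have hb := hD (x + y)
    have : ‖(if nd K i y < r then (1 : ℝ) else 0)‖ ≤ 1 := by
      split_ifs <;> simp
    calc _ ≤ 1 * ‖Gi r i g (x + y)‖ := mul_le_mul_of_nonneg_right this (norm_nonneg _)
      _ ≤ D := by rw [one_mul]; exact hb
  · filter_upwards [hK.ae_mem] with y hy
    have hsupp : ∀ᵐ s ∂(uni r), s ∈ Icc (-r) r := by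
      rw [ae_iff]
      exact uni_supp
    by_cases hlt : nd K i y < r
    · rw [if_pos hlt, one_mul]
      refine (abs_integral_le_integral_abs).trans ?_
      refine integral_mono (hsec2 y).abs ?_ ?_
      · exact ((hIs (x + y)).sub (integrable_const _)).abs
      · intro s
        simp only
        split_ifs
        · rw [abs_zero]; exact abs_nonneg _
        · rw [abs_sub_comm]
    · rw [if_neg hlt, zero_mul]
      have : B2 y = 0 := by
        rw [hB2]
        simp only
        refine integral_eq_zero_of_ae ?_
        filter_upwards [hsupp] with s hs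
        have hin : y + s • bv i ∈ K := by
          obtain ⟨a, b, -, -, hab, -, hnd⟩ := hK.chord i hy
          rw [hab]
          rw [hnd, not_lt, le_min_iff] at hlt
          exact ⟨by linarith [hs.1, hlt.1], by linarith [hs.2, hlt.2]⟩
        simp [hin]
      rw [this, abs_zero]

end Pool.Agent.UK
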