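import Pool.Agent.UK.MassA
import Pool.Agent.UB.Norms
import Pool.Agent.UB.KapA

/-!
# UK-VK: elementary vector valued bounds

`kb_gen`, `kb_one`: bounds from `L^q(ℓ¹)` to `L^q`; `vb_of_kb`: doubling by Cauchy-Schwarz.
-/

set_option autoImplicit false

open MeasureTheory Set
open scoped ENNReal NNReal

namespace Pool.Agent.UK

open Pool.Agent.CB Pool.Agent.UB

variable {n : ℕ} {K : Set (V n)} {c : ℕ → ℝ}

/-- The operators `τ_i^{b,θ}`. -/
noncomputable def ta (K : Set (V n)) (b : ℕ) (θ : ℝ) (i : Fin n) (f : V n → ℝ) : V n → ℝ :=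
  kv (MX.unif K) (wt K b θ i) f

/-- The operators of short chords. -/
noncomputable def ts (K : Set (V n)) (r : ℝ) (i : Fin n) (f : V n → ℝ) : V n → ℝ :=
  kv (MX.unif K) (ws K r i) f

private theorem cv_l1f {μ : Measure (V n)} [IsProbabilityMeasure μ] {v : Fin n → V n → ℝ}
    (hv : ∀ i, Nice (v i)) (x : V n) :
    cv μ (l1f v) x = ∑ i, cv μ (fun y => |v i y|) x := by
  unfold cv l1f
  rw [integral_finsetSum]
  intro i _
  exact (cv_integrable (hv i) x).abs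

private theorem kb_gen (hK : SB K) {w : Fin n → V n → ℝ} (hw : ∀ i, Wtt (w i)) {B : ℝ}
    (hB0 : 0 ≤ B) (hB : ∀ i y, |w i y| ≤ B) {q : ℝ≥0∞} (hq : 1 ≤ q) :
    KB q B fun i => kv (MX.unif K) (w i) := by
  intro v hv
  have hμ := hK.symP
  have := hμ.prob
  have h1 : ∀ x, |∑ i, kv (MX.unif K) (w i) (v i) x| ≤ B * cv (MX.unif K) (l1f v) x := by
    intro x
    rw [cv_l1f hv, Finset.mul_sum]
    refine (Finset.abs_sum_le_sum_abs _ _).trans (Finset.sum_le_sum fun i _ => ?_)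
    exact kv_le_cv hμ (hw i) (Filter.Eventually.of_forall (hB i)) (hv i) x
  have h2 := (opr_cv hμ).bd q hq (l1f v) (nice_l1f hv)
  rw [ENNReal.ofReal_one, one_mul] at h2
  calc nm q (fun x => ∑ i, kv (MX.unif K) (w i) (v i) x)
      ≤ nm q (fun x => B * cv (MX.unif K) (l1f v) x) := nm_mono h1
    _ = ENNReal.ofReal B * nm q (cv (MX.unif K) (l1f v)) := by rw [nm_smul, abs_of_nonneg hB0]
    _ ≤ ENNReal.ofReal B * nm q (l1f v) := by gcongr

private theorem nm_one_l1f {v : Fin n → V n → ℝ} (hv : ∀ i, Nice (v i)) :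
    ∑ i, nm 1 (v i) = nm 1 (l1f v) := by
  unfold nm
  simp only [eLpNorm_one_eq_lintegral_enorm]
  rw [← lintegral_finsetSum' _ fun i _ => (hv i).cont.measurable.enorm.aemeasurable]
  refine lintegral_congr fun x => ?_
  unfold l1f
  simp only [Real.enorm_eq_ofReal_abs]
  rw [abs_of_nonneg (Finset.sum_nonneg fun i _ => abs_nonneg _),
    ENNReal.ofReal_sum_of_nonneg fun i _ => abs_nonneg _]

private theorem kb_one (hK : SB K) {w : Fin n → V n → ℝ} (hw : ∀ i, Wtt (w i))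
    (h0 : ∀ i y, 0 ≤ w i y) {m : ℝ} (hm : ∀ i, ∫ y, w i y ∂(MX.unif K) ≤ m) :
    KB 1 m fun i => kv (MX.unif K) (w i) := by
  intro v hv
  have hμ := hK.symP
  have h1 : ∀ i ∈ (Finset.univ : Finset (Fin n)), Nice (kv (MX.unif K) (w i) (v i)) :=
    fun i _ => (mul_kv hμ (hw i)).nice _ (hv i)
  have h2 : ∀ i, nm 1 (kv (MX.unif K) (w i) (v i)) ≤ ENNReal.ofReal m * nm 1 (v i) := by
    intro i
    have h3 := (opr_kv hμ (hw i)).bd 1 le_rfl (v i) (hv i)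
    have h4 : ∫ y, |w i y| ∂(MX.unif K) = ∫ y, w i y ∂(MX.unif K) := by
      refine integral_congr_ae (Filter.Eventually.of_forall fun y => ?_)
      exact abs_of_nonneg (h0 i y)
    rw [h4] at h3
    refine h3.trans ?_
    have h5 : ENNReal.ofReal (∫ y, w i y ∂(MX.unif K)) ≤ ENNReal.ofReal m :=
      ENNReal.ofReal_le_ofReal (hm i)
    gcongr
  calc nm 1 (fun x => ∑ i, kv (MX.unif K) (w i) (v i) x)
      ≤ ∑ i, nm 1 (kv (MX.unif K) (w i) (v i)) := nm_sum_le le_rfl _ h1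
    _ ≤ ∑ i, ENNReal.ofReal m * nm 1 (v i) := Finset.sum_le_sum fun i _ => h2 i
    _ = ENNReal.ofReal m * nm 1 (l1f v) := by rw [← Finset.mul_sum, nm_one_l1f hv]

theorem kb_base (hK : SB K) (b : ℕ) {θ : ℝ} (hθ : 0 < θ) {q : ℝ≥0∞} (hq : 1 ≤ q) :
    KB q θ⁻¹ (ta K b θ) := by
  refine kb_gen hK (fun i => wtt_wt hK b hθ i) (by positivity) (fun i y => ?_) hq
  rw [abs_of_nonneg (wt_nonneg b hθ i y)]
  exact wt_le b hθ i y

private theorem sqf_sq (v : Fin n → V n → ℝ) (x : V n) : sqf v x ^ 2 = ∑ i, v i x ^ 2 := by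
  unfold sqf
  exact Real.sq_sqrt (Finset.sum_nonneg fun i _ => sq_nonneg _)

private theorem le_of_sq {a b : ℝ≥0∞} (h : a ^ 2 ≤ b ^ 2) : a ≤ b := by
  by_contra hcon
  have h1 := ENNReal.pow_right_strictMono (n := 2) two_ne_zero (not_le.1 hcon)
  exact absurd h (not_le.2 h1)

/-- Abstract form of the doubling step. -/
theorem vb_of_kb (hK : SB K) {w : Fin n → V n → ℝ} (hw : ∀ i, Wtt (w i))
    (h0 : ∀ i, ∀ᵐ y ∂(MX.unif K), 0 ≤ w i y) {m C : ℝ} (hm0 : 0 ≤ m) (hC : 0 ≤ C)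
    (hm : ∀ i, ∫ y, w i y ∂(MX.unif K) ≤ m) {q : ℕ} (hq : 1 ≤ q)
    (h : KB q C fun i => kv (MX.unif K) (w i)) :
    VB ((2 * q : ℕ) : ℝ≥0∞) (Real.sqrt (m * C)) fun i => kv (MX.unif K) (w i) := by
  intro v hv
  have hμ := hK.symP
  have hv2 : ∀ i, Nice fun y => v i y ^ 2 := by
    intro i
    have h1 := nice_mul (hv i) (hv i)
    have h2 : (fun y => v i y ^ 2) = fun y => v i y * v i y := by
      funext y
      ring
    rw [h2]
    exact h1
  refine le_of_sq ?_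
  rw [← nm_sq hq, mul_pow, ← nm_sq hq, ← ENNReal.ofReal_pow (Real.sqrt_nonneg _),
    Real.sq_sqrt (mul_nonneg hm0 hC)]
  have h1 : ∀ x, |sqf (fun i => kv (MX.unif K) (w i) (v i)) x ^ 2| ≤
      m * ∑ i, kv (MX.unif K) (w i) (fun y => v i y ^ 2) x := by
    intro x
    rw [abs_of_nonneg (sq_nonneg _), sqf_sq, Finset.mul_sum]
    refine Finset.sum_le_sum fun i _ => (kv_sq hμ (hw i) (h0 i) (hv i) x).trans ?_
    exact mul_le_mul_of_nonneg_right (hm i) (kv_nonneg (h0 i) (fun x => sq_nonneg _) x)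
  have h2 := h (fun i y => v i y ^ 2) hv2
  have h3 : (l1f fun i y => v i y ^ 2) = fun x => sqf v x ^ 2 := by
    funext x
    rw [sqf_sq]
    unfold l1f
    refine Finset.sum_congr rfl fun i _ => abs_of_nonneg (sq_nonneg _)
  rw [h3] at h2
  calc nm (q : ℝ≥0∞) (fun x => sqf (fun i => kv (MX.unif K) (w i) (v i)) x ^ 2)
      ≤ nm (q : ℝ≥0∞) (fun x => m * ∑ i, kv (MX.unif K) (w i) (fun y => v i y ^ 2) x) :=
        nm_mono h1
    _ = ENNReal.ofReal m *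
        nm (q : ℝ≥0∞) (fun x => ∑ i, kv (MX.unif K) (w i) (fun y => v i y ^ 2) x) := by
        rw [nm_smul, abs_of_nonneg hm0]
    _ ≤ ENNReal.ofReal m * (ENNReal.ofReal C * nm (q : ℝ≥0∞) (fun x => sqf v x ^ 2)) := by
        gcongr
    _ = ENNReal.ofReal (m * C) * nm (q : ℝ≥0∞) (fun x => sqf v x ^ 2) := by
        rw [ENNReal.ofReal_mul hm0, mul_assoc]

theorem vb_two (hK : Geo c K) (b : ℕ) {θ : ℝ} (hθ : 0 < θ) (hθb : θ ≤ (1 / 2) ^ (b + 1)) :
    VB 2 (2 * (|c 0| + 1)) (ta K b θ) := by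
  have hU := hK.toSB
  have hm0 : 0 ≤ 2 * (|c 0| + 1) := by positivity
  have hm : ∀ i, ∫ y, wt K b θ i y ∂(MX.unif K) ≤ 2 * (|c 0| + 1) := by
    intro i
    refine (mass_wt hK b hθ hθb i).trans ?_
    have h1 : (0 : ℝ) ≤ (1 / 2) ^ b := by positivity
    have h2 : (1 / 2 : ℝ) ^ b ≤ 1 := pow_le_one₀ (by norm_num) (by norm_num)
    have h3 : c 0 ≤ |c 0| := le_abs_self _
    calc 2 * (c 0 + 1) * (1 / 2) ^ b ≤ 2 * (|c 0| + 1) * (1 / 2) ^ b :=
          mul_le_mul_of_nonneg_right (by linarith) h1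
      _ ≤ 2 * (|c 0| + 1) * 1 := mul_le_mul_of_nonneg_left h2 hm0
      _ = 2 * (|c 0| + 1) := mul_one _
  have h1 := kb_one hU (fun i => wtt_wt hU b hθ i) (fun i y => wt_nonneg b hθ i y) hm
  have h2 := vb_of_kb hU (fun i => wtt_wt hU b hθ i)
    (fun i => Filter.Eventually.of_forall fun y => wt_nonneg b hθ i y) hm0 hm0 hm (q := 1) le_rfl
    (by rw [Nat.cast_one]; exact h1)
  rw [Real.sqrt_mul_self hm0] at h2
  have h3 : ((2 * 1 : ℕ) : ℝ≥0∞) = 2 := by norm_num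
  rw [h3] at h2
  exact h2

theorem vb_ws (hK : Geo c K) {r : ℝ} (hr : 0 < r) {q : ℕ} (hq : 1 ≤ q) :
    VB ((2 * q : ℕ) : ℝ≥0∞) (Real.sqrt |c 0|) (ts K r) := by
  have hU := hK.toSB
  have hm : ∀ i, ∫ y, ws K r i y ∂(MX.unif K) ≤ |c 0| * r := by
    intro i
    exact (mass_ws hK hr i).trans (mul_le_mul_of_nonneg_right (le_abs_self _) hr.le)
  have h1 : KB (q : ℝ≥0∞) r⁻¹ fun i => kv (MX.unif K) (ws K r i) := by
    refine kb_gen hU (fun i => wtt_ws hU hr i) (by positivity) (fun i y => ?_)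
      (by exact_mod_cast hq)
    rw [abs_of_nonneg (ws_nonneg hr i y)]
    exact ws_le hr i y
  have h2 := vb_of_kb hU (fun i => wtt_ws hU hr i)
    (fun i => Filter.Eventually.of_forall fun y => ws_nonneg hr i y)
    (mul_nonneg (abs_nonneg _) hr.le) (by positivity) hm hq h1
  have h3 : |c 0| * r * r⁻¹ = |c 0| := by
    field_simp
  rw [h3] at h2
  exact h2

/-- `‖(∑ (P |v_i|)²)^(1/2)‖ ≤ ‖(∑ v_i²)^(1/2)‖`. -/
theorem vb_P (hK : SB K) {q : ℝ≥0∞} (hq : 1 ≤ q) {v : Fin n → V n → ℝ} (hv : ∀ i, Nice (v i)) :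
    nm q (sqf fun i => cv (MX.unif K) fun y => |v i y|) ≤ nm q (sqf v) := by
  have hμ := hK.symP
  have := hμ.prob
  have h2 := (opr_cv hμ).bd q hq (sqf v) (nice_sqf hv)
  rw [ENNReal.ofReal_one, one_mul] at h2
  refine le_trans (nm_mono fun x => ?_) h2
  rw [abs_of_nonneg (sqf_nonneg _ _)]
  exact sqf_cv hv x

end Pool.Agent.UK
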