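import Pool.Agent.UK.Defs

/-!
# UK-LinAl: decompositions of `ℝ^n` into blocks

PLAN.  `P j (P j x) = P j x` (apply `P j` to `x = ∑ P i x`), so the ranges of the `P j` form an internal direct sum (`DirectSum.IsInternal`), choose a
basis of each range, collect them (`DirectSum.IsInternal.collectedBasis`), index by `Fin n` (the number is `n`), `lab i : Fin m` = label of the `i`-th basis
vector, `T` = coordinates.  `T (x - 2 • P j x)` has the coordinates of `T x` with a minus sign at `lab i = j`.  `π i` = the smallest `i'` with `lab i' = lab i`; then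
for a class representative `b` the flip `fl π b` is the flip of the label `lab b`, and for the other `b` the class is empty.  `card {i | lab i = j}` = rank of `P j`.
-/

set_option autoImplicit false

open MeasureTheory Set
open scoped ENNReal NNReal

namespace Pool.Agent.UK

open Pool.Agent.CB Pool.Agent.UB

/-- the decomposition as a linear equivalence -/
private noncomputable def deq {n m : ℕ} (P : Fin m → (Fin n → ℝ) →ₗ[ℝ] (Fin n → ℝ))
    (h1 : ∀ i j, i ≠ j → ∀ x, P i (P j x) = 0) (h2 : ∀ x, ∑ j, P j x = x) :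
    (Fin n → ℝ) ≃ₗ[ℝ] (∀ j, LinearMap.range (P j)) where
  toFun x := fun j => ⟨P j x, ⟨x, rfl⟩⟩
  map_add' x y := by
    funext j
    apply Subtype.ext
    simp
  map_smul' c x := by
    funext j
    apply Subtype.ext
    simp
  invFun y := ∑ j, (y j : Fin n → ℝ)
  left_inv x := h2 x
  right_inv y := by
    funext j
    apply Subtype.ext
    obtain ⟨u, hu⟩ : ∃ u : Fin m → (Fin n → ℝ), ∀ i, P i (u i) = y i :=
      ⟨fun i => (y i).2.choose, fun i => (y i).2.choose_spec⟩
    show P j (∑ i, (y i : Fin n → ℝ)) = y j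
    rw [map_sum]
    simp only [← hu]
    rw [Finset.sum_eq_single j (fun i _ hij => h1 j i (Ne.symm hij) _)
      (fun h => absurd (Finset.mem_univ _) h)]
    have h3 := h2 (P j (u j))
    rw [Finset.sum_eq_single j (fun i _ hij => h1 i j hij _)
      (fun h => absurd (Finset.mem_univ _) h)] at h3
    exact h3

theorem linal {k n m : ℕ} {P : Fin m → (Fin n → ℝ) →ₗ[ℝ] (Fin n → ℝ)}
    (h1 : ∀ i j, i ≠ j → ∀ x, P i (P j x) = 0) (h2 : ∀ x, ∑ j, P j x = x)
    (h3 : ∀ j, Module.finrank ℝ (LinearMap.range (P j)) ≤ k) :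
    ∃ (T : (Fin n → ℝ) ≃L[ℝ] V n) (π : Fin n → Fin n),
      (∀ b, (Finset.univ.filter fun i => π i = b).card ≤ k) ∧
      ∀ b, (∃ j, ∀ x, fl π b (T x) = T (x - (2 : ℝ) • P j x)) ∨ ∀ x, fl π b (T x) = T x := by
  classical
  let d : Fin m → ℕ := fun j => Module.finrank ℝ (LinearMap.range (P j))
  let bs : ∀ j, Module.Basis (Fin (d j)) ℝ (LinearMap.range (P j)) := fun j =>
    Module.finBasis ℝ (LinearMap.range (P j))
  let B0 : Module.Basis (Σ j, Fin (d j)) ℝ (Fin n → ℝ) := (Pi.basis bs).map (deq P h1 h2).symm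
  have hc : Fintype.card (Σ j, Fin (d j)) = n := by
    rw [← Module.finrank_eq_card_basis B0, Module.finrank_fin_fun]
  let σ : (Σ j, Fin (d j)) ≃ Fin n := Fintype.equivFinOfCardEq hc
  let B := B0.reindex σ
  let lab : Fin n → Fin m := fun i => (σ.symm i).1
  have hrep : ∀ j x i, B.equivFun (P j x) i = if lab i = j then B.equivFun x i else 0 := by
    intro j x i
    have h4 : ∀ y i, B.equivFun y i = (bs (σ.symm i).1).repr ⟨P (σ.symm i).1 y, ⟨y, rfl⟩⟩
        (σ.symm i).2 := by
      intro y i
      rw [Module.Basis.equivFun_apply, Module.Basis.repr_reindex_apply, Module.Basis.map_repr,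
        LinearEquiv.trans_apply, Pi.basis_repr, LinearEquiv.symm_symm]
      rfl
    rw [h4, h4]
    split_ifs with h
    · have h5 : P (σ.symm i).1 (P j x) = P (σ.symm i).1 x := by
        have h6 : (σ.symm i).1 = j := h
        rw [h6]
        have h7 := h2 (P j x)
        rw [Finset.sum_eq_single j (fun i _ hij => h1 i j hij _)
          (fun h => absurd (Finset.mem_univ _) h)] at h7
        exact h7
      simp only [h5]
    · have h5 : P (σ.symm i).1 (P j x) = 0 := h1 _ _ h _
      have h6 : (⟨P (σ.symm i).1 (P j x), ⟨P j x, rfl⟩⟩ : LinearMap.range (P (σ.symm i).1)) = 0 :=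
        Subtype.ext h5
      rw [h6, map_zero]
      rfl
  let π : Fin n → Fin n := fun i =>
    haveI : Nonempty (Fin n) := ⟨i⟩
    Function.invFun lab (lab i)
  have hπ1 : ∀ i, lab (π i) = lab i := fun i =>
    haveI : Nonempty (Fin n) := ⟨i⟩
    Function.invFun_eq ⟨i, rfl⟩
  have hπ2 : ∀ i i', lab i = lab i' → π i = π i' := by
    intro i i' h
    have h5 : π i = (haveI : Nonempty (Fin n) := ⟨i⟩; Function.invFun lab (lab i)) := rfl
    rw [h5, h]
  have hπ3 : ∀ b, (∃ i0, π i0 = b) → ∀ i, π i = b ↔ lab i = lab b := by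
    rintro b ⟨i0, hi0⟩ i
    constructor
    · intro h
      rw [← h, hπ1]
    · intro h
      rw [← hi0]
      refine hπ2 i i0 ?_
      rw [h, ← hi0, hπ1]
  refine ⟨B.equivFun.toContinuousLinearEquiv.trans (EuclideanSpace.equiv (Fin n) ℝ).symm, π,
    ?_, ?_⟩
  · intro b
    by_cases hb : ∃ i0, π i0 = b
    · have h5 : (Finset.univ.filter fun i => π i = b) ⊆
          Finset.univ.image (fun a : Fin (d (lab b)) => σ ⟨lab b, a⟩) := by
        intro i hi
        rw [Finset.mem_filter, hπ3 b hb] at hi
        have h6 : (σ.symm i).1 = lab b := hi.2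
        rw [Finset.mem_image]
        refine ⟨h6 ▸ (σ.symm i).2, Finset.mem_univ _, ?_⟩
        rw [← Equiv.eq_symm_apply]
        refine Sigma.ext h6.symm ?_
        simp
      refine (Finset.card_le_card h5).trans (Finset.card_image_le.trans ?_)
      rw [Finset.card_univ, Fintype.card_fin]
      exact h3 _
    · have h5 : (Finset.univ.filter fun i => π i = b) = ∅ := by
        rw [Finset.filter_eq_empty_iff]
        intro i _ hi
        exact hb ⟨i, hi⟩
      rw [h5, Finset.card_empty]
      exact Nat.zero_le _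
  · intro b
    by_cases hb : ∃ i0, π i0 = b
    · left
      refine ⟨lab b, fun x => ?_⟩
      ext i
      have e1 : ∀ y : Fin n → ℝ, ((B.equivFun.toContinuousLinearEquiv.trans
          (EuclideanSpace.equiv (Fin n) ℝ).symm) y) i = B.equivFun y i := fun y => rfl
      show (if π i = b then -_ else _) = _
      rw [e1, e1, map_sub, map_smul, Pi.sub_apply, Pi.smul_apply, hrep, smul_eq_mul]
      simp only [hπ3 b hb i]
      split_ifs
      · ring
      · ring
    · right
      intro x
      ext i
      show (if π i = b then -_ else _) = _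
      rw [if_neg fun h => hb ⟨i, h⟩]

end Pool.Agent.UK
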