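import Pool.Agent.UK.Core
import Pool.Agent.UK.LinAl
import Pool.Agent.CB.Fin
import Pool.Agent.UB.Fin

/-!
# UK-Fin: the theorem

PLAN.  `linal` and `bddBU` (`T '' B` is compact, convex, has nonempty interior, invariant under all flips), then the explicit form: `volume (t • B) = t^n`, as in
`UB/Fin.lean` (`UB.fin`).
-/

set_option autoImplicit false

open MeasureTheory Set
open scoped Pointwise ENNReal NNReal

namespace Pool.Agent.UK

open Pool.Agent.CB Pool.Agent.UB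

theorem fin (k : ℕ) {p : ℝ} (hp : 1 < p) (hp2 : p ≤ 2) :
    ∃ C : ℝ, ∀ (n m : ℕ) (P : Fin m → (Fin n → ℝ) →ₗ[ℝ] (Fin n → ℝ)),
      (∀ i j, i ≠ j → ∀ x, P i (P j x) = 0) → (∀ x, ∑ j, P j x = x) →
      (∀ j, Module.finrank ℝ (LinearMap.range (P j)) ≤ k) →
      ∀ B : Set (Fin n → ℝ), IsCompact B → Convex ℝ B → (interior B).Nonempty → volume B = 1 →
      (∀ j, ∀ x ∈ B, x - (2 : ℝ) • P j x ∈ B) →
      ∀ f : (Fin n → ℝ) → ℝ, Measurable f →
        ∫⁻ x, (⨆ t : ℝ, ⨆ (_ : 0 < t),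
            (∫⁻ y in t • B, ‖f (x + y)‖ₑ) / ENNReal.ofReal (t ^ n)) ^ p ≤
          ENNReal.ofReal C * ∫⁻ x, ‖f x‖ₑ ^ p := by
  obtain ⟨C, hC⟩ := bddBU k hp hp2
  refine ⟨(C : ℝ) ^ p, fun n m P h1 h2 h3 B hB1 hB2 hB3 hB4 hB5 f hf => ?_⟩
  obtain ⟨T, π, hcard, hfl⟩ := linal h1 h2 h3
  have hBU : BU k π (T '' B) := by
    refine ⟨hB1.image T.continuous, ?_, ?_, ?_, hcard⟩
    · exact hB2.is_linear_image T.toLinearEquiv.toLinearMap.isLinear
    · obtain ⟨x, hx⟩ := hB3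
      refine ⟨T x, ?_⟩
      have h5 := T.toHomeomorph.image_interior B
      have h6 : T x ∈ T.toHomeomorph '' interior B := ⟨x, hx, rfl⟩
      rw [h5] at h6
      exact h6
    · rintro b y ⟨x, hx, rfl⟩
      rcases hfl b with ⟨j, hj⟩ | hj
      · rw [hj x]
        exact ⟨_, hB5 j x hx, rfl⟩
      · rw [hj x]
        exact ⟨x, hx, rfl⟩
  have h := hC n (Fin n → ℝ) T π B hBU f hf
  have hp0 : 0 ≤ p := by linarith
  have e1 : ENNReal.ofReal ((C : ℝ) ^ p) = (C : ℝ≥0∞) ^ p := by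
    rw [← ENNReal.ofReal_rpow_of_nonneg (NNReal.coe_nonneg C) hp0, ENNReal.ofReal_coe_nnreal]
  rw [e1]
  refine le_trans (le_of_eq ?_) h
  refine lintegral_congr fun x => ?_
  congr 1
  unfold MX.maxF
  refine iSup_congr fun t => iSup_congr fun ht => ?_
  rw [Measure.addHaar_smul, hB4, mul_one]
  congr 2
  rw [Module.finrank_fin_fun, abs_of_pos (pow_pos ht n)]

end Pool.Agent.UK
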