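import Pool.Agent.UK.GDefs
import Pool.Agent.UK.Chord

/-!
# UK-GB: blocks and flips

PLAN.  Coordinates.  `fle` is a composition of block flips: induction over a finset `S` of labels: `y ↦` (sign change of the blocks in `S`) maps `K` to
`K`.  `-y` is the sign change of all blocks.  `unif_fle`: `CB.unif_pres` (`fle ε` is linear and an involution).  `BU.si`: `fle π ε = sgm (ε ∘ π)`.
`BU.shrink`: convex combination of `y` and `fl π b y = y - 2 • bl π b y`.
-/

set_option autoImplicit false

open MeasureTheory Set
open scoped ENNReal NNReal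

namespace Pool.Agent.UK

open Pool.Agent.CB Pool.Agent.UB

variable {n k : ℕ} {π : Fin n → Fin n} {K : Set (V n)}

private theorem gb_inner (x y : V n) : (inner ℝ x y : ℝ) = ∑ i, x i * y i := by
  rw [PiLp.inner_apply]
  refine Finset.sum_congr rfl fun i _ => ?_
  rw [RCLike.inner_apply, conj_trivial, mul_comm]

private theorem gb_bl (π : Fin n → Fin n) (b : Fin n) (y : V n) (i : Fin n) :
    bl π b y i = if π i = b then y i else 0 := rfl

private theorem gb_fl (π : Fin n → Fin n) (b : Fin n) (y : V n) (i : Fin n) :
    fl π b y i = if π i = b then -y i else y i := rfl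

private theorem gb_fle (π : Fin n → Fin n) (ε : Fin n → Bool) (y : V n) (i : Fin n) :
    fle π ε y i = sg (ε (π i)) * y i := rfl

private theorem sg_true : sg true = 1 := rfl

private theorem sg_false : sg false = -1 := rfl

theorem fl_eq (π : Fin n → Fin n) (b : Fin n) (y : V n) : fl π b y = y - (2 : ℝ) • bl π b y := by
  ext i
  rw [PiLp.sub_apply, PiLp.smul_apply, gb_bl, gb_fl, smul_eq_mul]
  split_ifs
  · ring
  · ring

theorem fl_fle (π : Fin n → Fin n) (b : Fin n) (y : V n) :
    fl π b y = fle π (fun c => decide (c ≠ b)) y := by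
  ext i
  rw [gb_fl, gb_fle]
  by_cases h : π i = b
  · rw [if_pos h, decide_eq_false (by simpa using h), sg_false, neg_one_mul]
  · rw [if_neg h, decide_eq_true h, sg_true, one_mul]

theorem inb_bl (π : Fin n → Fin n) (b : Fin n) (y : V n) : InB π b (bl π b y) := by
  intro i hi
  rw [gb_bl, if_neg hi]

theorem norm_bl_le (π : Fin n → Fin n) (b : Fin n) (y : V n) : ‖bl π b y‖ ≤ ‖y‖ := by
  rw [EuclideanSpace.norm_eq, EuclideanSpace.norm_eq]
  refine Real.sqrt_le_sqrt (Finset.sum_le_sum fun i _ => ?_)
  rw [gb_bl]
  split_ifs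
  · exact le_rfl
  · rw [norm_zero, zero_pow two_ne_zero]
    positivity

theorem bl_of_inb {b : Fin n} {x : V n} (hx : InB π b x) : bl π b x = x := by
  ext i
  rw [gb_bl]
  split_ifs with h
  · rfl
  · exact (hx i h).symm

theorem bl_add (π : Fin n → Fin n) (b : Fin n) (x y : V n) :
    bl π b (x + y) = bl π b x + bl π b y := by
  ext i
  rw [PiLp.add_apply, gb_bl, gb_bl, gb_bl, PiLp.add_apply]
  split_ifs
  · rfl
  · rw [add_zero]

theorem bl_smul (π : Fin n → Fin n) (b : Fin n) (c : ℝ) (y : V n) :
    bl π b (c • y) = c • bl π b y := by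
  ext i
  rw [PiLp.smul_apply, gb_bl, gb_bl, PiLp.smul_apply]
  split_ifs
  · rfl
  · rw [smul_zero]

theorem continuous_bl (π : Fin n → Fin n) (b : Fin n) : Continuous (bl π b : V n → V n) := by
  refine (PiLp.continuous_toLp 2 _).comp (continuous_pi fun i => ?_)
  by_cases h : π i = b
  · simp only [if_pos h]
    exact (continuous_apply i).comp (PiLp.continuous_ofLp 2 _)
  · simp only [if_neg h]
    exact continuous_const

theorem inner_bl {b : Fin n} {x : V n} (hx : InB π b x) (y : V n) :
    (inner ℝ x y : ℝ) = inner ℝ x (bl π b y) := by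
  rw [gb_inner, gb_inner]
  refine Finset.sum_congr rfl fun i _ => ?_
  rw [gb_bl]
  split_ifs with h
  · rfl
  · rw [hx i h, zero_mul, zero_mul]

theorem inner_bl' (π : Fin n → Fin n) (b : Fin n) (x y : V n) :
    (inner ℝ (bl π b x) y : ℝ) = inner ℝ (bl π b x) (bl π b y) :=
  inner_bl (inb_bl π b x) y

theorem inner_sum (π : Fin n → Fin n) (x y : V n) :
    (inner ℝ x y : ℝ) = ∑ b, inner ℝ (bl π b x) y := by
  simp only [gb_inner]
  rw [Finset.sum_comm]
  refine Finset.sum_congr rfl fun i _ => ?_
  rw [Finset.sum_eq_single (π i)]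
  · rw [gb_bl, if_pos rfl]
  · intro b _ hb
    rw [gb_bl, if_neg (Ne.symm hb), zero_mul]
  · intro h
    exact absurd (Finset.mem_univ _) h

/-- The block of the coordinate `i`. -/
theorem inb_bv (π : Fin n → Fin n) (i : Fin n) : InB π (π i) (bv i) := by
  intro j hj
  have h : j ≠ i := fun h => hj (by rw [h])
  unfold bv
  rw [PiLp.single_apply, if_neg h]

theorem inner_fle {b : Fin n} {x : V n} (hx : InB π b x) (ε : Fin n → Bool) (y : V n) :
    (inner ℝ x (fle π ε y) : ℝ) = sg (ε b) * inner ℝ x y := by
  rw [gb_inner, gb_inner, Finset.mul_sum]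
  refine Finset.sum_congr rfl fun i _ => ?_
  rw [gb_fle]
  by_cases h : π i = b
  · rw [h]
    ring
  · rw [hx i h]
    ring

theorem inner_fl {b : Fin n} {x : V n} (hx : InB π b x) (y : V n) :
    (inner ℝ x (fl π b y) : ℝ) = -inner ℝ x y := by
  rw [fl_fle, inner_fle hx, decide_eq_false (by simp), sg_false, neg_one_mul]

theorem inner_fl_ne {b c : Fin n} (h : b ≠ c) {x : V n} (hx : InB π b x) (y : V n) :
    (inner ℝ x (fl π c y) : ℝ) = inner ℝ x y := by
  rw [fl_fle, inner_fle hx, decide_eq_true h, sg_true, one_mul]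

theorem BU.fle (hK : BU k π K) (ε : Fin n → Bool) : ∀ y ∈ K, UK.fle π ε y ∈ K := by
  have key : ∀ (s : Finset (Fin n)) (y : V n), y ∈ K →
      UK.fle π (fun c => if c ∈ s then ε c else true) y ∈ K := by
    intro s
    induction s using Finset.induction_on with
    | empty =>
      intro y hy
      have h1 : UK.fle π (fun c => if c ∈ (∅ : Finset (Fin n)) then ε c else true) y = y := by
        ext i
        rw [gb_fle, if_neg (Finset.notMem_empty _), sg_true, one_mul]
      rw [h1]
      exact hy
    | insert b s hb ih =>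
      intro y hy
      by_cases hε : ε b = true
      · have h1 : UK.fle π (fun c => if c ∈ insert b s then ε c else true) y =
            UK.fle π (fun c => if c ∈ s then ε c else true) y := by
          ext i
          rw [gb_fle, gb_fle]
          by_cases h : π i = b
          · rw [h, if_pos (Finset.mem_insert_self _ _), if_neg hb, hε]
          · by_cases h2 : π i ∈ s
            · rw [if_pos (Finset.mem_insert_of_mem h2), if_pos h2]
            · rw [if_neg h2, if_neg]
              rw [Finset.mem_insert, not_or]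
              exact ⟨h, h2⟩
        rw [h1]
        exact ih y hy
      · have hε' : ε b = false := by
          rcases hb' : ε b with _ | _
          · rfl
          · exact absurd hb' hε
        have h1 : UK.fle π (fun c => if c ∈ insert b s then ε c else true) y =
            UK.fle π (fun c => if c ∈ s then ε c else true) (fl π b y) := by
          ext i
          rw [gb_fle, gb_fle, gb_fl]
          by_cases h : π i = b
          · rw [h, if_pos (Finset.mem_insert_self _ _), if_neg hb, hε', if_pos rfl, sg_true,
              sg_false]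
            ring
          · rw [if_neg h]
            by_cases h2 : π i ∈ s
            · rw [if_pos (Finset.mem_insert_of_mem h2), if_pos h2]
            · rw [if_neg h2, if_neg]
              rw [Finset.mem_insert, not_or]
              exact ⟨h, h2⟩
        rw [h1]
        exact ih _ (hK.flip b y hy)
  intro y hy
  have h1 := key Finset.univ y hy
  have h2 : (fun c => if c ∈ (Finset.univ : Finset (Fin n)) then ε c else true) = ε := by
    funext c
    rw [if_pos (Finset.mem_univ _)]
  rwa [h2] at h1

theorem BU.toSB (hK : BU k π K) : SB K := by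
  refine ⟨hK.compact, hK.convex, hK.nonempty, fun y hy => ?_⟩
  have h1 := hK.fle (fun _ => false) y hy
  have h2 : UK.fle π (fun _ => false) y = -y := by
    ext i
    rw [gb_fle, PiLp.neg_apply, sg_false, neg_one_mul]
  rwa [h2] at h1

/-- the sign change as a linear map -/
private noncomputable def gbL (π : Fin n → Fin n) (ε : Fin n → Bool) : V n →ₗ[ℝ] V n where
  toFun := fle π ε
  map_add' x y := by
    ext i
    rw [PiLp.add_apply, gb_fle, gb_fle, gb_fle, PiLp.add_apply]
    ring
  map_smul' c x := by
    ext i
    rw [RingHom.id_apply, PiLp.smul_apply, gb_fle, gb_fle, PiLp.smul_apply, smul_eq_mul,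
      smul_eq_mul]
    ring

private theorem sg_sq (b : Bool) : sg b * sg b = 1 := by
  cases b
  · rw [sg_false]
    norm_num
  · rw [sg_true]
    norm_num

theorem unif_fle (hK : BU k π K) (ε : Fin n → Bool) :
    (MX.unif K).map (fle π ε) = MX.unif K := by
  have h1 : (fle π ε : V n → V n) = gbL π ε := rfl
  rw [h1]
  refine unif_pres hK.compact hK.nonempty (gbL π ε) (gbL π ε) (fun x => ?_)
    (fun x hx => hK.fle ε x hx) (fun x hx => hK.fle ε x hx)
  ext i
  show fle π ε (fle π ε x) i = x i
  rw [gb_fle, gb_fle, ← mul_assoc, sg_sq, one_mul]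

theorem unif_fl (hK : BU k π K) (b : Fin n) : (MX.unif K).map (fl π b) = MX.unif K := by
  have h1 : (fl π b : V n → V n) = fle π (fun c => decide (c ≠ b)) := by
    funext y
    exact fl_fle π b y
  rw [h1]
  exact unif_fle hK _

theorem BU.si (hK : BU k π K) {w : V n → ℝ} (hw : SI K w) (ε : Fin n → Bool) (y : V n) :
    w (UK.fle π ε y) = w y :=
  hw (fun i => ε (π i)) (fun y hy => hK.fle ε y hy) y

/-- Shrinking of a block. -/
theorem BU.shrink (hK : BU k π K) (b : Fin n) {y : V n} (hy : y ∈ K) {s : ℝ} (hs : |s| ≤ 1) :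
    y - bl π b y + s • bl π b y ∈ K := by
  obtain ⟨h1, h2⟩ := abs_le.1 hs
  have h3 := hK.convex hy (hK.flip b y hy) (a := (1 + s) / 2) (b := (1 - s) / 2) (by linarith)
    (by linarith) (by ring)
  have h4 : ((1 + s) / 2) • y + ((1 - s) / 2) • fl π b y = y - bl π b y + s • bl π b y := by
    rw [fl_eq]
    module
  rwa [h4] at h3

end Pool.Agent.UK
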