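import Pool.Agent.UK.GB

/-!
# UK-GU: one-dimensional marginals of isotropic bodies
-/

set_option autoImplicit false

open MeasureTheory Set
open scoped ENNReal NNReal

namespace Pool.Agent.UK

open Pool.Agent.CB Pool.Agent.UB

private theorem gu_int {n : ℕ} {K : Set (V n)} (hK : SB K) {f : V n → ℝ} (hf : Continuous f) :
    Integrable f (MX.unif K) := by
  unfold MX.unif
  exact (hf.continuousOn.integrableOn_compact hK.compact).smul_measure
    (ENNReal.inv_ne_top.mpr hK.vol_pos.ne')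

private theorem gu_mom (l : ℕ) : ∃ C : ℝ, 0 ≤ C ∧ ∀ (n : ℕ) (K : Set (V n)), SB K → Iso K →
    ∀ θ : V n, ‖θ‖ = 1 → ∫ y, |(inner ℝ θ y : ℝ)| ^ l ∂(MX.unif K) ≤ C := by
  obtain ⟨C, hC⟩ := lc_moment l
  refine ⟨C, C.2, ?_⟩
  intro n K hK hI θ hθ
  have hP := hK.prob
  have hcont : Continuous fun y : V n => (inner ℝ θ y : ℝ) := by fun_prop
  have hmeas : Measurable fun y : V n => (inner ℝ θ y : ℝ) := hcont.measurable
  set T : V n →ₗ[ℝ] ℝ := (innerSL ℝ θ : V n →L[ℝ] ℝ).toLinearMap with hT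
  have hTf : (fun y : V n => (T y : ℝ)) = fun y : V n => (inner ℝ θ y : ℝ) := rfl
  have hTm : Measurable (T : V n → ℝ) := hmeas
  have h1 : LC ((MX.unif K).map T) :=
    LC.map (lc_unif_gen hK.compact.measurableSet hK.convex) T hTm
  have h2 : IsProbabilityMeasure ((MX.unif K).map T) :=
    Measure.isProbabilityMeasure_map hTm.aemeasurable
  have h3 : ((MX.unif K).map T).map (fun x => -x) = (MX.unif K).map T := by
    rw [Measure.map_map measurable_neg hTm]
    have h4 : (fun x : ℝ => -x) ∘ (T : V n → ℝ) = (T : V n → ℝ) ∘ fun y : V n => -y := by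
      funext y
      show -(T y) = T (-y)
      rw [map_neg]
    rw [h4, ← Measure.map_map hTm measurable_neg, hK.symP.symm]
  have h4 : ∫⁻ x, ‖x‖ₑ ^ (2 : ℝ) ∂((MX.unif K).map T) ≤ 1 := by
    rw [lintegral_map (by fun_prop) hTm]
    have h5 : ∀ y : V n, ‖T y‖ₑ ^ (2 : ℝ) = ENNReal.ofReal ((inner ℝ θ y : ℝ) ^ 2) := by
      intro y
      have h6 : T y = (inner ℝ θ y : ℝ) := rfl
      rw [h6, ← Real.enorm_abs, Real.enorm_of_nonneg (abs_nonneg _),
        ENNReal.ofReal_rpow_of_nonneg (abs_nonneg _) (by norm_num)]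
      congr 1
      rw [Real.rpow_two, sq_abs]
    simp_rw [h5]
    rw [← ofReal_integral_eq_lintegral_ofReal (gu_int hK (by fun_prop))
      (Filter.Eventually.of_forall fun y => sq_nonneg _), hI θ, hθ]
    simp
  have h5 := hC _ h2 h1 h3 h4
  rw [lintegral_map (by fun_prop) hTm] at h5
  have h6 : ∀ y : V n, ‖T y‖ₑ ^ l = ENNReal.ofReal (|(inner ℝ θ y : ℝ)| ^ l) := by
    intro y
    have h6 : T y = (inner ℝ θ y : ℝ) := rfl
    rw [h6, ← Real.enorm_abs, Real.enorm_of_nonneg (abs_nonneg _),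
      ENNReal.ofReal_pow (abs_nonneg _)]
  simp_rw [h6] at h5
  rw [integral_eq_lintegral_of_nonneg_ae
    (Filter.Eventually.of_forall fun y => pow_nonneg (abs_nonneg _) _)
    (by fun_prop)]
  exact ENNReal.toReal_mono ENNReal.coe_ne_top h5

theorem momK (l : ℕ) : ∃ C : ℝ, 0 ≤ C ∧ ∀ (n : ℕ) (K : Set (V n)), SB K → Iso K →
    ∀ ξ : V n, ∫ y, |(inner ℝ ξ y : ℝ)| ^ l ∂(MX.unif K) ≤ C * ‖ξ‖ ^ l := by
  obtain ⟨C, hC0, hC⟩ := gu_mom l
  refine ⟨C + 1, by linarith, ?_⟩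
  intro n K hK hI ξ
  have hP := hK.prob
  rcases eq_or_ne ξ 0 with h0 | h0
  · subst h0
    rcases Nat.eq_zero_or_pos l with hl | hl
    · subst hl
      simp only [pow_zero, mul_one]
      rw [integral_const, probReal_univ, one_smul]
      linarith
    · have h1 : ∀ y : V n, |(inner ℝ (0 : V n) y : ℝ)| ^ l = 0 := by
        intro y
        rw [inner_zero_left, abs_zero, zero_pow hl.ne']
      simp_rw [h1]
      rw [integral_zero, norm_zero, zero_pow hl.ne', mul_zero]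
  · have hn : 0 < ‖ξ‖ := norm_pos_iff.2 h0
    have h1 : ‖(‖ξ‖⁻¹ • ξ : V n)‖ = 1 := by
      rw [norm_smul, norm_inv, norm_norm, inv_mul_cancel₀ hn.ne']
    have h2 := hC n K hK hI _ h1
    have h3 : ∀ y : V n, |(inner ℝ ξ y : ℝ)| ^ l =
        ‖ξ‖ ^ l * |(inner ℝ (‖ξ‖⁻¹ • ξ : V n) y : ℝ)| ^ l := by
      intro y
      rw [real_inner_smul_left, abs_mul, abs_inv, abs_norm, ← mul_pow, ← mul_assoc,
        mul_inv_cancel₀ hn.ne', one_mul]
    simp_rw [h3]
    rw [integral_const_mul, mul_comm]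
    refine mul_le_mul_of_nonneg_right (h2.trans (by linarith)) (by positivity)

theorem pz : ∃ η : ℝ, 0 < η ∧ ∀ (n : ℕ) (K : Set (V n)), SB K → Iso K →
    ∀ θ : V n, ‖θ‖ = 1 → η ≤ (MX.unif K).real {y | 1 / 2 ≤ (inner ℝ θ y : ℝ)} := by
  obtain ⟨C, hC0, hC⟩ := gu_mom 4
  refine ⟨1 / (4 * (C + 1)), by positivity, ?_⟩
  intro n K hK hI θ hθ
  have hP := hK.prob
  have hcont : Continuous fun y : V n => (inner ℝ θ y : ℝ) := by fun_prop
  have hmeas : Measurable fun y : V n => (inner ℝ θ y : ℝ) := hcont.measurable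
  have h4 := hC n K hK hI θ hθ
  have h2 := hI θ
  rw [hθ, one_pow] at h2
  set A : Set (V n) := {y | 1 / 2 ≤ |(inner ℝ θ y : ℝ)|} with hA
  have hAm : MeasurableSet A := measurableSet_le measurable_const (measurable_abs.comp hmeas)
  set lam : ℝ := 1 / (4 * (C + 1)) with hlam
  have hlam0 : 0 < lam := by positivity
  have hpt : ∀ y : V n, (inner ℝ θ y : ℝ) ^ 2 ≤
      1 / 4 + (lam * |(inner ℝ θ y : ℝ)| ^ 4 + A.indicator (fun _ => (C + 1)) y) := by
    intro y
    set u : ℝ := |(inner ℝ θ y : ℝ)| with hu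
    have hu0 : 0 ≤ u := abs_nonneg _
    have h5 : (inner ℝ θ y : ℝ) ^ 2 = u ^ 2 := by rw [hu, sq_abs]
    rw [h5]
    by_cases hy : y ∈ A
    · rw [indicator_of_mem hy]
      have h6 : u ^ 2 ≤ lam * u ^ 4 + (C + 1) := by
        have h7 : lam * (4 * (C + 1)) = 1 := by
          rw [hlam]
          field_simp
        have h8 : 0 ≤ lam * (u ^ 2 - 2 * (C + 1)) ^ 2 :=
          mul_nonneg hlam0.le (sq_nonneg _)
        have h9 : lam * (u ^ 2 - 2 * (C + 1)) ^ 2 =
            lam * u ^ 4 - lam * (4 * (C + 1)) * u ^ 2 + lam * (4 * (C + 1)) * (C + 1) := by ring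
        rw [h9, h7] at h8
        linarith
      linarith
    · rw [indicator_of_notMem hy]
      have h6 : u < 1 / 2 := not_le.1 hy
      have h7 : 0 ≤ lam * u ^ 4 := by positivity
      nlinarith
  have hi1 : Integrable (fun y : V n => lam * |(inner ℝ θ y : ℝ)| ^ 4) (MX.unif K) :=
    gu_int hK (by fun_prop)
  have hi2 : Integrable (A.indicator (fun _ => (C + 1))) (MX.unif K) :=
    (integrable_const _).indicator hAm
  have h5 : (1 : ℝ) ≤ 1 / 4 + (lam * C + (MX.unif K).real A * (C + 1)) := by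
    have h6 : ∫ y, (inner ℝ θ y : ℝ) ^ 2 ∂(MX.unif K) ≤
        ∫ y, (1 / 4 + (lam * |(inner ℝ θ y : ℝ)| ^ 4 + A.indicator (fun _ => (C + 1)) y))
          ∂(MX.unif K) :=
      integral_mono (gu_int hK (by fun_prop)) ((integrable_const _).add (hi1.add hi2)) hpt
    rw [h2] at h6
    refine h6.trans ?_
    have e1 : ∫ y, (1 / 4 + (lam * |(inner ℝ θ y : ℝ)| ^ 4 + A.indicator (fun _ => (C + 1)) y))
        ∂(MX.unif K) = ∫ _, (1 / 4 : ℝ) ∂(MX.unif K) +
          ∫ y, (lam * |(inner ℝ θ y : ℝ)| ^ 4 + A.indicator (fun _ => (C + 1)) y) ∂(MX.unif K) :=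
      integral_add (integrable_const _) (hi1.add hi2)
    have e2 : ∫ y, (lam * |(inner ℝ θ y : ℝ)| ^ 4 + A.indicator (fun _ => (C + 1)) y)
        ∂(MX.unif K) = ∫ y, lam * |(inner ℝ θ y : ℝ)| ^ 4 ∂(MX.unif K) +
          ∫ y, A.indicator (fun _ => (C + 1)) y ∂(MX.unif K) := integral_add hi1 hi2
    rw [e1, e2, integral_const, integral_const_mul, integral_indicator_const _ hAm,
      probReal_univ, smul_eq_mul, smul_eq_mul]
    have h7 := mul_le_mul_of_nonneg_left h4 hlam0.le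
    linarith
  have h6 : lam * C ≤ 1 / 4 := by
    rw [hlam, div_mul_eq_mul_div, div_le_iff₀ (by positivity)]
    linarith
  have h7 : 1 / (2 * (C + 1)) ≤ (MX.unif K).real A := by
    rw [div_le_iff₀ (by positivity)]
    linarith
  -- symmetry
  have h8 : A ⊆ {y | 1 / 2 ≤ (inner ℝ θ y : ℝ)} ∪ {y | 1 / 2 ≤ (inner ℝ θ (-y) : ℝ)} := by
    intro y hy
    have h9 : (1 : ℝ) / 2 ≤ |(inner ℝ θ y : ℝ)| := hy
    rcases abs_cases (inner ℝ θ y : ℝ) with ⟨h10, _⟩ | ⟨h10, _⟩
    · left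
      show (1 : ℝ) / 2 ≤ inner ℝ θ y
      rwa [h10] at h9
    · right
      show (1 : ℝ) / 2 ≤ inner ℝ θ (-y)
      rw [inner_neg_right]
      rwa [h10] at h9
  have hBm : MeasurableSet {y : V n | 1 / 2 ≤ (inner ℝ θ y : ℝ)} :=
    measurableSet_le measurable_const hmeas
  have h9 : (MX.unif K).real {y : V n | 1 / 2 ≤ (inner ℝ θ (-y) : ℝ)} =
      (MX.unif K).real {y : V n | 1 / 2 ≤ (inner ℝ θ y : ℝ)} := by
    have h10 := hK.symP.symm
    conv_rhs => rw [← h10]
    rw [Measure.real, Measure.real, Measure.map_apply measurable_neg hBm]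
    rfl
  have h10 : (MX.unif K).real A ≤ (MX.unif K).real {y | 1 / 2 ≤ (inner ℝ θ y : ℝ)} +
      (MX.unif K).real {y | 1 / 2 ≤ (inner ℝ θ (-y) : ℝ)} :=
    (measureReal_mono h8).trans (measureReal_union_le _ _)
  rw [h9] at h10
  have h11 : 1 / (2 * (C + 1)) = 2 * lam := by
    rw [hlam]
    field_simp
    norm_num
  rw [h11] at h7
  linarith

theorem tailK (m : ℕ) : ∃ C : ℝ, 0 ≤ C ∧ ∀ (n : ℕ) (K : Set (V n)), SB K → Iso K →
    ∀ (θ : V n) (R : ℝ), ‖θ‖ = 1 → 0 < R →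
      (MX.unif K).real {y | R < |(inner ℝ θ y : ℝ)|} ≤ C / R ^ m := by
  obtain ⟨C, hC0, hC⟩ := gu_mom m
  refine ⟨C, hC0, ?_⟩
  intro n K hK hI θ R hθ hR
  have hP := hK.prob
  have h1 := mul_meas_ge_le_integral_of_nonneg (μ := MX.unif K)
    (f := fun y : V n => |(inner ℝ θ y : ℝ)| ^ m)
    (Filter.Eventually.of_forall fun y => pow_nonneg (abs_nonneg _) _)
    (gu_int hK (by fun_prop)) (R ^ m)
  have h2 : (MX.unif K).real {y | R < |(inner ℝ θ y : ℝ)|} ≤
      (MX.unif K).real {y | R ^ m ≤ |(inner ℝ θ y : ℝ)| ^ m} := by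
    refine measureReal_mono fun y hy => ?_
    exact pow_le_pow_left₀ hR.le (le_of_lt hy) m
  rw [le_div_iff₀ (by positivity)]
  have h3 := mul_le_mul_of_nonneg_left h2 (pow_pos hR m).le
  have h4 := hC n K hK hI θ hθ
  linarith

theorem chebB {n k : ℕ} {π : Fin n → Fin n} {K : Set (V n)} (hK : BU k π K) (hI : Iso K)
    (b : Fin n) {R : ℝ} (hR : 0 < R) :
    (MX.unif K).real {y | R < ‖bl π b y‖} ≤ k / R ^ 2 := by
  have hS := hK.toSB
  have hP := hS.prob
  have hcb : Continuous fun y : V n => ‖bl π b y‖ ^ 2 := ((continuous_bl π b).norm).pow 2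
  have h1 := mul_meas_ge_le_integral_of_nonneg (μ := MX.unif K)
    (f := fun y : V n => ‖bl π b y‖ ^ 2)
    (Filter.Eventually.of_forall fun y => sq_nonneg _)
    (gu_int hS hcb) (R ^ 2)
  have h2 : (MX.unif K).real {y | R < ‖bl π b y‖} ≤
      (MX.unif K).real {y | R ^ 2 ≤ ‖bl π b y‖ ^ 2} := by
    refine measureReal_mono fun y hy => ?_
    exact pow_le_pow_left₀ hR.le (le_of_lt hy) 2
  have h3 : ∫ y, ‖bl π b y‖ ^ 2 ∂(MX.unif K) ≤ k := by
    have h4 : ∀ y : V n, ‖bl π b y‖ ^ 2 =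
        ∑ i ∈ Finset.univ.filter (fun i => π i = b), (inner ℝ (bv i : V n) y : ℝ) ^ 2 := by
      intro y
      rw [EuclideanSpace.real_norm_sq_eq, Finset.sum_filter]
      refine Finset.sum_congr rfl fun i _ => ?_
      have h5 : (bl π b y) i = if π i = b then y i else 0 := rfl
      have h6 : (inner ℝ (bv i : V n) y : ℝ) = y i := by
        unfold bv
        rw [EuclideanSpace.inner_single_left]
        simp
      rw [h5, h6]
      split_ifs <;> simp
    simp_rw [h4]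
    rw [integral_finsetSum _ fun i _ => gu_int hS (by fun_prop)]
    have h5 : ∀ i : Fin n, ∫ y, (inner ℝ (bv i : V n) y : ℝ) ^ 2 ∂(MX.unif K) = 1 := by
      intro i
      rw [hI]
      unfold bv
      rw [PiLp.norm_single]
      simp
    simp_rw [h5]
    rw [Finset.sum_const, nsmul_eq_mul, mul_one]
    exact_mod_cast hK.dim b
  rw [le_div_iff₀ (by positivity)]
  have h4 := mul_le_mul_of_nonneg_left h2 (pow_pos hR 2).le
  linarith

end Pool.Agent.UK
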