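import Mathlib

/-!
# UK-GZ: covering the set where the cosine is close to one

Adapted from `UB/G3a.lean`: the points are the multiples of `π / t` near the interval `[-R, R]`.
-/

set_option autoImplicit false

namespace Pool.Agent.UK

private theorem near_pt {y d s : ℝ} (hy : 0 < y) (hd : 0 < d)
    (h : 1 - |Real.cos (y * s)| < d * min 1 (y ^ 2)) :
    |s - round (y * s / Real.pi) * (Real.pi / y)| ≤ 3 * Real.sqrt d * min 1 y / y := by
  have hpi := Real.pi_pos
  set k : ℤ := round (y * s / Real.pi) with hk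
  set v : ℝ := y * s - k * Real.pi with hv
  have hround : |y * s / Real.pi - k| ≤ 1 / 2 := abs_sub_round _
  have hveq : v = (y * s / Real.pi - k) * Real.pi := by
    rw [hv]; field_simp
  have hvabs : |v| ≤ Real.pi / 2 := by
    rw [hveq, abs_mul, abs_of_pos hpi]
    nlinarith
  have hcos : |Real.cos (y * s)| = Real.cos v := by
    have h1 : Real.cos v = (-1) ^ k * Real.cos (y * s) := by
      rw [hv]; exact Real.cos_sub_int_mul_pi _ _
    have h2 : 0 ≤ Real.cos v :=
      Real.cos_nonneg_of_mem_Icc ⟨by linarith [(abs_le.mp hvabs).1], (abs_le.mp hvabs).2⟩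
    rw [← abs_of_nonneg h2, h1, abs_mul, abs_zpow, abs_neg, abs_one, one_zpow, one_mul]
  have hq : Real.cos v ≤ 1 - 2 / Real.pi ^ 2 * v ^ 2 :=
    Real.cos_le_one_sub_mul_cos_sq (by linarith)
  have hmin : min 1 (y ^ 2) = (min 1 y) ^ 2 := by
    rcases le_total 1 y with h1 | h1
    · rw [min_eq_left h1, min_eq_left (by nlinarith)]; norm_num
    · rw [min_eq_right h1, min_eq_right (by nlinarith)]
  have hm0 : 0 < min 1 y := lt_min one_pos hy
  have h3 : 2 / Real.pi ^ 2 * v ^ 2 < d * (min 1 y) ^ 2 := by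
    rw [hcos, hmin] at h; linarith
  have hpi4 : Real.pi ^ 2 < 16 := by nlinarith [Real.pi_lt_four, Real.pi_pos]
  have h4 : v ^ 2 ≤ (3 * Real.sqrt d * min 1 y) ^ 2 := by
    have h5 : 2 * v ^ 2 < Real.pi ^ 2 * (d * (min 1 y) ^ 2) := by
      have h6 : 2 / Real.pi ^ 2 * v ^ 2 = 2 * v ^ 2 / Real.pi ^ 2 := by ring
      rw [h6, div_lt_iff₀ (by positivity)] at h3
      linarith
    have h7 : (3 * Real.sqrt d * min 1 y) ^ 2 = 9 * (d * (min 1 y) ^ 2) := by
      rw [mul_pow, mul_pow, Real.sq_sqrt hd.le]; ring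
    rw [h7]
    have h8 : 0 < d * (min 1 y) ^ 2 := by positivity
    nlinarith
  have h9 : |v| ≤ 3 * Real.sqrt d * min 1 y := abs_le_of_sq_le_sq h4 (by positivity)
  have h10 : s - k * (Real.pi / y) = v / y := by
    rw [hv]; field_simp
  rw [h10, abs_div, abs_of_pos hy]
  exact div_le_div_of_nonneg_right h9 hy.le

theorem zcov : ∃ C : ℝ, 1 ≤ C ∧ ∀ t d R : ℝ, 0 < t → 0 < d → d ≤ 1 → 1 ≤ R →
    ∃ (N : ℕ) (ρ : ℝ) (v : Fin N → ℝ), 0 < ρ ∧ N * ρ ≤ C * Real.sqrt d * R ∧
      ∀ s : ℝ, |s| ≤ R → 1 - |Real.cos (t * s)| < d * min 1 (t ^ 2) → ∃ j, |s - v j| ≤ ρ := by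
  refine ⟨9, by norm_num, fun t d R ht hd _ hR => ?_⟩
  have hpi := Real.pi_pos
  set r : ℝ := 3 * Real.sqrt d * min 1 t / t with hr
  have hm0 : 0 < min 1 t := lt_min one_pos ht
  have hs0 : 0 < Real.sqrt d := Real.sqrt_pos.2 hd
  have hr0 : 0 < r := by positivity
  set K : ℕ := ⌊t * R / Real.pi + 1 / 2⌋₊ with hK
  have hKle : (K : ℝ) ≤ t * R / Real.pi + 1 / 2 := Nat.floor_le (by positivity)
  refine ⟨2 * K + 1, r, fun j => (((j : ℕ) : ℝ) - K) * (Real.pi / t), hr0, ?_, ?_⟩
  · have h3 : t * R / Real.pi ≤ t * R / 2 := by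
      apply div_le_div_of_nonneg_left (by positivity) (by norm_num)
      linarith [Real.pi_gt_three]
    have h4 : (2 * (K : ℝ) + 1) ≤ t * R + 2 := by linarith
    have h5 : t * r = 3 * Real.sqrt d * min 1 t := by
      rw [hr]; field_simp
    have h6 : r ≤ 3 * Real.sqrt d := by
      rw [hr, div_le_iff₀ ht]
      exact mul_le_mul_of_nonneg_left (min_le_right _ _) (by positivity)
    have h7 : t * r ≤ 3 * Real.sqrt d := by
      rw [h5]
      have := mul_le_mul_of_nonneg_left (min_le_left (1 : ℝ) t)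
        (by positivity : 0 ≤ 3 * Real.sqrt d)
      linarith
    push_cast
    calc (2 * (K : ℝ) + 1) * r ≤ (t * R + 2) * r := mul_le_mul_of_nonneg_right h4 hr0.le
      _ = R * (t * r) + 2 * r := by ring
      _ ≤ R * (3 * Real.sqrt d) + 2 * (3 * Real.sqrt d) := by gcongr
      _ ≤ 9 * Real.sqrt d * R := by nlinarith
  · intro s hs1 hs2
    have h1 := near_pt ht hd hs2
    rw [← hr] at h1
    have h6 : |round (t * s / Real.pi)| ≤ (K : ℤ) := by
      have h2 : |t * s / Real.pi - round (t * s / Real.pi)| ≤ 1 / 2 := abs_sub_round _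
      have h3 : |t * s / Real.pi| ≤ t * R / Real.pi := by
        rw [abs_div, abs_mul, abs_of_pos ht, abs_of_pos hpi]
        gcongr
      have h4 : |((round (t * s / Real.pi) : ℤ) : ℝ)| ≤ t * R / Real.pi + 1 / 2 := by
        have h5 := abs_sub_abs_le_abs_sub ((round (t * s / Real.pi) : ℤ) : ℝ) (t * s / Real.pi)
        rw [abs_sub_comm] at h5
        linarith
      have h5 : (|round (t * s / Real.pi)|).toNat ≤ K := by
        rw [hK]
        apply Nat.le_floor
        have h7 : (((|round (t * s / Real.pi)|).toNat : ℤ) : ℝ) =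
            |((round (t * s / Real.pi) : ℤ) : ℝ)| := by
          rw [Int.toNat_of_nonneg (abs_nonneg _)]
          push_cast
          rfl
        rw [Int.cast_natCast] at h7
        rw [h7]
        exact h4
      omega
    have h7 := abs_le.mp h6
    refine ⟨⟨(round (t * s / Real.pi) + K).toNat, by omega⟩, ?_⟩
    have h8 : (((round (t * s / Real.pi) + K).toNat : ℕ) : ℝ) - K =
        ((round (t * s / Real.pi) : ℤ) : ℝ) := by
      have h9 : (((round (t * s / Real.pi) + K).toNat : ℤ) : ℝ) =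
          ((round (t * s / Real.pi) + K : ℤ) : ℝ) := by
        rw [Int.toNat_of_nonneg (by omega)]
      rw [Int.cast_natCast] at h9
      rw [h9]
      push_cast
      ring
    change |s - ((((round (t * s / Real.pi) + K).toNat : ℕ) : ℝ) - K) * (Real.pi / t)| ≤ r
    rw [h8]
    exact h1

end Pool.Agent.UK
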