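import Pool.Agent.UK.GZb
import Pool.Agent.UK.GZ
import Pool.Agent.UK.GU

/-!
# UK-GBad: the probability of simultaneous bad events

`Bad π ξ d b`: the `b`-th factor `|cos <ξ_b, Y>|` is too close to `1`, or `|U_b|` is large, `U_b = <θ_b, Y>`, `θ_b = ξ_b/‖ξ_b‖`, `ξ_b = bl π b ξ`; empty if `ξ_b = 0`.

PLAN.  If some `ξ_(c j) = 0`, the event is empty.  Otherwise with `R = d^(-1/4)` and `T` = image of `c` (`m` labels):
`P(all bad) ≤ ∑_j P(|U_(c j)| > R) + P(U_b ∈ Z_b, b ∈ T)`, `Z_b = {s | |s| ≤ R, 1 - |cos (t_b s)| < d min (1, t_b²)}`, `t_b = ‖ξ_b‖`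
(`<ξ_b, y> = t_b U_b`).  `tailK m`: `≤ m C / R^m = m C d^(m/4)`; `zcov` and `boxZ m`: `≤ C (C' √d R)^m = C C'^m d^(m/4)` (`√d R = d^(1/4)`).
-/

set_option autoImplicit false

open MeasureTheory Set
open scoped ENNReal NNReal

namespace Pool.Agent.UK

open Pool.Agent.CB Pool.Agent.UB

/-- The bad event of the block `b`. -/
def Bad {n : ℕ} (π : Fin n → Fin n) (ξ : V n) (d : ℝ) (b : Fin n) : Set (V n) :=
  {y | bl π b ξ ≠ 0 ∧ (1 - |Real.cos (inner ℝ (bl π b ξ) y)| < d * min 1 (‖bl π b ξ‖ ^ 2) ∨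
    d ^ (-(1 / 4) : ℝ) * ‖bl π b ξ‖ < |(inner ℝ (bl π b ξ) y : ℝ)|)}

theorem measurable_bad {n : ℕ} (π : Fin n → Fin n) (ξ : V n) (d : ℝ) (b : Fin n) :
    MeasurableSet (Bad π ξ d b) := by
  have hm : Measurable fun y : V n => (inner ℝ (bl π b ξ) y : ℝ) :=
    (continuous_const.inner continuous_id).measurable
  refine MeasurableSet.inter (MeasurableSet.const _) (MeasurableSet.union ?_ ?_)
  · exact measurableSet_lt (measurable_const.sub (Real.measurable_cos.comp hm).norm)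
      measurable_const
  · exact measurableSet_lt measurable_const hm.norm

private theorem gbad_pow {d : ℝ} (hd : 0 < d) (m : ℕ) :
    (d ^ (1 / 4 : ℝ)) ^ m = d ^ ((m : ℝ) / 4) := by
  rw [← Real.rpow_natCast, ← Real.rpow_mul hd.le]
  congr 1
  ring

private theorem gbad_inv {d : ℝ} (hd : 0 < d) (C : ℝ) (m : ℕ) :
    C / (d ^ (-(1 / 4) : ℝ)) ^ m = C * d ^ ((m : ℝ) / 4) := by
  rw [Real.rpow_neg hd.le, inv_pow, div_inv_eq_mul, gbad_pow hd]

private theorem gbad_mul {d : ℝ} (hd : 0 < d) (C : ℝ) (m : ℕ) :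
    (C * Real.sqrt d * d ^ (-(1 / 4) : ℝ)) ^ m = C ^ m * d ^ ((m : ℝ) / 4) := by
  have h1 : Real.sqrt d * d ^ (-(1 / 4) : ℝ) = d ^ (1 / 4 : ℝ) := by
    rw [Real.sqrt_eq_rpow, ← Real.rpow_add hd]
    norm_num
  rw [mul_assoc, h1, mul_pow, gbad_pow hd]

theorem bad_prob (m : ℕ) : ∃ C : ℝ, 0 ≤ C ∧ ∀ (k n : ℕ) (π : Fin n → Fin n) (K : Set (V n)),
    BU k π K → Iso K → ∀ (ξ : V n) (d : ℝ), 0 < d → d ≤ 1 → ∀ c : Fin m → Fin n,
    Function.Injective c →
    (MX.unif K).real {y | ∀ j, y ∈ Bad π ξ d (c j)} ≤ C * d ^ ((m : ℝ) / 4) := by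
  obtain ⟨C1, hC1, h1⟩ := tailK m
  obtain ⟨C2, hC2, h2⟩ := boxZ m
  obtain ⟨C3, hC3, h3⟩ := zcov
  have hC20 : 0 ≤ C2 := by linarith
  have hC30 : 0 ≤ C3 := by linarith
  refine ⟨m * C1 + C2 * C3 ^ m, by positivity, ?_⟩
  intro k n π K hK hI ξ d hd hd1 c hc
  have hS : SB K := hK.toSB
  have hprob : IsProbabilityMeasure (MX.unif K) := hS.prob
  have hdm : 0 ≤ d ^ ((m : ℝ) / 4) := Real.rpow_nonneg hd.le _
  by_cases h0 : ∃ j, bl π (c j) ξ = 0
  · obtain ⟨j, hj⟩ := h0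
    have he : {y : V n | ∀ j, y ∈ Bad π ξ d (c j)} = ∅ := by
      apply Set.eq_empty_of_forall_notMem
      intro y hy
      exact (hy j).1 hj
    rw [he, measureReal_empty]
    positivity
  · push Not at h0
    obtain ⟨R, hR⟩ : ∃ R : ℝ, R = d ^ (-(1 / 4) : ℝ) := ⟨_, rfl⟩
    have hR1 : 1 ≤ R := by
      rw [hR]
      exact Real.one_le_rpow_of_pos_of_le_one_of_nonpos hd hd1 (by norm_num)
    have hR0 : 0 < R := by linarith
    -- unit vectors
    obtain ⟨θ, hθ⟩ : ∃ θ : Fin n → V n, θ = fun b => (‖bl π b ξ‖)⁻¹ • bl π b ξ := ⟨_, rfl⟩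
    have ht : ∀ j, 0 < ‖bl π (c j) ξ‖ := fun j => norm_pos_iff.2 (h0 j)
    have hθn : ∀ j, ‖θ (c j)‖ = 1 := by
      intro j
      rw [hθ]
      simp only
      rw [norm_smul, norm_inv, norm_norm, inv_mul_cancel₀ (ht j).ne']
    have hθi : ∀ b, InB π b (θ b) := by
      intro b i hi
      rw [hθ]
      have h := inb_bl π b ξ i hi
      show (‖bl π b ξ‖)⁻¹ * (bl π b ξ) i = 0
      rw [h, mul_zero]
    have hin : ∀ j (y : V n), (inner ℝ (bl π (c j) ξ) y : ℝ) =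
        ‖bl π (c j) ξ‖ * inner ℝ (θ (c j)) y := by
      intro j y
      rw [hθ]
      simp only
      rw [real_inner_smul_left, ← mul_assoc, mul_inv_cancel₀ (ht j).ne', one_mul]
    -- covers
    obtain ⟨t, htt⟩ : ∃ t : Fin n → ℝ, t = fun b => if ‖bl π b ξ‖ = 0 then 1 else ‖bl π b ξ‖ :=
      ⟨_, rfl⟩
    have ht0 : ∀ b, 0 < t b := by
      intro b
      rw [htt]
      simp only
      split_ifs with h
      · exact one_pos
      · exact lt_of_le_of_ne (norm_nonneg _) (Ne.symm h)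
    have htc : ∀ j, t (c j) = ‖bl π (c j) ξ‖ := by
      intro j
      rw [htt]
      simp only
      rw [if_neg (ht j).ne']
    have hz : ∀ b, ∃ (N : ℕ) (ρ : ℝ) (v : Fin N → ℝ), 0 < ρ ∧ N * ρ ≤ C3 * Real.sqrt d * R ∧
        ∀ s : ℝ, |s| ≤ R → 1 - |Real.cos (t b * s)| < d * min 1 (t b ^ 2) →
          ∃ j, |s - v j| ≤ ρ := fun b => h3 (t b) d R (ht0 b) hd hd1 hR1
    choose N ρ v hρ hN hv using hz
    have hcard : (Finset.univ.image c).card = m := by
      rw [Finset.card_image_of_injective _ hc, Finset.card_univ, Fintype.card_fin]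
    -- the two parts
    have hsub : {y : V n | ∀ j, y ∈ Bad π ξ d (c j)} ⊆
        (⋃ j, {y : V n | R < |(inner ℝ (θ (c j)) y : ℝ)|}) ∪
        {y : V n | ∀ b ∈ Finset.univ.image c, (inner ℝ (θ b) y : ℝ) ∈
          {s : ℝ | |s| ≤ R ∧ 1 - |Real.cos (t b * s)| < d * min 1 (t b ^ 2)}} := by
      intro y hy
      by_cases hj : ∃ j, R < |(inner ℝ (θ (c j)) y : ℝ)|
      · left
        obtain ⟨j, hj⟩ := hj
        exact Set.mem_iUnion.2 ⟨j, hj⟩
      · right
        push Not at hj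
        intro b hb
        obtain ⟨j, -, rfl⟩ := Finset.mem_image.1 hb
        refine ⟨hj j, ?_⟩
        rcases (hy j).2 with hy2 | hy2
        · rw [htc j]
          rw [hin j y] at hy2
          exact hy2
        · exfalso
          rw [hin j y, abs_mul, abs_of_pos (ht j), ← hR, mul_comm R] at hy2
          have h5 := lt_of_mul_lt_mul_left hy2 (ht j).le
          linarith [hj j]
    have hA : (MX.unif K).real (⋃ j, {y : V n | R < |(inner ℝ (θ (c j)) y : ℝ)|}) ≤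
        m * C1 * d ^ ((m : ℝ) / 4) := by
      calc (MX.unif K).real (⋃ j, {y : V n | R < |(inner ℝ (θ (c j)) y : ℝ)|})
          ≤ ∑ j : Fin m, (MX.unif K).real {y : V n | R < |(inner ℝ (θ (c j)) y : ℝ)|} :=
            measureReal_iUnion_fintype_le _
        _ ≤ ∑ _j : Fin m, C1 / R ^ m :=
            Finset.sum_le_sum fun j _ => h1 n K hS hI (θ (c j)) R (hθn j) hR0
        _ = m * C1 * d ^ ((m : ℝ) / 4) := by
            rw [Finset.sum_const, Finset.card_univ, Fintype.card_fin, nsmul_eq_mul, hR,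
              gbad_inv hd, mul_assoc]
    have hB := h2 k n π K hK hI θ (Finset.univ.image c) ρ N v
      (fun b => {s : ℝ | |s| ≤ R ∧ 1 - |Real.cos (t b * s)| < d * min 1 (t b ^ 2)})
      hcard.le (by
        intro b hb
        obtain ⟨j, -, rfl⟩ := Finset.mem_image.1 hb
        exact ⟨hθn j, hθi (c j)⟩) (fun b _ => hρ b)
      (fun b _ z hz => hv b z hz.1 hz.2)
    have hP : ∏ b ∈ Finset.univ.image c, ((N b : ℝ) * ρ b) ≤ C3 ^ m * d ^ ((m : ℝ) / 4) := by
      calc ∏ b ∈ Finset.univ.image c, ((N b : ℝ) * ρ b)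
          ≤ ∏ _b ∈ Finset.univ.image c, (C3 * Real.sqrt d * R) := by
            refine Finset.prod_le_prod (fun b _ => ?_) (fun b _ => hN b)
            have := hρ b
            positivity
        _ = C3 ^ m * d ^ ((m : ℝ) / 4) := by
            rw [Finset.prod_const, hcard, hR, gbad_mul hd]
    calc (MX.unif K).real {y : V n | ∀ j, y ∈ Bad π ξ d (c j)}
        ≤ (MX.unif K).real ((⋃ j, {y : V n | R < |(inner ℝ (θ (c j)) y : ℝ)|}) ∪
          {y : V n | ∀ b ∈ Finset.univ.image c, (inner ℝ (θ b) y : ℝ) ∈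
            {s : ℝ | |s| ≤ R ∧ 1 - |Real.cos (t b * s)| < d * min 1 (t b ^ 2)}}) :=
          measureReal_mono hsub
      _ ≤ m * C1 * d ^ ((m : ℝ) / 4) + C2 * (C3 ^ m * d ^ ((m : ℝ) / 4)) :=
          (measureReal_union_le _ _).trans
            (add_le_add hA (hB.trans (mul_le_mul_of_nonneg_left hP hC20)))
      _ = (m * C1 + C2 * C3 ^ m) * d ^ ((m : ℝ) / 4) := by ring

end Pool.Agent.UK
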