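import Pool.Agent.UK.GL1
import Pool.Agent.UK.GB

/-!
# UK-GSm: small balls in a convex symmetric set

PLAN.  `P = unif K`, `U = <θ, y>`, `S s = P(D ∩ {s < |U|}) / P(D)` (`P(D) > 0`: otherwise the left side is `0`).  `S 0 = 1`: hyperplanes are null
(`Measure.addHaar_submodule`, see `UB.Sx_zero`; `‖θ‖ = 1`).  `P(D ∩ {s < |U|}) = 2 P(D ∩ {s < U})` for `s ≥ 0` (`D` symmetric, `hK.symP`), and `LC (unif K)` for
`D ∩ {s < U}`, `D ∩ {t < U}`, `D ∩ {(s+t)/2 < U}` gives `hm` of `lcs`.  `{1/2 ≤ U} ⊆ {1/4 < |U|}`, so `S (1/4) ≥ η`: `lcs` with `c = 1/4`;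
`P(D ∩ {|U| ≤ s}) = P(D) (1 - S s)`.
-/

set_option autoImplicit false

open MeasureTheory Set
open scoped ENNReal NNReal

namespace Pool.Agent.UK

open Pool.Agent.CB Pool.Agent.UB

private theorem gsm_cont {n : ℕ} (θ : V n) : Continuous fun y : V n => (inner ℝ θ y : ℝ) :=
  continuous_const.inner continuous_id

private theorem gsm_two {n : ℕ} {K D : Set (V n)} (hK : SB K) (hD : MeasurableSet D)
    (hs : ∀ y ∈ D, -y ∈ D) (θ : V n) {s : ℝ} (h0 : 0 ≤ s) :
    MX.unif K (D ∩ {y | s < |(inner ℝ θ y : ℝ)|}) =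
      2 * MX.unif K (D ∩ {y | s < (inner ℝ θ y : ℝ)}) := by
  have h1 : D ∩ {y : V n | s < |(inner ℝ θ y : ℝ)|} =
      (D ∩ {y : V n | s < (inner ℝ θ y : ℝ)}) ∪ (D ∩ {y : V n | s < -(inner ℝ θ y : ℝ)}) := by
    ext y
    simp only [mem_setOf_eq, mem_union, mem_inter_iff]
    rw [lt_abs]
    tauto
  have hm1 : MeasurableSet (D ∩ {y : V n | s < (inner ℝ θ y : ℝ)}) :=
    hD.inter (measurableSet_lt measurable_const (gsm_cont θ).measurable)
  have hm2 : MeasurableSet (D ∩ {y : V n | s < -(inner ℝ θ y : ℝ)}) :=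
    hD.inter (measurableSet_lt measurable_const (gsm_cont θ).measurable.neg)
  have hd : Disjoint (D ∩ {y : V n | s < (inner ℝ θ y : ℝ)})
      (D ∩ {y : V n | s < -(inner ℝ θ y : ℝ)}) := by
    rw [Set.disjoint_left]
    intro y h2 h3
    have h2' : s < (inner ℝ θ y : ℝ) := h2.2
    have h3' : s < -(inner ℝ θ y : ℝ) := h3.2
    linarith
  rw [h1, measure_union hd hm2]
  have h4 : MX.unif K (D ∩ {y : V n | s < -(inner ℝ θ y : ℝ)}) =
      MX.unif K (D ∩ {y : V n | s < (inner ℝ θ y : ℝ)}) := by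
    have h5 := hK.symP.symm
    conv_rhs => rw [← h5]
    rw [Measure.map_apply measurable_neg hm1]
    congr 1
    ext y
    simp only [mem_setOf_eq, mem_inter_iff, mem_preimage, inner_neg_right]
    constructor
    · rintro ⟨h6, h7⟩
      exact ⟨hs y h6, h7⟩
    · rintro ⟨h6, h7⟩
      refine ⟨?_, h7⟩
      have h8 := hs _ h6
      rwa [neg_neg] at h8
  rw [h4, two_mul]

private theorem gsm_null {n : ℕ} (K : Set (V n)) {θ : V n} (hθ : ‖θ‖ = 1) :
    MX.unif K {y : V n | (inner ℝ θ y : ℝ) = 0} = 0 := by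
  have hm : MeasurableSet {y : V n | (inner ℝ θ y : ℝ) = 0} :=
    measurableSet_eq_fun (gsm_cont θ).measurable measurable_const
  have hvol : volume {y : V n | (inner ℝ θ y : ℝ) = 0} = 0 := by
    have h1 := Measure.addHaar_submodule (volume : Measure (V n))
      (LinearMap.ker ((innerSL ℝ θ : V n →L[ℝ] ℝ) : V n →ₗ[ℝ] ℝ)) (by
        intro h
        rw [LinearMap.ker_eq_top] at h
        have h2 := congrArg (fun f : V n →ₗ[ℝ] ℝ => f θ) h
        have h3 : (inner ℝ θ θ : ℝ) = 0 := h2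
        rw [real_inner_self_eq_norm_sq, hθ] at h3
        norm_num at h3)
    exact h1
  rw [MX.unif, Measure.smul_apply, Measure.restrict_apply hm, smul_eq_mul]
  have h2 : volume ({y : V n | (inner ℝ θ y : ℝ) = 0} ∩ K) = 0 :=
    measure_mono_null inter_subset_left hvol
  rw [h2, mul_zero]

theorem fd_small {n : ℕ} {K D : Set (V n)} (hK : SB K) (hD : MeasurableSet D)
    (hc : Convex ℝ D) (hs : ∀ y ∈ D, -y ∈ D) {θ : V n} (hθ : ‖θ‖ = 1) {η : ℝ} (hη : 0 < η)
    (h : η * (MX.unif K).real D ≤ (MX.unif K).real (D ∩ {y | 1 / 2 ≤ (inner ℝ θ y : ℝ)}))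
    {s : ℝ} (h0 : 0 ≤ s) :
    (MX.unif K).real (D ∩ {y | |(inner ℝ θ y : ℝ)| ≤ s}) ≤
      4 * (2 * Real.log (1 / η) + 1) * s * (MX.unif K).real D := by
  have hP := hK.prob
  have hPD : 0 ≤ (MX.unif K).real D := measureReal_nonneg
  rcases hPD.eq_or_lt with hz | hpos
  · have h1 : (MX.unif K).real (D ∩ {y | |(inner ℝ θ y : ℝ)| ≤ s}) ≤ (MX.unif K).real D :=
      measureReal_mono inter_subset_left
    rw [← hz, mul_zero]
    rw [← hz] at h1
    exact h1
  have hma : ∀ u : ℝ, MeasurableSet (D ∩ {y : V n | u < |(inner ℝ θ y : ℝ)|}) := fun u =>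
    hD.inter (measurableSet_lt measurable_const
      (continuous_abs.comp (gsm_cont θ)).measurable)
  have hmb : ∀ u : ℝ, MeasurableSet (D ∩ {y : V n | u < (inner ℝ θ y : ℝ)}) := fun u =>
    hD.inter (measurableSet_lt measurable_const (gsm_cont θ).measurable)
  have hlc : LC (MX.unif K) := lc_unif_gen hK.compact.measurableSet hK.convex
  have hT : ∀ u : ℝ, 0 ≤ u → (MX.unif K).real (D ∩ {y : V n | u < |(inner ℝ θ y : ℝ)|}) =
      2 * (MX.unif K (D ∩ {y : V n | u < (inner ℝ θ y : ℝ)})).toReal := by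
    intro u hu
    rw [Measure.real, gsm_two hK hD hs θ hu, ENNReal.toReal_mul]
    simp
  have hcompl : ∀ u : ℝ, (MX.unif K).real (D ∩ {y : V n | |(inner ℝ θ y : ℝ)| ≤ u}) =
      (MX.unif K).real D - (MX.unif K).real (D ∩ {y : V n | u < |(inner ℝ θ y : ℝ)|}) := by
    intro u
    have h1 : D \ (D ∩ {y : V n | u < |(inner ℝ θ y : ℝ)|}) =
        D ∩ {y : V n | |(inner ℝ θ y : ℝ)| ≤ u} := by
      ext y
      simp only [mem_diff, mem_inter_iff, mem_setOf_eq, not_and, not_lt]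
      constructor
      · rintro ⟨h2, h3⟩
        exact ⟨h2, h3 h2⟩
      · rintro ⟨h2, h3⟩
        exact ⟨h2, fun _ => h3⟩
    rw [← h1, measureReal_diff inter_subset_left (hma u)]
  have hl := lcs (S := fun u => (MX.unif K).real (D ∩ {y : V n | u < |(inner ℝ θ y : ℝ)|}) /
      (MX.unif K).real D) ?_ ?_ ?_ ?_ (c := 1 / 4) (η := η) (by norm_num) hη ?_ h0
  · have h1 : 1 - (MX.unif K).real (D ∩ {y : V n | s < |(inner ℝ θ y : ℝ)|}) /
        (MX.unif K).real D ≤ (2 * Real.log (1 / η) + 1) / (1 / 4) * s := hl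
    have h2 : (MX.unif K).real (D ∩ {y : V n | s < |(inner ℝ θ y : ℝ)|}) /
        (MX.unif K).real D * (MX.unif K).real D =
        (MX.unif K).real (D ∩ {y : V n | s < |(inner ℝ θ y : ℝ)|}) := by
      field_simp
    rw [hcompl s]
    have h3 := mul_le_mul_of_nonneg_right h1 hPD
    rw [sub_mul, h2, one_mul] at h3
    refine h3.trans (le_of_eq ?_)
    ring
  · show (MX.unif K).real (D ∩ {y : V n | 0 < |(inner ℝ θ y : ℝ)|}) / (MX.unif K).real D = 1
    rw [div_eq_one_iff_eq hpos.ne']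
    have h1 := hcompl 0
    have h2 : (MX.unif K).real (D ∩ {y : V n | |(inner ℝ θ y : ℝ)| ≤ 0}) = 0 := by
      rw [Measure.real]
      have h3 : MX.unif K (D ∩ {y : V n | |(inner ℝ θ y : ℝ)| ≤ 0}) = 0 := by
        refine measure_mono_null (fun y hy => ?_) (gsm_null K hθ)
        have h4 : |(inner ℝ θ y : ℝ)| ≤ 0 := hy.2
        exact abs_eq_zero.mp (le_antisymm h4 (abs_nonneg _))
      rw [h3]
      simp
    rw [h2] at h1
    linarith
  · intro u _
    exact div_nonneg measureReal_nonneg hPD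
  · intro u v _ huv
    refine div_le_div_of_nonneg_right ?_ hPD
    refine measureReal_mono (fun y hy => ⟨hy.1, ?_⟩)
    exact lt_of_le_of_lt huv hy.2
  · intro u v hu hv
    have h1 := hlc (D ∩ {y | u < (inner ℝ θ y : ℝ)}) (D ∩ {y | v < (inner ℝ θ y : ℝ)})
      (D ∩ {y | (u + v) / 2 < (inner ℝ θ y : ℝ)}) (hmb _) (hmb _) (hmb _) (by
        intro a ha b hb
        have h3 : u < (inner ℝ θ a : ℝ) := ha.2
        have h4 : v < (inner ℝ θ b : ℝ) := hb.2
        refine ⟨?_, ?_⟩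
        · have h5 := hc ha.1 hb.1 (a := 1 / 2) (b := 1 / 2) (by norm_num) (by norm_num)
            (by norm_num)
          rw [smul_add]
          exact h5
        · show (u + v) / 2 < (inner ℝ θ ((1 / 2 : ℝ) • (a + b)) : ℝ)
          rw [inner_smul_right, inner_add_right]
          linarith)
    have h3 := (ENNReal.toReal_le_toReal (ENNReal.mul_ne_top (measure_ne_top _ _)
      (measure_ne_top _ _)) (ENNReal.pow_ne_top (measure_ne_top _ _))).2 h1
    rw [ENNReal.toReal_mul, ENNReal.toReal_pow] at h3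
    show (MX.unif K).real (D ∩ {y : V n | u < |(inner ℝ θ y : ℝ)|}) / (MX.unif K).real D *
      ((MX.unif K).real (D ∩ {y : V n | v < |(inner ℝ θ y : ℝ)|}) / (MX.unif K).real D) ≤
      ((MX.unif K).real (D ∩ {y : V n | (u + v) / 2 < |(inner ℝ θ y : ℝ)|}) /
        (MX.unif K).real D) ^ 2
    rw [hT u hu, hT v hv, hT _ (by positivity), div_mul_div_comm, div_pow, ← sq]
    refine div_le_div_of_nonneg_right ?_ (sq_nonneg _)
    nlinarith [h3]
  · show η ≤ (MX.unif K).real (D ∩ {y : V n | 1 / 4 < |(inner ℝ θ y : ℝ)|}) /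
      (MX.unif K).real D
    rw [le_div_iff₀ hpos]
    refine h.trans (measureReal_mono (fun y hy => ⟨hy.1, ?_⟩))
    have h1 : (1 / 2 : ℝ) ≤ (inner ℝ θ y : ℝ) := hy.2
    show (1 / 4 : ℝ) < |(inner ℝ θ y : ℝ)|
    have h2 := le_abs_self (inner ℝ θ y : ℝ)
    linarith

end Pool.Agent.UK
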