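import Pool.Agent.UK.GLow
import Pool.Agent.UK.GSm

/-!
# UK-GBox: upper bound for boxes

PLAN.  Induction on `m` (`C_m ≥ 1`).  `T` empty: `P ≤ 1`.  If `s_t > 1` for some `t ∈ T`: drop it (`P ≤ P(T \ {t}) ≤ C ∏_{T \ {t}} s ≤ C ∏_T s`).  Otherwise `s ≤ 1` on
`T`; pick `t ∈ T`, `T' = T \ {t}`, `D = {|U_b| ≤ s_b, b ∈ T'}` (convex, symmetric).  `P(D) ≤ C_{m-1} ∏_{T'} s_b` and
`P(D ∩ {1/2 ≤ U_t}) ≥ c ∏_{T'} s_b` (`boxlow (m-1)`), so with `η = c / C_{m-1}` (in `(0, 1]`) `η P(D) ≤ P(D ∩ {1/2 ≤ U_t})` and `fd_small` gives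
`P(D ∩ {|U_t| ≤ s_t}) ≤ 4 (2 log (1/η) + 1) s_t P(D)`.
-/

set_option autoImplicit false

open MeasureTheory Set
open scoped ENNReal NNReal

namespace Pool.Agent.UK

open Pool.Agent.CB Pool.Agent.UB

private theorem gbox_meas {n : ℕ} (θ : Fin n → V n) (T : Finset (Fin n)) (s : Fin n → ℝ) :
    MeasurableSet {y : V n | ∀ b ∈ T, |(inner ℝ (θ b) y : ℝ)| ≤ s b} := by
  have h1 : {y : V n | ∀ b ∈ T, |(inner ℝ (θ b) y : ℝ)| ≤ s b} =
      ⋂ b ∈ T, {y | |(inner ℝ (θ b) y : ℝ)| ≤ s b} := by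
    ext y
    simp only [mem_setOf_eq, mem_iInter]
  rw [h1]
  refine Finset.measurableSet_biInter _ ?_
  intro c _
  exact (isClosed_le (by fun_prop) continuous_const).measurableSet

private theorem gbox_conv {n : ℕ} (θ : Fin n → V n) (T : Finset (Fin n)) (s : Fin n → ℝ) :
    Convex ℝ {y : V n | ∀ b ∈ T, |(inner ℝ (θ b) y : ℝ)| ≤ s b} := by
  intro x hx y hy u v hu hv huv c hc
  have hx1 := hx c hc
  have hy1 := hy c hc
  rw [inner_add_right, inner_smul_right, inner_smul_right]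
  calc |u * (inner ℝ (θ c) x : ℝ) + v * (inner ℝ (θ c) y : ℝ)|
      ≤ |u * (inner ℝ (θ c) x : ℝ)| + |v * (inner ℝ (θ c) y : ℝ)| := abs_add_le _ _
    _ = u * |(inner ℝ (θ c) x : ℝ)| + v * |(inner ℝ (θ c) y : ℝ)| := by
        rw [abs_mul, abs_mul, abs_of_nonneg hu, abs_of_nonneg hv]
    _ ≤ u * s c + v * s c :=
        add_le_add (mul_le_mul_of_nonneg_left hx1 hu) (mul_le_mul_of_nonneg_left hy1 hv)
    _ = s c := by rw [← add_mul, huv, one_mul]

theorem box (m : ℕ) : ∃ C : ℝ, 1 ≤ C ∧ ∀ (k n : ℕ) (π : Fin n → Fin n) (K : Set (V n)),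
    BU k π K → Iso K → ∀ (θ : Fin n → V n) (T : Finset (Fin n)) (s : Fin n → ℝ),
    T.card ≤ m → (∀ b ∈ T, UV π b (θ b)) → (∀ b ∈ T, 0 < s b) →
    (MX.unif K).real {y | ∀ b ∈ T, |(inner ℝ (θ b) y : ℝ)| ≤ s b} ≤ C * ∏ b ∈ T, s b := by
  induction m with
  | zero =>
    refine ⟨1, le_rfl, ?_⟩
    intro k n π K hK hI θ T s hT hθ hs
    haveI : IsProbabilityMeasure (MX.unif K) := isProb_unif hK.compact hK.nonempty
    have hT0 : T = ∅ := Finset.card_eq_zero.1 (Nat.le_zero.1 hT)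
    subst hT0
    rw [Finset.prod_empty, mul_one]
    exact measureReal_le_one
  | succ m ih =>
    obtain ⟨C₀, hC₀, hup⟩ := ih
    obtain ⟨c, hc, hlow⟩ := boxlow m
    have hC0 : 0 < C₀ := by linarith
    have hη : 0 < c / C₀ := div_pos hc hC0
    have hF1 : 1 ≤ 4 * (2 * |Real.log (1 / (c / C₀))| + 1) := by
      have := abs_nonneg (Real.log (1 / (c / C₀)))
      linarith
    have hCC : C₀ ≤ 4 * (2 * |Real.log (1 / (c / C₀))| + 1) * C₀ :=
      le_mul_of_one_le_left hC0.le hF1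
    refine ⟨4 * (2 * |Real.log (1 / (c / C₀))| + 1) * C₀, hC₀.trans hCC, ?_⟩
    intro k n π K hK hI θ T s hT hθ hs
    haveI : IsProbabilityMeasure (MX.unif K) := isProb_unif hK.compact hK.nonempty
    have hprod : 0 ≤ ∏ b ∈ T, s b := Finset.prod_nonneg fun b hb => (hs b hb).le
    rcases T.eq_empty_or_nonempty with hTe | ⟨t, ht⟩
    · refine (hup k n π K hK hI θ T s (by simp [hTe]) hθ hs).trans ?_
      exact mul_le_mul_of_nonneg_right hCC hprod
    by_cases hbig : ∃ t ∈ T, 1 < s t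
    · obtain ⟨t, ht, hst⟩ := hbig
      have hcard : (T.erase t).card ≤ m := by
        rw [Finset.card_erase_of_mem ht]
        omega
      have h1 := hup k n π K hK hI θ (T.erase t) s hcard
        (fun b hb => hθ b (Finset.mem_of_mem_erase hb))
        (fun b hb => hs b (Finset.mem_of_mem_erase hb))
      have h2 : {y : V n | ∀ b ∈ T, |(inner ℝ (θ b) y : ℝ)| ≤ s b} ⊆
          {y | ∀ b ∈ T.erase t, |(inner ℝ (θ b) y : ℝ)| ≤ s b} :=
        fun y hy b hb => hy b (Finset.mem_of_mem_erase hb)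
      have h3 : ∏ b ∈ T.erase t, s b ≤ ∏ b ∈ T, s b := by
        rw [← Finset.mul_prod_erase T s ht]
        exact le_mul_of_one_le_left
          (Finset.prod_nonneg fun b hb => (hs b (Finset.mem_of_mem_erase hb)).le) hst.le
      calc (MX.unif K).real {y | ∀ b ∈ T, |(inner ℝ (θ b) y : ℝ)| ≤ s b}
          ≤ (MX.unif K).real {y | ∀ b ∈ T.erase t, |(inner ℝ (θ b) y : ℝ)| ≤ s b} :=
            measureReal_mono h2
        _ ≤ C₀ * ∏ b ∈ T.erase t, s b := h1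
        _ ≤ C₀ * ∏ b ∈ T, s b := mul_le_mul_of_nonneg_left h3 hC0.le
        _ ≤ _ := mul_le_mul_of_nonneg_right hCC hprod
    push Not at hbig
    have hcard : (T.erase t).card ≤ m := by
      rw [Finset.card_erase_of_mem ht]
      omega
    have hθ' : ∀ b ∈ T.erase t, UV π b (θ b) := fun b hb => hθ b (Finset.mem_of_mem_erase hb)
    have hs' : ∀ b ∈ T.erase t, 0 < s b := fun b hb => hs b (Finset.mem_of_mem_erase hb)
    have hs1 : ∀ b ∈ T.erase t, s b ≤ 1 := fun b hb => hbig b (Finset.mem_of_mem_erase hb)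
    have h1 := hup k n π K hK hI θ (T.erase t) s hcard hθ' hs'
    have h2 := hlow k n π K hK hI θ (T.erase t) t s hcard (Finset.notMem_erase t T) hθ'
      (hθ t ht) hs' hs1
    have hset : {y : V n | 1 / 2 ≤ (inner ℝ (θ t) y : ℝ) ∧
          ∀ b ∈ T.erase t, |(inner ℝ (θ b) y : ℝ)| ≤ s b} =
        {y | ∀ b ∈ T.erase t, |(inner ℝ (θ b) y : ℝ)| ≤ s b} ∩
          {y | 1 / 2 ≤ (inner ℝ (θ t) y : ℝ)} := by
      ext y
      simp only [mem_setOf_eq, mem_inter_iff]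
      exact and_comm
    rw [hset] at h2
    have hsym : ∀ y ∈ {y : V n | ∀ b ∈ T.erase t, |(inner ℝ (θ b) y : ℝ)| ≤ s b},
        -y ∈ {y : V n | ∀ b ∈ T.erase t, |(inner ℝ (θ b) y : ℝ)| ≤ s b} := by
      intro y hy b hb
      rw [inner_neg_right, abs_neg]
      exact hy b hb
    have h3 : c / C₀ * (MX.unif K).real {y | ∀ b ∈ T.erase t, |(inner ℝ (θ b) y : ℝ)| ≤ s b} ≤
        (MX.unif K).real ({y | ∀ b ∈ T.erase t, |(inner ℝ (θ b) y : ℝ)| ≤ s b} ∩
          {y | 1 / 2 ≤ (inner ℝ (θ t) y : ℝ)}) := by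
      refine le_trans ?_ h2
      refine (mul_le_mul_of_nonneg_left h1 hη.le).trans (le_of_eq ?_)
      rw [← mul_assoc, div_mul_cancel₀ c hC0.ne']
    have h4 := fd_small hK.toSB (gbox_meas θ (T.erase t) s) (gbox_conv θ (T.erase t) s) hsym
      (hθ t ht).norm hη h3 (hs t ht).le
    have hset2 : {y : V n | ∀ b ∈ T, |(inner ℝ (θ b) y : ℝ)| ≤ s b} =
        {y | ∀ b ∈ T.erase t, |(inner ℝ (θ b) y : ℝ)| ≤ s b} ∩
          {y | |(inner ℝ (θ t) y : ℝ)| ≤ s t} := by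
      ext y
      simp only [mem_setOf_eq, mem_inter_iff]
      constructor
      · intro h
        exact ⟨fun b hb => h b (Finset.mem_of_mem_erase hb), h t ht⟩
      · rintro ⟨h5, h6⟩ b hb
        by_cases hbt : b = t
        · rw [hbt]
          exact h6
        · exact h5 b (Finset.mem_erase.2 ⟨hbt, hb⟩)
    rw [hset2]
    refine h4.trans ?_
    have hst := hs t ht
    have hlog : Real.log (1 / (c / C₀)) ≤ |Real.log (1 / (c / C₀))| := le_abs_self _
    have hP0 : 0 ≤ (MX.unif K).real {y | ∀ b ∈ T.erase t, |(inner ℝ (θ b) y : ℝ)| ≤ s b} :=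
      measureReal_nonneg
    calc 4 * (2 * Real.log (1 / (c / C₀)) + 1) * s t *
          (MX.unif K).real {y | ∀ b ∈ T.erase t, |(inner ℝ (θ b) y : ℝ)| ≤ s b}
        ≤ 4 * (2 * |Real.log (1 / (c / C₀))| + 1) * s t *
          (MX.unif K).real {y | ∀ b ∈ T.erase t, |(inner ℝ (θ b) y : ℝ)| ≤ s b} := by
          refine mul_le_mul_of_nonneg_right ?_ hP0
          refine mul_le_mul_of_nonneg_right ?_ hst.le
          linarith
      _ ≤ 4 * (2 * |Real.log (1 / (c / C₀))| + 1) * s t * (C₀ * ∏ b ∈ T.erase t, s b) :=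
          mul_le_mul_of_nonneg_left h1 (by positivity)
      _ = 4 * (2 * |Real.log (1 / (c / C₀))| + 1) * C₀ * ∏ b ∈ T, s b := by
          rw [← Finset.mul_prod_erase T s ht]
          ring

end Pool.Agent.UK
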