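import Pool.Agent.UK.Chord
import Pool.Agent.UB.LineL

/-!
# UK-LineL: integration over chords

As in `UB/LineL.lean`: a line which meets `K` is parametrised from the midpoint of its chord.
-/

set_option autoImplicit false

open MeasureTheory Set
open scoped ENNReal NNReal

namespace Pool.Agent.UK

open Pool.Agent.CB Pool.Agent.UB

variable {n : ℕ} {K : Set (V n)}

private lemma lk_meas (hK : SB K) : MeasurableSet K := hK.compact.isClosed.measurableSet

private lemma lk_key (hK : SB K) (i : Fin n) (F : V n → ℝ) (y : V n)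
    (hy : ∃ s : ℝ, y + s • bv i ∈ K) :
    ∃ z : V n, z ∈ K ∧ (∀ s : ℝ, z + s • bv i ∈ K ↔ |s| ≤ hl K i z) ∧
      ∫ s : ℝ, K.indicator F (y + s • bv i) =
        ∫ s in (-hl K i z)..(hl K i z), F (z + s • bv i) := by
  obtain ⟨s0, hs0⟩ := hy
  obtain ⟨a, b, ha, hb, hab, hl1, -⟩ := hK.chord i hs0
  obtain ⟨m, hm⟩ : ∃ m : ℝ, m = s0 + (b - a) / 2 := ⟨_, rfl⟩
  obtain ⟨z, hz⟩ : ∃ z : V n, z = y + m • bv i := ⟨_, rfl⟩
  have hlz : hl K i z = (a + b) / 2 := by
    rw [hz, hl_add, ← hl_add i y s0, hl1]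
  have hch : ∀ s : ℝ, z + s • bv i ∈ K ↔ |s| ≤ hl K i z := by
    intro s
    have h1 : z + s • (bv i : V n) = y + s0 • bv i + ((b - a) / 2 + s) • bv i := by
      rw [hz, hm]
      module
    rw [h1, hab, hlz, abs_le]
    constructor
    · rintro ⟨h2, h3⟩
      exact ⟨by linarith, by linarith⟩
    · rintro ⟨h2, h3⟩
      exact ⟨by linarith, by linarith⟩
  have hl0 : 0 ≤ hl K i z := hl_nonneg i z
  have hzK : z ∈ K := by
    have h1 := (hch 0).2 (by rw [abs_zero]; exact hl0)
    rwa [zero_smul, add_zero] at h1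
  refine ⟨z, hzK, hch, ?_⟩
  have h1 : ∫ s : ℝ, K.indicator F (y + s • bv i) = ∫ s : ℝ, K.indicator F (z + s • bv i) := by
    rw [← integral_add_right_eq_self (fun s : ℝ => K.indicator F (y + s • bv i)) m]
    refine integral_congr_ae (Filter.Eventually.of_forall fun s => ?_)
    have : y + (s + m) • (bv i : V n) = z + s • bv i := by
      rw [hz]
      module
    simp only [this]
  have h2 : (fun s : ℝ => K.indicator F (z + s • bv i)) =
      (Icc (-hl K i z) (hl K i z)).indicator (fun s => F (z + s • bv i)) := by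
    funext s
    have h3 : z + s • (bv i : V n) ∈ K ↔ s ∈ Icc (-hl K i z) (hl K i z) := by
      rw [hch s, abs_le, mem_Icc]
    by_cases h : s ∈ Icc (-hl K i z) (hl K i z)
    · rw [indicator_of_mem h, indicator_of_mem (h3.2 h)]
    · rw [indicator_of_notMem h, indicator_of_notMem (fun h' => h (h3.1 h'))]
  rw [h1, h2, integral_indicator measurableSet_Icc, integral_Icc_eq_integral_Ioc,
    intervalIntegral.integral_of_le (by linarith)]

private lemma lk_key0 (i : Fin n) (F : V n → ℝ) (y : V n)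
    (hy : ¬ ∃ s : ℝ, y + s • bv i ∈ K) :
    ∫ s : ℝ, K.indicator F (y + s • bv i) = 0 := by
  push Not at hy
  have : (fun s : ℝ => K.indicator F (y + s • bv i)) = fun _ => 0 := by
    funext s
    exact indicator_of_notMem (hy s) F
  rw [this, integral_zero]

private lemma lk_int (hK : SB K) {F : V n → ℝ} (hm : Measurable F)
    (hb : ∃ B, ∀ y, |F y| ≤ B) : Integrable (K.indicator F) := by
  obtain ⟨B, hB⟩ := hb
  rw [integrable_indicator_iff (lk_meas hK)]
  refine Measure.integrableOn_of_bounded hK.vol_lt_top.ne hm.aestronglyMeasurable (M := B) ?_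
  exact Filter.Eventually.of_forall fun y => by rw [Real.norm_eq_abs]; exact hB y

private lemma lk_unif (hK : SB K) (F : V n → ℝ) :
    ∫ y, F y ∂(MX.unif K) = (volume K)⁻¹.toReal * ∫ y, K.indicator F y := by
  unfold MX.unif
  rw [integral_smul_measure, integral_indicator (lk_meas hK), smul_eq_mul]

theorem SB.line_zero (hK : SB K) (i : Fin n) {F : V n → ℝ} (hm : Measurable F)
    (hb : ∃ B, ∀ y, |F y| ≤ B)
    (h : ∀ y : V n, y ∈ K → (∀ s : ℝ, y + s • bv i ∈ K ↔ |s| ≤ hl K i y) →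
      ∫ s in (-hl K i y)..(hl K i y), F (y + s • bv i) = 0) :
    ∫ y, F y ∂(MX.unif K) = 0 := by
  rw [lk_unif hK F]
  rw [UB.line_zero (lk_int hK hm hb) (hm.indicator (lk_meas hK)) i, mul_zero]
  intro y
  by_cases hy : ∃ s : ℝ, y + s • bv i ∈ K
  · obtain ⟨z, hz1, hz2, hz3⟩ := lk_key hK i F y hy
    rw [hz3]
    exact h z hz1 hz2
  · exact lk_key0 i F y hy

theorem SB.line_nonneg (hK : SB K) (i : Fin n) {F : V n → ℝ} (hm : Measurable F)
    (hb : ∃ B, ∀ y, |F y| ≤ B)
    (h : ∀ y : V n, y ∈ K → (∀ s : ℝ, y + s • bv i ∈ K ↔ |s| ≤ hl K i y) →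
      0 ≤ ∫ s in (-hl K i y)..(hl K i y), F (y + s • bv i)) :
    0 ≤ ∫ y, F y ∂(MX.unif K) := by
  rw [lk_unif hK F]
  refine mul_nonneg ENNReal.toReal_nonneg
    (UB.line_nonneg (lk_int hK hm hb) (hm.indicator (lk_meas hK)) i fun y => ?_)
  by_cases hy : ∃ s : ℝ, y + s • bv i ∈ K
  · obtain ⟨z, hz1, hz2, hz3⟩ := lk_key hK i F y hy
    rw [hz3]
    exact h z hz1 hz2
  · rw [lk_key0 i F y hy]

end Pool.Agent.UK
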