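import Pool.Agent.UK.GDefs
import Pool.Agent.UK.LineL

/-!
# UK-GCh: overlaps and chords (any symmetric convex body)

PLAN.  `ovl_mid`: `LC (unif K)` (`lc_unif_gen`) for `{y ∈ K | y - a e_i ∈ K}` etc. (`SB.ae_mem`).  `ovl_anti`: for `y ∈ K`, `y - t e_i ∈ K` and `0 ≤ s ≤ t` convexity gives
`y - s e_i ∈ K`.  `chord_le`: `SB.line_nonneg` for `F = 1 - 2·1[y - 2h e_i ∈ K] + 1[y - 4h e_i ∈ K] - 1[hl y ≤ h]`: on a chord `{|s| ≤ l}` the integral is
`2l - 2 (2l - 2h)⁺ + (2l - 4h)⁺ - 2l 1[l ≤ h]`, which is `0` for `l ≤ h`, `4h - 2l ≥ 0` for `h < l ≤ 2h`, `0` for `l > 2h` (`hl` is constant on the chord;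
`y₀ + s e_i - 2h e_i ∈ K` iff `|s - 2h| ≤ l`).
-/

set_option autoImplicit false

open MeasureTheory Set
open scoped ENNReal NNReal

namespace Pool.Agent.UK

open Pool.Agent.CB Pool.Agent.UB

variable {n : ℕ} {K : Set (V n)}

private theorem oc_cont (i : Fin n) (a : ℝ) : Continuous fun y : V n => y - a • bv i :=
  continuous_id.sub continuous_const

private theorem oc_meas (hK : SB K) (i : Fin n) (a : ℝ) :
    MeasurableSet {y : V n | y - a • bv i ∈ K} :=
  hK.compact.isClosed.measurableSet.preimage (oc_cont i a).measurable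

theorem ovl_zero (hK : SB K) (i : Fin n) : ovl K i 0 = 1 := by
  have := hK.prob
  unfold ovl
  have h1 : {y : V n | y - (0 : ℝ) • bv i ∈ K} =ᵐ[MX.unif K] univ := by
    rw [Filter.eventuallyEq_univ]
    filter_upwards [hK.ae_mem] with y hy
    show y - (0 : ℝ) • bv i ∈ K
    rwa [zero_smul, sub_zero]
  rw [measureReal_congr h1, probReal_univ]

theorem ovl_mid (hK : SB K) (i : Fin n) (a b : ℝ) :
    ovl K i a * ovl K i b ≤ ovl K i ((a + b) / 2) ^ 2 := by
  have := hK.prob
  have hlc : LC (MX.unif K) := lc_unif_gen hK.compact.measurableSet hK.convex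
  have h1 := hlc {y : V n | y - a • bv i ∈ K} {y : V n | y - b • bv i ∈ K}
    {y : V n | y - ((a + b) / 2) • bv i ∈ K} (oc_meas hK i a) (oc_meas hK i b)
    (oc_meas hK i _) (by
      intro x hx y hy
      show (1 / 2 : ℝ) • (x + y) - ((a + b) / 2) • bv i ∈ K
      have h2 : (1 / 2 : ℝ) • (x + y) - ((a + b) / 2) • bv i =
          (1 / 2 : ℝ) • (x - a • bv i) + (1 / 2 : ℝ) • (y - b • bv i) := by
        module
      rw [h2]
      exact hK.convex hx hy (by norm_num) (by norm_num) (by norm_num))
  have h2 := ENNReal.toReal_mono (by finiteness) h1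
  rw [ENNReal.toReal_mul, ENNReal.toReal_pow] at h2
  exact h2

theorem ovl_anti (hK : SB K) (i : Fin n) {s t : ℝ} (hs : 0 ≤ s) (h : s ≤ t) :
    ovl K i t ≤ ovl K i s := by
  have := hK.prob
  unfold ovl Measure.real
  refine ENNReal.toReal_mono (measure_ne_top _ _) (measure_mono_ae ?_)
  filter_upwards [hK.ae_mem] with y hy h1
  have h1' : y - t • bv i ∈ K := h1
  show y - s • bv i ∈ K
  rcases eq_or_lt_of_le (hs.trans h) with ht | ht
  · have hs0 : s = 0 := by linarith
    rw [hs0, zero_smul, sub_zero]
    exact hy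
  · have h2 : y - s • bv i = (1 - s / t) • y + (s / t) • (y - t • bv i) := by
      have h3 : s = (s / t) * t := by field_simp
      rw [smul_sub, smul_smul, ← h3]
      module
    rw [h2]
    refine hK.convex hy h1' ?_ (by positivity) (by ring)
    rw [sub_nonneg, div_le_one ht]
    exact h

private theorem oc_int {l c : ℝ} (hc : -l ≤ c) (hl : 0 ≤ l) :
    ∫ s in (-l)..l, (Ici c).indicator (fun _ => (1 : ℝ)) s = max (l - c) 0 := by
  rw [intervalIntegral.integral_of_le (by linarith), integral_indicator_const _ measurableSet_Ici,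
    smul_eq_mul, mul_one, measureReal_restrict_apply measurableSet_Ici]
  have h1 : volume (Ici c ∩ Ioc (-l) l) = ENNReal.ofReal (l - c) := by
    apply le_antisymm
    · rw [← Real.volume_Icc]
      exact measure_mono fun s hs => ⟨hs.1, hs.2.2⟩
    · rw [← Real.volume_Ioc]
      exact measure_mono fun s hs => ⟨hs.1.le, lt_of_le_of_lt hc hs.1, hs.2⟩
  unfold Measure.real
  rw [h1, ENNReal.toReal_ofReal']

private theorem oc_ii (c a b : ℝ) :
    IntervalIntegrable (fun s => (Ici c).indicator (fun _ => (1 : ℝ)) s) volume a b := by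
  refine Monotone.intervalIntegrable fun s t hst => ?_
  by_cases h : c ≤ s
  · rw [indicator_of_mem (show s ∈ Ici c from h), indicator_of_mem (show t ∈ Ici c from h.trans hst)]
  · rw [indicator_of_notMem (show s ∉ Ici c from h)]
    exact indicator_nonneg (fun _ _ => zero_le_one) _

theorem chord_le (hK : SB K) (i : Fin n) {h : ℝ} (hh : 0 ≤ h) :
    (MX.unif K).real {y | hl K i y ≤ h} ≤ 1 - 2 * ovl K i (2 * h) + ovl K i (4 * h) := by
  have := hK.prob
  have hC : MeasurableSet {y : V n | hl K i y ≤ h} :=
    measurableSet_le (hK.measurable_hl i) measurable_const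
  have hA := oc_meas hK i (2 * h)
  have hB := oc_meas hK i (4 * h)
  set A := {y : V n | y - (2 * h) • bv i ∈ K} with hAd
  set B := {y : V n | y - (4 * h) • bv i ∈ K} with hBd
  set C := {y : V n | hl K i y ≤ h} with hCd
  have hm : ∀ S : Set (V n), MeasurableSet S → Measurable (S.indicator fun _ => (1 : ℝ)) :=
    fun S hS => measurable_const.indicator hS
  have hb : ∀ (S : Set (V n)) (y : V n), 0 ≤ S.indicator (fun _ => (1 : ℝ)) y ∧
      S.indicator (fun _ => (1 : ℝ)) y ≤ 1 := fun S y =>
    ⟨indicator_nonneg (fun _ _ => zero_le_one) _, indicator_le' (fun _ _ => le_rfl)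
      (fun _ _ => zero_le_one) _⟩
  have key : 0 ≤ ∫ y, (1 - 2 * A.indicator (fun _ => (1 : ℝ)) y +
      B.indicator (fun _ => (1 : ℝ)) y - C.indicator (fun _ => (1 : ℝ)) y) ∂(MX.unif K) := by
    refine hK.line_nonneg i ?_ ⟨4, fun y => ?_⟩ ?_
    · exact (((measurable_const).sub ((hm A hA).const_mul 2)).add (hm B hB)).sub (hm C hC)
    · have h1 := hb A y
      have h2 := hb B y
      have h3 := hb C y
      rw [abs_le]
      constructor <;> linarith [h1.1, h1.2, h2.1, h2.2, h3.1, h3.2]
    · intro z hz hch
      have hl0 : 0 ≤ hl K i z := hl_nonneg i z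
      set l := hl K i z with hld
      have e : ∫ s in (-l)..l, (1 - 2 * A.indicator (fun _ => (1 : ℝ)) (z + s • bv i) +
          B.indicator (fun _ => (1 : ℝ)) (z + s • bv i) -
          C.indicator (fun _ => (1 : ℝ)) (z + s • bv i)) =
          ∫ s in (-l)..l, (1 - 2 * (Ici (2 * h - l)).indicator (fun _ => (1 : ℝ)) s +
          (Ici (4 * h - l)).indicator (fun _ => (1 : ℝ)) s - if l ≤ h then (1 : ℝ) else 0) := by
        refine intervalIntegral.integral_congr fun s hs => ?_
        rw [uIcc_of_le (by linarith), mem_Icc] at hs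
        have sh : ∀ c : ℝ, 0 ≤ c → (z + s • bv i - c • bv i ∈ K ↔ s ∈ Ici (c - l)) := by
          intro c hc
          have h1 : z + s • bv i - c • bv i = z + (s - c) • (bv i : V n) := by module
          rw [h1, hch, abs_le, mem_Ici]
          constructor
          · rintro ⟨h2, -⟩
            linarith
          · intro h2
            constructor <;> linarith
        have hA' : (z + s • bv i ∈ A) ↔ s ∈ Ici (2 * h - l) := sh (2 * h) (by linarith)
        have hB' : (z + s • bv i ∈ B) ↔ s ∈ Ici (4 * h - l) := sh (4 * h) (by linarith)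
        have hC' : (z + s • bv i ∈ C) ↔ l ≤ h := by
          show hl K i (z + s • bv i) ≤ h ↔ l ≤ h
          rw [hl_add]
        have t : ∀ (S : Set (V n)) (T : Set ℝ), (z + s • bv i ∈ S ↔ s ∈ T) →
            S.indicator (fun _ => (1 : ℝ)) (z + s • bv i) = T.indicator (fun _ => (1 : ℝ)) s := by
          intro S T hST
          by_cases hs' : s ∈ T
          · rw [indicator_of_mem hs', indicator_of_mem (hST.2 hs')]
          · rw [indicator_of_notMem hs', indicator_of_notMem fun h' => hs' (hST.1 h')]
        show 1 - 2 * A.indicator (fun _ => (1 : ℝ)) (z + s • bv i) +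
          B.indicator (fun _ => (1 : ℝ)) (z + s • bv i) -
          C.indicator (fun _ => (1 : ℝ)) (z + s • bv i) = _
        rw [t A _ hA', t B _ hB']
        congr 1
        by_cases hc : l ≤ h
        · rw [if_pos hc, indicator_of_mem (hC'.2 hc)]
        · rw [if_neg hc, indicator_of_notMem fun h' => hc (hC'.1 h')]
      rw [e, intervalIntegral.integral_sub
        ((intervalIntegrable_const.sub ((oc_ii _ _ _).const_mul 2)).add (oc_ii _ _ _))
        intervalIntegrable_const, intervalIntegral.integral_add
        (intervalIntegrable_const.sub ((oc_ii _ _ _).const_mul 2)) (oc_ii _ _ _),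
        intervalIntegral.integral_sub intervalIntegrable_const ((oc_ii _ _ _).const_mul 2),
        intervalIntegral.integral_const_mul, oc_int (by linarith) hl0, oc_int (by linarith) hl0,
        intervalIntegral.integral_const, intervalIntegral.integral_const]
      simp only [smul_eq_mul]
      by_cases hc : l ≤ h
      · rw [if_pos hc, max_eq_right (by linarith), max_eq_right (by linarith)]
        linarith
      · rw [if_neg hc, max_eq_left (by linarith)]
        by_cases hc2 : l ≤ 2 * h
        · rw [max_eq_right (by linarith)]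
          linarith
        · rw [max_eq_left (by linarith)]
          linarith
  have ii : ∀ S : Set (V n), MeasurableSet S →
      Integrable (S.indicator fun _ => (1 : ℝ)) (MX.unif K) := fun S hS =>
    (integrable_const (1 : ℝ)).indicator hS
  have i1 : Integrable (fun y => 1 - 2 * A.indicator (fun _ => (1 : ℝ)) y) (MX.unif K) :=
    (integrable_const (1 : ℝ)).sub ((ii A hA).const_mul 2)
  have i2 : Integrable (fun y => 1 - 2 * A.indicator (fun _ => (1 : ℝ)) y +
      B.indicator (fun _ => (1 : ℝ)) y) (MX.unif K) := i1.add (ii B hB)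
  rw [integral_sub i2 (ii C hC), integral_add i1 (ii B hB),
    integral_sub (integrable_const (1 : ℝ)) ((ii A hA).const_mul 2), integral_const_mul,
    integral_indicator_const _ hA, integral_indicator_const _ hB,
    integral_indicator_const _ hC, integral_const, probReal_univ] at key
  simp only [smul_eq_mul, mul_one] at key
  unfold ovl
  rw [← hAd, ← hBd]
  linarith

end Pool.Agent.UK
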