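import Pool.Agent.UK.Defs
import Pool.Agent.CB.LCmom
import Pool.Agent.CB.GenIso

/-!
# Project UK, geometry half: definitions

Plan of the geometry half: `/team-store/unk_plan.md` and the headers of the files `UK/G*.lean`.
-/

set_option autoImplicit false

open MeasureTheory Set
open scoped ENNReal NNReal

namespace Pool.Agent.UK

open Pool.Agent.CB Pool.Agent.UB

variable {n : ℕ}

/-- The component of `y` in the block `b`. -/
noncomputable def bl (π : Fin n → Fin n) (b : Fin n) (y : V n) : V n :=
  WithLp.toLp 2 fun i => if π i = b then y i else 0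

/-- Sign changes of the blocks. -/
noncomputable def fle (π : Fin n → Fin n) (ε : Fin n → Bool) (y : V n) : V n :=
  WithLp.toLp 2 fun i => sg (ε (π i)) * y i

/-- Vectors of the block `b`. -/
def InB (π : Fin n → Fin n) (b : Fin n) (x : V n) : Prop := ∀ i, π i ≠ b → x i = 0

/-- Unit vectors of the block `b`. -/
structure UV (π : Fin n → Fin n) (b : Fin n) (θ : V n) : Prop where
  norm : ‖θ‖ = 1
  inb : InB π b θ

/-- Measurable convex sets which are invariant under the flip of the block `b`. -/
structure FD (π : Fin n → Fin n) (b : Fin n) (D : Set (V n)) : Prop where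
  meas : MeasurableSet D
  convex : Convex ℝ D
  flip : ∀ y ∈ D, fl π b y ∈ D

/-- Points such that the slice of `K` in the block `b` contains a vector of length at most `σ R` whose inner product with `θ` is at
least `σ / 2`. -/
def Hs (π : Fin n → Fin n) (b : Fin n) (K : Set (V n)) (R σ : ℝ) (θ : V n) : Set (V n) :=
  {y | y ∈ K ∧ ∃ x : V n, InB π b x ∧ ‖x‖ ≤ σ * R ∧ σ / 2 ≤ (inner ℝ θ x : ℝ) ∧ y - bl π b y + x ∈ K}

/-- Points such that the slice of `K` in the block `b` contains a ball of radius `r`. -/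
def Gs (π : Fin n → Fin n) (b : Fin n) (K : Set (V n)) (r : ℝ) : Set (V n) :=
  {y | y ∈ K ∧ ∀ v : V n, InB π b v → ‖v‖ ≤ r → y - bl π b y + v ∈ K}

/-- `P(Y - h e_i ∈ K)`. -/
noncomputable def ovl (K : Set (V n)) (i : Fin n) (h : ℝ) : ℝ :=
  (MX.unif K).real {y | y - h • bv i ∈ K}

/-- `E ∏ |cos <ξ_b, Y>|`, `ξ_b` = block components. -/
noncomputable def Ph (π : Fin n → Fin n) (K : Set (V n)) (ξ : V n) : ℝ :=
  ∫ y, ∏ b, |Real.cos (inner ℝ (bl π b ξ) y)| ∂(MX.unif K)

end Pool.Agent.UK
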