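import Pool.Agent.UK.GB

/-!
# UK-GH: slices containing many vectors

PLAN.  `Hs_meas`: closed: `X = {x | InB π b x, ‖x‖ ≤ σ R, σ/2 ≤ <θ, x>}` is compact, `y - bl π b y ∈ K + (-X)` (compact sum, continuous preimage).
`Hs_one`: `x = bl π b y`.  `Hs_mono`: multiply `x` by `σ'/σ` (`y - bl π b y ∈ K` by `BU.shrink`, convexity).  `Hs_mid`: `a ∈ Hs σ` with the vector `x`, `c ∈ K`: for `(a + c)/2` take
`x/2` (`c - bl π b c ∈ K`, convexity; linearity of `bl`).  `HF`: induction over `F`: `LC (unif K)` for `A = ⋂_{θ ∈ F} Hs (2^(-|F|)) θ ∩ K`,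
`B = Hs (2^(-|F|)) θ'` (contains `Hs 1 θ'`), midpoints in `⋂_{F ∪ {θ'}} Hs (2^(-|F|-1))`; `P(A) ≥ η`, `P(B) ≥ η`, so `P(C) ≥ η`.
-/

set_option autoImplicit false

open MeasureTheory Set
open scoped ENNReal NNReal

namespace Pool.Agent.UK

open Pool.Agent.CB Pool.Agent.UB

variable {n k : ℕ} {π : Fin n → Fin n} {K : Set (V n)}

private theorem gh_inb_smul {b : Fin n} {x : V n} (hx : InB π b x) (c : ℝ) :
    InB π b (c • x) := by
  intro i hi
  rw [PiLp.smul_apply, hx i hi, smul_zero]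

private theorem gh_sub_mem (hK : BU k π K) (b : Fin n) {y : V n} (hy : y ∈ K) :
    y - bl π b y ∈ K := by
  have h1 := hK.shrink b hy (s := 0) (by rw [abs_zero]; exact zero_le_one)
  rwa [zero_smul, add_zero] at h1

private theorem gh_closed_inb (b : Fin n) : IsClosed {x : V n | InB π b x} := by
  have h1 : {x : V n | InB π b x} = ⋂ i : Fin n, ⋂ _ : π i ≠ b, {x : V n | x i = 0} := by
    ext x
    simp only [mem_setOf_eq, mem_iInter]
    rfl
  rw [h1]
  refine isClosed_iInter fun i => isClosed_iInter fun _ => ?_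
  exact isClosed_eq (by fun_prop) continuous_const

theorem Hs_meas (hK : BU k π K) (b : Fin n) (R σ : ℝ) (θ : V n) :
    MeasurableSet (Hs π b K R σ θ) := by
  have hX : IsCompact (Metric.closedBall (0 : V n) (σ * R) ∩ ({x : V n | InB π b x} ∩
      {x : V n | σ / 2 ≤ (inner ℝ θ x : ℝ)})) := by
    refine (isCompact_closedBall _ _).inter_right (IsClosed.inter (gh_closed_inb b) ?_)
    exact isClosed_le continuous_const (by fun_prop)
  have h2 := ((hK.compact.prod hX).image (f := fun z : V n × V n => z.1 - z.2)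
    (continuous_fst.sub continuous_snd)).isClosed
  have h3 : Hs π b K R σ θ = K ∩ ((fun y : V n => y - bl π b y) ⁻¹'
      ((fun z : V n × V n => z.1 - z.2) '' (K ×ˢ (Metric.closedBall (0 : V n) (σ * R) ∩
      ({x : V n | InB π b x} ∩ {x : V n | σ / 2 ≤ (inner ℝ θ x : ℝ)}))))) := by
    ext y
    constructor
    · rintro ⟨hy, x, h1, h2, h3, h4⟩
      refine ⟨hy, (y - bl π b y + x, x), ⟨h4, ?_, h1, h3⟩, ?_⟩
      · rw [Metric.mem_closedBall, dist_zero_right]
        exact h2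
      · show y - bl π b y + x - x = y - bl π b y
        abel
    · rintro ⟨hy, ⟨c, x⟩, ⟨hc, h2, h1, h3⟩, h4⟩
      rw [Metric.mem_closedBall, dist_zero_right] at h2
      refine ⟨hy, x, h1, h2, h3, ?_⟩
      have h5 : c - x = y - bl π b y := h4
      rw [← h5, sub_add_cancel]
      exact hc
  rw [h3]
  exact hK.compact.measurableSet.inter
    (h2.preimage (continuous_id.sub (continuous_bl π b))).measurableSet

theorem Hs_one (hK : BU k π K) (b : Fin n) {R : ℝ} {θ : V n} (hθ : InB π b θ) {y : V n}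
    (hy : y ∈ K) (h1 : 1 / 2 ≤ (inner ℝ θ y : ℝ)) (h2 : ‖bl π b y‖ ≤ R) :
    y ∈ Hs π b K R 1 θ := by
  refine ⟨hy, bl π b y, inb_bl π b y, ?_, ?_, ?_⟩
  · rw [one_mul]
    exact h2
  · rw [← inner_bl hθ]
    exact h1
  · rw [sub_add_cancel]
    exact hy

theorem Hs_mono (hK : BU k π K) (b : Fin n) {R σ σ' : ℝ} (h0 : 0 ≤ σ') (h : σ' ≤ σ) (θ : V n) :
    Hs π b K R σ θ ⊆ Hs π b K R σ' θ := by
  rcases (h0.trans h).eq_or_lt with hσ | hσ
  · have h1 : σ' = σ := le_antisymm h (by rw [← hσ]; exact h0)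
    rw [h1]
  rintro y ⟨hy, x, hx, hx1, hx2, hx3⟩
  have ht0 : 0 ≤ σ' / σ := div_nonneg h0 hσ.le
  have ht1 : σ' / σ ≤ 1 := (div_le_one hσ).2 h
  refine ⟨hy, (σ' / σ) • x, gh_inb_smul hx _, ?_, ?_, ?_⟩
  · rw [norm_smul, Real.norm_eq_abs, abs_of_nonneg ht0]
    calc σ' / σ * ‖x‖ ≤ σ' / σ * (σ * R) := mul_le_mul_of_nonneg_left hx1 ht0
      _ = σ' * R := by
        field_simp
  · rw [inner_smul_right]
    calc σ' / 2 = σ' / σ * (σ / 2) := by
          field_simp
      _ ≤ σ' / σ * (inner ℝ θ x : ℝ) := mul_le_mul_of_nonneg_left hx2 ht0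
  · have h3 := hK.convex (gh_sub_mem hK b hy) hx3 (a := 1 - σ' / σ) (b := σ' / σ) (by linarith)
      ht0 (by ring)
    have h4 : (1 - σ' / σ) • (y - bl π b y) + (σ' / σ) • (y - bl π b y + x) =
        y - bl π b y + (σ' / σ) • x := by
      module
    rwa [h4] at h3

theorem Hs_mid (hK : BU k π K) (b : Fin n) {R σ : ℝ} {θ : V n} {a c : V n}
    (ha : a ∈ Hs π b K R σ θ) (hc : c ∈ K) :
    (1 / 2 : ℝ) • (a + c) ∈ Hs π b K R (σ / 2) θ := by
  obtain ⟨ha0, x, hx, hx1, hx2, hx3⟩ := ha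
  refine ⟨?_, (1 / 2 : ℝ) • x, gh_inb_smul hx _, ?_, ?_, ?_⟩
  · rw [smul_add]
    exact hK.convex ha0 hc (by norm_num) (by norm_num) (by norm_num)
  · rw [norm_smul, Real.norm_eq_abs, abs_of_pos (by norm_num)]
    linarith
  · rw [inner_smul_right]
    linarith
  · have h3 := hK.convex hx3 (gh_sub_mem hK b hc) (a := 1 / 2) (b := 1 / 2) (by norm_num)
      (by norm_num) (by norm_num)
    have h4 : (1 / 2 : ℝ) • (a - bl π b a + x) + (1 / 2 : ℝ) • (c - bl π b c) =
        (1 / 2 : ℝ) • (a + c) - bl π b ((1 / 2 : ℝ) • (a + c)) + (1 / 2 : ℝ) • x := by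
      rw [bl_smul, bl_add]
      module
    rwa [h4] at h3

private theorem gh_meas (hK : BU k π K) (b : Fin n) (R σ : ℝ) (F : Finset (V n)) :
    MeasurableSet {y | y ∈ K ∧ ∀ θ ∈ F, y ∈ Hs π b K R σ θ} := by
  have h1 : {y | y ∈ K ∧ ∀ θ ∈ F, y ∈ Hs π b K R σ θ} =
      K ∩ ⋂ θ ∈ F, Hs π b K R σ θ := by
    ext y
    simp only [mem_setOf_eq, mem_inter_iff, mem_iInter]
  rw [h1]
  exact hK.compact.measurableSet.inter (Finset.measurableSet_biInter F fun θ _ =>
    Hs_meas hK b R σ θ)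

theorem HF (hK : BU k π K) (b : Fin n) {R η : ℝ} (hη : 0 ≤ η) (hη1 : η ≤ 1)
    (F : Finset (V n)) (h : ∀ θ ∈ F, η ≤ (MX.unif K).real (Hs π b K R 1 θ)) :
    η ≤ (MX.unif K).real {y | y ∈ K ∧ ∀ θ ∈ F, y ∈ Hs π b K R ((1 / 2) ^ F.card) θ} := by
  classical
  have hP := hK.toSB.prob
  have hLC : LC (MX.unif K) := lc_unif_gen hK.compact.measurableSet hK.convex
  induction F using Finset.induction_on with
  | empty =>
    have h1 : {y : V n | y ∈ K ∧ ∀ θ ∈ (∅ : Finset (V n)),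
        y ∈ Hs π b K R ((1 / 2) ^ (∅ : Finset (V n)).card) θ} =ᵐ[MX.unif K] (univ : Set (V n)) := by
      rw [ae_eq_univ]
      refine measure_mono_null (t := Kᶜ) (fun y hy hyK => ?_) ?_
      · refine hy ⟨hyK, fun θ hθ => absurd hθ (Finset.notMem_empty _)⟩
      · have := hK.toSB.ae_mem
        rwa [ae_iff] at this
    rw [Measure.real, measure_congr h1, measure_univ, ENNReal.toReal_one]
    exact hη1
  | insert θ' F hF ih =>
    have hA := ih fun θ hθ => h θ (Finset.mem_insert_of_mem hθ)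
    have hs0 : (0 : ℝ) ≤ (1 / 2) ^ F.card := by positivity
    have hs1 : (1 / 2 : ℝ) ^ F.card ≤ 1 := pow_le_one₀ (by norm_num) (by norm_num)
    have hB : η ≤ (MX.unif K).real (Hs π b K R ((1 / 2) ^ F.card) θ') :=
      (h θ' (Finset.mem_insert_self _ _)).trans (measureReal_mono (Hs_mono hK b hs0 hs1 θ'))
    rw [Finset.card_insert_of_notMem hF]
    have hmid := hLC {y | y ∈ K ∧ ∀ θ ∈ F, y ∈ Hs π b K R ((1 / 2) ^ F.card) θ}
      (Hs π b K R ((1 / 2) ^ F.card) θ')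
      {y | y ∈ K ∧ ∀ θ ∈ insert θ' F, y ∈ Hs π b K R ((1 / 2) ^ (F.card + 1)) θ}
      (gh_meas hK b R _ F) (Hs_meas hK b R _ θ') (gh_meas hK b R _ (insert θ' F)) (by
        rintro a ⟨ha, ha'⟩ c hc
        have e1 : (1 / 2 : ℝ) ^ (F.card + 1) = (1 / 2) ^ F.card / 2 := by
          rw [pow_succ]
          ring
        refine ⟨?_, ?_⟩
        · rw [smul_add]
          exact hK.convex ha hc.1 (by norm_num) (by norm_num) (by norm_num)
        · intro θ hθ
          rw [e1]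
          rcases Finset.mem_insert.1 hθ with h1 | h1
          · rw [h1, add_comm a c]
            exact Hs_mid hK b hc ha
          · exact Hs_mid hK b (ha' θ h1) hc.1)
    have h5 := ENNReal.toReal_mono (ENNReal.pow_ne_top (measure_ne_top _ _)) hmid
    rw [ENNReal.toReal_mul, ENNReal.toReal_pow] at h5
    have h6 : η ^ 2 ≤ (MX.unif K).real
        {y | y ∈ K ∧ ∀ θ ∈ insert θ' F, y ∈ Hs π b K R ((1 / 2) ^ (F.card + 1)) θ} ^ 2 := by
      refine le_trans ?_ h5
      rw [sq]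
      exact mul_le_mul hA hB hη (hη.trans hA)
    exact (pow_le_pow_iff_left₀ hη measureReal_nonneg two_ne_zero).1 h6

end Pool.Agent.UK
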