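import Pool.Agent.UK.GB

/-!
# UK-GHB: a ball in the slice

PLAN.  Suppose `p = y - bl π b y + v ∉ K`.  `geometric_hahn_banach_closed_point`: `f a < u < f p` for `a ∈ K`.  `f = <g, ·>` (Riesz:
`(InnerProductSpace.toDual ℝ _).symm f`), `w = bl π b g`.  For every `x` of the block with `y - bl π b y + x ∈ K`: `<w, x> < <w, v> ≤ ‖w‖ σ/4`.
`x = 0` is allowed (`BU.shrink`), so `w ≠ 0`; `θ = w/‖w‖`, `θ' ∈ F` with `‖θ - θ'‖ ≤ 1/(4R)`, and the `x` of `Hs` for `θ'`: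
`<θ, x> ≥ <θ', x> - ‖x‖/(4R) ≥ σ/2 - σ/4 = σ/4`, contradiction.
-/

set_option autoImplicit false

open MeasureTheory Set
open scoped ENNReal NNReal

namespace Pool.Agent.UK

open Pool.Agent.CB Pool.Agent.UB

theorem ball_slice {n k : ℕ} {π : Fin n → Fin n} {K : Set (V n)} (hK : BU k π K) (b : Fin n)
    {R σ : ℝ} (hR : 0 < R) (hσ : 0 < σ) {F : Finset (V n)}
    (hF : ∀ θ : V n, UV π b θ → ∃ θ' ∈ F, ‖θ - θ'‖ ≤ 1 / (4 * R)) {y : V n} (hy : y ∈ K)
    (h : ∀ θ ∈ F, y ∈ Hs π b K R σ θ) : y ∈ Gs π b K (σ / 4) := by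
  refine ⟨hy, fun v hv hvn => ?_⟩
  by_contra hp
  obtain ⟨f, u, hfu, hup⟩ :=
    geometric_hahn_banach_closed_point hK.convex hK.compact.isClosed hp
  obtain ⟨g, hg⟩ : ∃ g : V n, ∀ a, f a = (inner ℝ g a : ℝ) := by
    refine ⟨(InnerProductSpace.toDual ℝ (V n)).symm f, fun a => ?_⟩
    rw [InnerProductSpace.toDual_symm_apply]
  set w := bl π b g with hw
  have hwx : ∀ x : V n, InB π b x → (inner ℝ g x : ℝ) = inner ℝ w x := by
    intro x hx
    rw [real_inner_comm, inner_bl hx g, real_inner_comm]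
  have key : ∀ x : V n, InB π b x → y - bl π b y + x ∈ K →
      (inner ℝ w x : ℝ) < inner ℝ w v := by
    intro x hx hxK
    have h1 := (hfu _ hxK).trans hup
    rw [hg, hg, inner_add_right, inner_add_right, hwx x hx, hwx v hv] at h1
    linarith
  have hwv : (inner ℝ w v : ℝ) ≤ ‖w‖ * (σ / 4) :=
    (real_inner_le_norm w v).trans (mul_le_mul_of_nonneg_left hvn (norm_nonneg w))
  have h0 : (0 : ℝ) < inner ℝ w v := by
    have h1 := hK.shrink b hy (s := 0) (by simp)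
    rw [zero_smul] at h1
    have h2 := key 0 (fun i _ => by simp) h1
    rwa [inner_zero_right] at h2
  have hwn : 0 < ‖w‖ := by
    rcases (norm_nonneg w).eq_or_lt with h1 | h1
    · rw [← h1, zero_mul] at hwv
      linarith
    · exact h1
  have hUV : UV π b (‖w‖⁻¹ • w) := by
    refine ⟨?_, ?_⟩
    · rw [norm_smul, norm_inv, norm_norm, inv_mul_cancel₀ hwn.ne']
    · intro i hi
      have : w i = 0 := inb_bl π b g i hi
      simp [this]
  obtain ⟨θ', hθF, hθ⟩ := hF _ hUV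
  obtain ⟨-, x, hx, hxn, hxi, hxK⟩ := h θ' hθF
  have h1 := key x hx hxK
  have h2 : (inner ℝ (‖w‖⁻¹ • w - θ') x : ℝ) ≥ -(σ / 4) := by
    have h3 := abs_real_inner_le_norm (‖w‖⁻¹ • w - θ') x
    have h4 : ‖‖w‖⁻¹ • w - θ'‖ * ‖x‖ ≤ 1 / (4 * R) * (σ * R) :=
      mul_le_mul hθ hxn (norm_nonneg _) (by positivity)
    have h5 : 1 / (4 * R) * (σ * R) = σ / 4 := by field_simp
    have h6 := (abs_le.1 (h3.trans (h4.trans_eq h5))).1
    exact h6
  rw [inner_sub_left, real_inner_smul_left] at h2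
  have h3 : ‖w‖⁻¹ * (inner ℝ w x : ℝ) ≥ σ / 4 := by linarith
  have h4 : ‖w‖ * (σ / 4) ≤ inner ℝ w x := by
    have h5 := mul_le_mul_of_nonneg_left h3.le hwn.le
    rwa [← mul_assoc, mul_inv_cancel₀ hwn.ne', one_mul] at h5
  linarith

end Pool.Agent.UK
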