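import Mathlib

/-!
# UK-GL1: midpoint log-concave functions on the half line
-/

set_option autoImplicit false

namespace Pool.Agent.UK

theorem lcs {S : ℝ → ℝ} (h0 : S 0 = 1) (hn : ∀ s, 0 ≤ s → 0 ≤ S s)
    (ha : ∀ s t, 0 ≤ s → s ≤ t → S t ≤ S s)
    (hm : ∀ s t, 0 ≤ s → 0 ≤ t → S s * S t ≤ S ((s + t) / 2) ^ 2) {c η : ℝ} (hc : 0 < c)
    (hη : 0 < η) (h : η ≤ S c) {s : ℝ} (hs : 0 ≤ s) :
    1 - S s ≤ (2 * Real.log (1 / η) + 1) / c * s := by
  have hη1 : η ≤ 1 := by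
    refine h.trans ?_
    rw [← h0]
    exact ha 0 c le_rfl hc.le
  have hL : 0 ≤ Real.log (1 / η) := by
    refine Real.log_nonneg ?_
    rw [le_div_iff₀ hη]
    linarith
  have hLe : Real.log η = -Real.log (1 / η) := by
    rw [one_div, Real.log_inv, neg_neg]
  rcases hs.eq_or_lt with hs0 | hs0
  · rw [← hs0, h0]
    simp
  have hq : (2 * Real.log (1 / η) + 1) / c * s = (2 * Real.log (1 / η) + 1) * (s / c) := by
    ring
  rw [hq]
  rcases le_or_gt c s with hcs | hcs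
  · have h1 : 1 ≤ s / c := by
      rw [le_div_iff₀ hc]
      linarith
    have h2 := hn s hs
    nlinarith
  have hsc0 : 0 < s / c := div_pos hs0 hc
  have hsc1 : s / c ≤ 1 := by
    rw [div_le_iff₀ hc]
    linarith
  obtain ⟨j, hj1, hj2⟩ := exists_nat_pow_near_of_lt_one hsc0 hsc1
    (by norm_num : (0 : ℝ) < 1 / 2) (by norm_num : (1 / 2 : ℝ) < 1)
  have key : ∀ j : ℕ, Real.exp (-((1 / 2 : ℝ) ^ j * Real.log (1 / η))) ≤
      S (c * (1 / 2 : ℝ) ^ j) := by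
    intro j
    induction j with
    | zero =>
      rw [pow_zero, one_mul, ← hLe, Real.exp_log hη, mul_one]
      exact h
    | succ j ih =>
      have hp : (0 : ℝ) ≤ c * (1 / 2 : ℝ) ^ (j + 1) := by positivity
      have hp' : (0 : ℝ) ≤ c * (1 / 2 : ℝ) ^ j := by positivity
      have h1 := hm 0 (c * (1 / 2 : ℝ) ^ j) le_rfl hp'
      have h2 : (0 + c * (1 / 2 : ℝ) ^ j) / 2 = c * (1 / 2 : ℝ) ^ (j + 1) := by
        rw [pow_succ]
        ring
      rw [h0, one_mul, h2] at h1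
      have h3 : Real.exp (-((1 / 2 : ℝ) ^ (j + 1) * Real.log (1 / η))) ^ 2 =
          Real.exp (-((1 / 2 : ℝ) ^ j * Real.log (1 / η))) := by
        rw [← Real.exp_nat_mul]
        congr 1
        rw [pow_succ]
        push_cast
        ring
      have h4 : Real.exp (-((1 / 2 : ℝ) ^ (j + 1) * Real.log (1 / η))) ^ 2 ≤
          S (c * (1 / 2 : ℝ) ^ (j + 1)) ^ 2 := by
        rw [h3]
        exact ih.trans h1
      exact (sq_le_sq₀ (Real.exp_pos _).le (hn _ hp)).1 h4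
  have hsj : s ≤ c * (1 / 2 : ℝ) ^ j := by
    rw [div_le_iff₀ hc] at hj2
    linarith
  have h1 : S (c * (1 / 2 : ℝ) ^ j) ≤ S s := ha s _ hs hsj
  have h2 : 1 - (1 / 2 : ℝ) ^ j * Real.log (1 / η) ≤
      Real.exp (-((1 / 2 : ℝ) ^ j * Real.log (1 / η))) := by
    have := Real.add_one_le_exp (-((1 / 2 : ℝ) ^ j * Real.log (1 / η)))
    linarith
  have h3 : (1 / 2 : ℝ) ^ j ≤ 2 * (s / c) := by
    rw [pow_succ] at hj1
    linarith
  have h4 : (1 / 2 : ℝ) ^ j * Real.log (1 / η) ≤ 2 * (s / c) * Real.log (1 / η) :=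
    mul_le_mul_of_nonneg_right h3 hL
  have h5 := key j
  nlinarith

end Pool.Agent.UK
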