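import Pool.Agent.UK.GS2
import Pool.Agent.UK.GU

/-!
# UK-GLow: lower bound for boxes

PLAN.  `η₀` from `pz`, `C` from `tailK 2`, `R ≥ 1` with `m C / R² ≤ η₀/2`.  So `P(1/2 ≤ U_t, |U_b| ≤ R (b ∈ T)) ≥ η₀/2`.  Then for `S ⊆ T` by induction over `S`:
`P(1/2 ≤ U_t, |U_b| ≤ s_b (b ∈ S), |U_b| ≤ R (b ∈ T \ S)) ≥ (η₀/2) ∏_{b ∈ S} (s_b / (2R))`: `fd_big` with
`D = {1/2 ≤ U_t} ∩ {|U_c| ≤ s_c (c ∈ S)} ∩ {|U_c| ≤ R (c ∈ T \ S, c ≠ b)}`, convex, invariant under the flip of `b` (`inner_fl_ne`; `b ≠ t`).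
`c = (η₀/2) (1/(2R))^m`.
-/

set_option autoImplicit false

open MeasureTheory Set
open scoped ENNReal NNReal

namespace Pool.Agent.UK

open Pool.Agent.CB Pool.Agent.UB

private theorem fd_box {n : ℕ} {π : Fin n → Fin n} {θ : Fin n → V n} {T : Finset (Fin n)}
    {t b : Fin n} (ht : t ∉ T) (hb : b ∈ T) (hθ : ∀ b ∈ T, UV π b (θ b)) (hθt : UV π t (θ t))
    (r : Fin n → ℝ) :
    FD π b {y | 1 / 2 ≤ (inner ℝ (θ t) y : ℝ) ∧
      ∀ c ∈ T, c ≠ b → |(inner ℝ (θ c) y : ℝ)| ≤ r c} := by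
  refine ⟨?_, ?_, ?_⟩
  · have h1 : {y : V n | 1 / 2 ≤ (inner ℝ (θ t) y : ℝ) ∧
        ∀ c ∈ T, c ≠ b → |(inner ℝ (θ c) y : ℝ)| ≤ r c} =
        {y | 1 / 2 ≤ (inner ℝ (θ t) y : ℝ)} ∩
          ⋂ c ∈ T.erase b, {y | |(inner ℝ (θ c) y : ℝ)| ≤ r c} := by
      ext y
      simp only [mem_setOf_eq, mem_inter_iff, mem_iInter, Finset.mem_erase]
      constructor
      · rintro ⟨h1, h2⟩
        exact ⟨h1, fun c hc => h2 c hc.2 hc.1⟩
      · rintro ⟨h1, h2⟩
        exact ⟨h1, fun c hc hcb => h2 c ⟨hcb, hc⟩⟩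
    rw [h1]
    refine MeasurableSet.inter ?_ ?_
    · exact (isClosed_le continuous_const (by fun_prop)).measurableSet
    · refine Finset.measurableSet_biInter _ ?_
      intro c _
      exact (isClosed_le (by fun_prop) continuous_const).measurableSet
  · intro x hx y hy u v hu hv huv
    refine ⟨?_, ?_⟩
    · have hx1 := hx.1
      have hy1 := hy.1
      rw [inner_add_right, inner_smul_right, inner_smul_right]
      nlinarith
    · intro c hc hcb
      have hx1 := hx.2 c hc hcb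
      have hy1 := hy.2 c hc hcb
      rw [inner_add_right, inner_smul_right, inner_smul_right]
      calc |u * (inner ℝ (θ c) x : ℝ) + v * (inner ℝ (θ c) y : ℝ)|
          ≤ |u * (inner ℝ (θ c) x : ℝ)| + |v * (inner ℝ (θ c) y : ℝ)| := abs_add_le _ _
        _ = u * |(inner ℝ (θ c) x : ℝ)| + v * |(inner ℝ (θ c) y : ℝ)| := by
            rw [abs_mul, abs_mul, abs_of_nonneg hu, abs_of_nonneg hv]
        _ ≤ u * r c + v * r c :=
            add_le_add (mul_le_mul_of_nonneg_left hx1 hu) (mul_le_mul_of_nonneg_left hy1 hv)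
        _ = r c := by rw [← add_mul, huv, one_mul]
  · intro y hy
    refine ⟨?_, ?_⟩
    · have h1 : t ≠ b := fun h => ht (h ▸ hb)
      rw [inner_fl_ne h1 hθt.inb]
      exact hy.1
    · intro c hc hcb
      rw [inner_fl_ne hcb (hθ c hc).inb]
      exact hy.2 c hc hcb

theorem boxlow (m : ℕ) : ∃ c : ℝ, 0 < c ∧ ∀ (k n : ℕ) (π : Fin n → Fin n) (K : Set (V n)),
    BU k π K → Iso K → ∀ (θ : Fin n → V n) (T : Finset (Fin n)) (t : Fin n) (s : Fin n → ℝ),
    T.card ≤ m → t ∉ T → (∀ b ∈ T, UV π b (θ b)) → UV π t (θ t) → (∀ b ∈ T, 0 < s b) →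
    (∀ b ∈ T, s b ≤ 1) →
    c * ∏ b ∈ T, s b ≤ (MX.unif K).real
      {y | 1 / 2 ≤ (inner ℝ (θ t) y : ℝ) ∧ ∀ b ∈ T, |(inner ℝ (θ b) y : ℝ)| ≤ s b} := by
  obtain ⟨η, hη, hpz⟩ := pz
  obtain ⟨C, hC, htail⟩ := tailK 2
  obtain ⟨R, hR1, hRm⟩ : ∃ R : ℝ, 1 ≤ R ∧ (m : ℝ) * (C / R ^ 2) ≤ η / 2 := by
    have hq : 0 ≤ 2 * (m : ℝ) * C / η := by positivity
    refine ⟨1 + 2 * (m : ℝ) * C / η, by linarith, ?_⟩
    have hR1 : 1 ≤ 1 + 2 * (m : ℝ) * C / η := by linarith
    have hR0 : 0 < 1 + 2 * (m : ℝ) * C / η := by linarith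
    have h1 : (m : ℝ) * C ≤ η / 2 * (1 + 2 * (m : ℝ) * C / η) := by
      have h2 : η / 2 * (1 + 2 * (m : ℝ) * C / η) = η / 2 + (m : ℝ) * C := by
        field_simp
      rw [h2]
      linarith
    rw [← mul_div_assoc, div_le_iff₀ (by positivity)]
    refine h1.trans ?_
    refine mul_le_mul_of_nonneg_left ?_ (by linarith)
    nlinarith
  have hR0 : 0 < R := by linarith
  refine ⟨η / 2 * (1 / (2 * R)) ^ m, by positivity, ?_⟩
  intro k n π K hK hI θ T t s hTm ht hθ hθt hs0 hs1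
  haveI : IsProbabilityMeasure (MX.unif K) := isProb_unif hK.compact hK.nonempty
  have hSB : SB K := hK.toSB
  -- the base case
  have hbase : η / 2 ≤ (MX.unif K).real
      {y | 1 / 2 ≤ (inner ℝ (θ t) y : ℝ) ∧ ∀ b ∈ T, |(inner ℝ (θ b) y : ℝ)| ≤ R} := by
    have h1 := hpz n K hSB hI (θ t) hθt.norm
    have h2 : {y | 1 / 2 ≤ (inner ℝ (θ t) y : ℝ)} ⊆
        {y | 1 / 2 ≤ (inner ℝ (θ t) y : ℝ) ∧ ∀ b ∈ T, |(inner ℝ (θ b) y : ℝ)| ≤ R} ∪
          ⋃ b ∈ T, {y | R < |(inner ℝ (θ b) y : ℝ)|} := by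
      intro y hy
      by_cases hall : ∀ b ∈ T, |(inner ℝ (θ b) y : ℝ)| ≤ R
      · exact Or.inl ⟨hy, hall⟩
      · right
        push Not at hall
        obtain ⟨b, hb, hbR⟩ := hall
        exact mem_biUnion hb hbR
    have h3 : (MX.unif K).real {y | 1 / 2 ≤ (inner ℝ (θ t) y : ℝ)} ≤
        (MX.unif K).real
          {y | 1 / 2 ≤ (inner ℝ (θ t) y : ℝ) ∧ ∀ b ∈ T, |(inner ℝ (θ b) y : ℝ)| ≤ R} +
        ∑ b ∈ T, (MX.unif K).real {y | R < |(inner ℝ (θ b) y : ℝ)|} := by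
      refine (measureReal_mono h2).trans ((measureReal_union_le _ _).trans ?_)
      exact add_le_add le_rfl (measureReal_biUnion_finset_le _ _)
    have h4 : ∑ b ∈ T, (MX.unif K).real {y | R < |(inner ℝ (θ b) y : ℝ)|} ≤
        (m : ℝ) * (C / R ^ 2) := by
      calc ∑ b ∈ T, (MX.unif K).real {y | R < |(inner ℝ (θ b) y : ℝ)|}
          ≤ ∑ _b ∈ T, C / R ^ 2 :=
            Finset.sum_le_sum fun b hb => htail n K hSB hI (θ b) R (hθ b hb).norm hR0
        _ = (T.card : ℝ) * (C / R ^ 2) := by rw [Finset.sum_const, nsmul_eq_mul]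
        _ ≤ (m : ℝ) * (C / R ^ 2) :=
            mul_le_mul_of_nonneg_right (by exact_mod_cast hTm) (by positivity)
    linarith
  -- the induction
  have key : ∀ S : Finset (Fin n), S ⊆ T → η / 2 * ∏ b ∈ S, (s b / (2 * R)) ≤
      (MX.unif K).real {y | 1 / 2 ≤ (inner ℝ (θ t) y : ℝ) ∧
        ∀ b ∈ T, |(inner ℝ (θ b) y : ℝ)| ≤ if b ∈ S then s b else R} := by
    intro S
    induction S using Finset.induction_on with
    | empty =>
      intro _
      simpa using hbase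
    | insert b S hbS ih =>
      intro hS
      have hbT : b ∈ T := hS (Finset.mem_insert_self b S)
      have hih := ih ((Finset.subset_insert b S).trans hS)
      have hFD := fd_box ht hbT hθ hθt (fun c => if c ∈ S then s c else R)
      have hbig := fd_big hK hFD (hθ b hbT).inb (hs0 b hbT) ((hs1 b hbT).trans hR1)
      have hset1 : {y : V n | 1 / 2 ≤ (inner ℝ (θ t) y : ℝ) ∧
            ∀ c ∈ T, |(inner ℝ (θ c) y : ℝ)| ≤ if c ∈ S then s c else R} =
          {y | 1 / 2 ≤ (inner ℝ (θ t) y : ℝ) ∧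
            ∀ c ∈ T, c ≠ b → |(inner ℝ (θ c) y : ℝ)| ≤ (fun c => if c ∈ S then s c else R) c} ∩
          {y | |(inner ℝ (θ b) y : ℝ)| ≤ R} := by
        ext y
        simp only [mem_setOf_eq, mem_inter_iff]
        constructor
        · rintro ⟨h1, h2⟩
          refine ⟨⟨h1, fun c hc _ => h2 c hc⟩, ?_⟩
          have := h2 b hbT
          rwa [if_neg hbS] at this
        · rintro ⟨⟨h1, h2⟩, h3⟩
          refine ⟨h1, fun c hc => ?_⟩
          by_cases hcb : c = b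
          · rw [hcb, if_neg hbS]
            exact h3
          · exact h2 c hc hcb
      have hset2 : {y : V n | 1 / 2 ≤ (inner ℝ (θ t) y : ℝ) ∧
            ∀ c ∈ T, |(inner ℝ (θ c) y : ℝ)| ≤ if c ∈ insert b S then s c else R} =
          {y | 1 / 2 ≤ (inner ℝ (θ t) y : ℝ) ∧
            ∀ c ∈ T, c ≠ b → |(inner ℝ (θ c) y : ℝ)| ≤ (fun c => if c ∈ S then s c else R) c} ∩
          {y | |(inner ℝ (θ b) y : ℝ)| ≤ s b} := by
        ext y
        simp only [mem_setOf_eq, mem_inter_iff]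
        constructor
        · rintro ⟨h1, h2⟩
          refine ⟨⟨h1, fun c hc hcb => ?_⟩, ?_⟩
          · have := h2 c hc
            simpa only [Finset.mem_insert, hcb, false_or] using this
          · have := h2 b hbT
            rwa [if_pos (Finset.mem_insert_self b S)] at this
        · rintro ⟨⟨h1, h2⟩, h3⟩
          refine ⟨h1, fun c hc => ?_⟩
          by_cases hcb : c = b
          · rw [hcb, if_pos (Finset.mem_insert_self b S)]
            exact h3
          · have := h2 c hc hcb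
            simpa only [Finset.mem_insert, hcb, false_or] using this
      rw [← hset1, ← hset2] at hbig
      rw [Finset.prod_insert hbS]
      have hsb := hs0 b hbT
      have h1 := hih.trans hbig
      have h2 : η / 2 * (s b / (2 * R) * ∏ x ∈ S, s x / (2 * R)) =
          s b / (2 * R) * (η / 2 * ∏ x ∈ S, s x / (2 * R)) := by ring
      rw [h2]
      calc s b / (2 * R) * (η / 2 * ∏ x ∈ S, s x / (2 * R))
          ≤ s b / (2 * R) * (2 * R / s b * (MX.unif K).real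
              {y | 1 / 2 ≤ (inner ℝ (θ t) y : ℝ) ∧
                ∀ c ∈ T, |(inner ℝ (θ c) y : ℝ)| ≤ if c ∈ insert b S then s c else R}) :=
            mul_le_mul_of_nonneg_left h1 (by positivity)
        _ = (MX.unif K).real
              {y | 1 / 2 ≤ (inner ℝ (θ t) y : ℝ) ∧
                ∀ c ∈ T, |(inner ℝ (θ c) y : ℝ)| ≤ if c ∈ insert b S then s c else R} := by
            rw [← mul_assoc]
            have h3 : s b / (2 * R) * (2 * R / s b) = 1 := by
              field_simp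
            rw [h3, one_mul]
  have hfin := key T subset_rfl
  have hset : {y : V n | 1 / 2 ≤ (inner ℝ (θ t) y : ℝ) ∧
        ∀ b ∈ T, |(inner ℝ (θ b) y : ℝ)| ≤ if b ∈ T then s b else R} =
      {y | 1 / 2 ≤ (inner ℝ (θ t) y : ℝ) ∧ ∀ b ∈ T, |(inner ℝ (θ b) y : ℝ)| ≤ s b} := by
    ext y
    simp only [mem_setOf_eq]
    refine and_congr_right fun _ => ?_
    refine forall₂_congr fun b hb => ?_
    rw [if_pos hb]
  rw [hset] at hfin
  refine le_trans ?_ hfin
  have hprod : ∏ b ∈ T, (s b / (2 * R)) = (1 / (2 * R)) ^ T.card * ∏ b ∈ T, s b := by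
    rw [← Finset.prod_const, ← Finset.prod_mul_distrib]
    refine Finset.prod_congr rfl fun b _ => ?_
    ring
  rw [hprod, mul_assoc]
  refine mul_le_mul_of_nonneg_left ?_ (by linarith)
  refine mul_le_mul_of_nonneg_right ?_ (Finset.prod_nonneg fun b hb => (hs0 b hb).le)
  refine pow_le_pow_of_le_one (by positivity) ?_ hTm
  rw [div_le_one (by positivity)]
  linarith

end Pool.Agent.UK
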