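import Pool.Agent.UK.GOv
import Pool.Agent.UK.GCh
import Pool.Agent.UK.GL1

/-!
# UK-GMs: short chords

PLAN.  `t, η` from `overlap k`.  `S = ovl K i`: `lcs` (`c = t`): `1 - S(2h) ≤ C 2h`; `S(4h) = S(0) S(4h) ≤ S(2h)²`; `chord_le`:
`P(hl ≤ h) ≤ 1 - 2 S(2h) + S(2h)² = (1 - S(2h))² ≤ 4 C² h²`.
-/

set_option autoImplicit false

open MeasureTheory Set
open scoped ENNReal NNReal

namespace Pool.Agent.UK

open Pool.Agent.CB Pool.Agent.UB

theorem massK (k : ℕ) : ∃ C : ℝ, 0 ≤ C ∧ ∀ (n : ℕ) (π : Fin n → Fin n) (K : Set (V n)),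
    BU k π K → Iso K → ∀ (i : Fin n) (h : ℝ), 0 ≤ h →
      (MX.unif K).real {y | hl K i y ≤ h} ≤ C * h ^ 2 := by
  obtain ⟨t, η, ht, hη, hov⟩ := overlap k
  refine ⟨4 * ((2 * Real.log (1 / η) + 1) / t) ^ 2, by positivity, ?_⟩
  intro n π K hB hI i h hh
  have hS : SB K := hB.toSB
  have h0 : ovl K i 0 = 1 := ovl_zero hS i
  have hn : ∀ s, 0 ≤ s → 0 ≤ ovl K i s := fun s _ => measureReal_nonneg
  have hle : 1 - ovl K i (2 * h) ≤ (2 * Real.log (1 / η) + 1) / t * (2 * h) :=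
    lcs h0 hn (fun s t hs hst => ovl_anti hS i hs hst) (fun s t _ _ => ovl_mid hS i s t)
      ht hη (hov n π K hB hI i) (by positivity)
  have h1 : ovl K i (2 * h) ≤ 1 := by
    rw [← h0]
    exact ovl_anti hS i le_rfl (by positivity)
  have hmid : ovl K i 0 * ovl K i (4 * h) ≤ ovl K i ((0 + 4 * h) / 2) ^ 2 :=
    ovl_mid hS i 0 (4 * h)
  have he : (0 + 4 * h) / 2 = 2 * h := by ring
  rw [h0, he, one_mul] at hmid
  have hsq : (1 - ovl K i (2 * h)) ^ 2 ≤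
      ((2 * Real.log (1 / η) + 1) / t * (2 * h)) ^ 2 :=
    pow_le_pow_left₀ (by linarith) hle 2
  calc (MX.unif K).real {y | hl K i y ≤ h}
      ≤ 1 - 2 * ovl K i (2 * h) + ovl K i (4 * h) := chord_le hS i hh
    _ ≤ (1 - ovl K i (2 * h)) ^ 2 := by nlinarith [hmid]
    _ ≤ ((2 * Real.log (1 / η) + 1) / t * (2 * h)) ^ 2 := hsq
    _ = 4 * ((2 * Real.log (1 / η) + 1) / t) ^ 2 * h ^ 2 := by ring

end Pool.Agent.UK
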