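import Pool.Agent.UK.GB

/-!
# UK-GNet: nets of the unit spheres of the blocks

PLAN.  `J : V n → V k` = restriction to the block (an injection `{i | π i = b} ↪ Fin k`, extended by `0`): linear, `‖J x‖ = ‖x‖` for `InB π b x`.  The closed unit ball of `V k`
is compact, so it is covered by `M` balls of radius `δ/2` (`M` depends on `k`, `δ` only).  For each ball which contains `J θ` for some unit vector
`θ` of the block choose one such `θ`; these form `F`.
-/

set_option autoImplicit false

open MeasureTheory Set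
open scoped ENNReal NNReal

namespace Pool.Agent.UK

open Pool.Agent.CB Pool.Agent.UB

/-- The integer code of a vector. -/
private noncomputable def code (N : ℕ) {n : ℕ} (x : V n) : Fin n → ℤ := fun i => ⌊(N : ℝ) * x i⌋

/-- Vectors of the block with the same code are close. -/
private theorem close_of_code {n k N : ℕ} {π : Fin n → Fin n} {b : Fin n} {δ : ℝ} (hδ : 0 < δ)
    (hN : (k : ℝ) + 1 ≤ N * δ) (hk : (Finset.univ.filter fun i => π i = b).card ≤ k) {x y : V n}
    (hx : InB π b x) (hy : InB π b y) (h : code N x = code N y) : ‖x - y‖ ≤ δ := by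
  have hN0 : (0 : ℝ) < N := by
    by_contra hcon
    have h1 : (N : ℝ) = 0 := le_antisymm (not_lt.1 hcon) (Nat.cast_nonneg _)
    rw [h1] at hN
    have h2 : (0 : ℝ) ≤ k := Nat.cast_nonneg _
    linarith
  rw [EuclideanSpace.norm_eq]
  apply Real.sqrt_le_iff.2
  refine ⟨hδ.le, ?_⟩
  have h1 : ∀ i : Fin n, ‖(x - y) i‖ ^ 2 ≤ if π i = b then (1 / (N : ℝ)) ^ 2 else 0 := by
    intro i
    split_ifs with hi
    · have h2 : (⌊(N : ℝ) * x i⌋ : ℤ) = ⌊(N : ℝ) * y i⌋ := congrFun h i
      have h3 := Int.abs_sub_lt_one_of_floor_eq_floor h2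
      have h4 : |(x - y) i| ≤ 1 / (N : ℝ) := by
        rw [le_div_iff₀ hN0]
        have h5 : (N : ℝ) * x i - N * y i = (x - y) i * N := by
          simp only [PiLp.sub_apply]
          ring
        rw [h5, abs_mul, abs_of_pos hN0] at h3
        exact h3.le
      rw [Real.norm_eq_abs]
      exact pow_le_pow_left₀ (abs_nonneg _) h4 2
    · have h2 : (x - y) i = 0 := by
        rw [PiLp.sub_apply, hx i hi, hy i hi, sub_zero]
      rw [h2]
      simp
  calc ∑ i, ‖(x - y) i‖ ^ 2 ≤ ∑ i, (if π i = b then (1 / (N : ℝ)) ^ 2 else 0) :=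
        Finset.sum_le_sum fun i _ => h1 i
    _ = ((Finset.univ.filter fun i => π i = b).card : ℝ) * (1 / (N : ℝ)) ^ 2 := by
        rw [← Finset.sum_filter, Finset.sum_const, nsmul_eq_mul]
    _ ≤ k * (1 / (N : ℝ)) ^ 2 := by
        apply mul_le_mul_of_nonneg_right _ (by positivity)
        exact_mod_cast hk
    _ ≤ δ ^ 2 := by
        have h2 : (0 : ℝ) ≤ k := Nat.cast_nonneg _
        have h3 : (k : ℝ) ≤ (N * δ) ^ 2 := by
          nlinarith
        rw [one_div, inv_pow, ← div_eq_mul_inv, div_le_iff₀ (by positivity)]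
        calc (k : ℝ) ≤ (N * δ) ^ 2 := h3
          _ = δ ^ 2 * N ^ 2 := by ring

theorem net (k : ℕ) {δ : ℝ} (hδ : 0 < δ) : ∃ M : ℕ, ∀ (n : ℕ) (π : Fin n → Fin n) (b : Fin n),
    (Finset.univ.filter fun i => π i = b).card ≤ k →
    ∃ F : Finset (V n), F.card ≤ M ∧ (∀ θ ∈ F, UV π b θ) ∧
      ∀ θ : V n, UV π b θ → ∃ θ' ∈ F, ‖θ - θ'‖ ≤ δ := by
  classical
  obtain ⟨N, hN⟩ := exists_nat_ge (((k : ℝ) + 1) / δ)
  rw [div_le_iff₀ hδ] at hN
  refine ⟨(2 * N + 1) ^ k, ?_⟩
  intro n π b hk
  let T : Finset (Fin n → ℤ) :=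
    Fintype.piFinset fun i : Fin n => if π i = b then Finset.Icc (-(N : ℤ)) N else {0}
  have hT : T.card ≤ (2 * N + 1) ^ k := by
    rw [Fintype.card_piFinset]
    have h1 : ∀ i : Fin n, (if π i = b then Finset.Icc (-(N : ℤ)) N else {0}).card =
        if π i = b then 2 * N + 1 else 1 := by
      intro i
      split_ifs
      · rw [Int.card_Icc]
        omega
      · simp
    rw [Finset.prod_congr rfl fun i _ => h1 i, ← Finset.prod_filter, Finset.prod_const]
    exact Nat.pow_le_pow_right (by omega) hk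
  let S : Finset (Fin n → ℤ) := T.filter fun g => ∃ θ : V n, UV π b θ ∧ code N θ = g
  let r : (Fin n → ℤ) → V n := fun g =>
    if h : ∃ θ : V n, UV π b θ ∧ code N θ = g then h.choose else 0
  have hr : ∀ g, (∃ θ : V n, UV π b θ ∧ code N θ = g) → UV π b (r g) ∧ code N (r g) = g := by
    intro g hg
    have h1 : r g = hg.choose := dif_pos hg
    rw [h1]
    exact hg.choose_spec
  refine ⟨S.image r, ?_, ?_, ?_⟩
  · exact (Finset.card_image_le.trans (Finset.card_filter_le _ _)).trans hT
  · intro θ hθ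
    obtain ⟨g, hg, rfl⟩ := Finset.mem_image.1 hθ
    exact (hr g (Finset.mem_filter.1 hg).2).1
  · intro θ hθ
    have hex : ∃ θ' : V n, UV π b θ' ∧ code N θ' = code N θ := ⟨θ, hθ, rfl⟩
    obtain ⟨h1, h2⟩ := hr (code N θ) hex
    refine ⟨r (code N θ), Finset.mem_image.2 ⟨code N θ, Finset.mem_filter.2 ⟨?_, hex⟩, rfl⟩, ?_⟩
    · rw [Fintype.mem_piFinset]
      intro i
      split_ifs with hi
      · have h3 : |θ i| ≤ 1 := by
          have h4 := PiLp.norm_apply_le θ i
          rw [hθ.norm, Real.norm_eq_abs] at h4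
          exact h4
        obtain ⟨h4, h5⟩ := abs_le.1 h3
        have hN0 : (0 : ℝ) ≤ N := Nat.cast_nonneg _
        rw [Finset.mem_Icc]
        refine ⟨?_, ?_⟩
        · apply Int.le_floor.2
          push_cast
          nlinarith
        · have h6 : (⌊(N : ℝ) * θ i⌋ : ℝ) ≤ N := (Int.floor_le _).trans (by nlinarith)
          exact_mod_cast h6
      · rw [Finset.mem_singleton]
        change ⌊(N : ℝ) * θ i⌋ = 0
        rw [hθ.inb i hi, mul_zero, Int.floor_zero]
    · exact close_of_code hδ hN hk hθ.inb h1.inb h2.symm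

end Pool.Agent.UK
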