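import Mathlib

/-!
# UK-GRt: the inverse square root of a positive definite matrix

The matrix is diagonalised by a unitary matrix; the inverse square root commutes with every matrix which
commutes with the given one, by comparison of entries in the eigenbasis.
-/

set_option autoImplicit false

namespace Pool.Agent.UK

theorem root {n : ℕ} {A : Matrix (Fin n) (Fin n) ℝ} (hA : A.PosDef) :
    ∃ B : Matrix (Fin n) (Fin n) ℝ, B.transpose = B ∧ B * A * B = 1 ∧
      ∀ F : Matrix (Fin n) (Fin n) ℝ, A * F = F * A → B * F = F * B := by
  classical
  obtain ⟨U, lam, hlam, h1, h2, hsp⟩ : ∃ (U : Matrix (Fin n) (Fin n) ℝ) (lam : Fin n → ℝ),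
      (∀ i, 0 < lam i) ∧ star U * U = 1 ∧ U * star U = 1 ∧
        A = U * Matrix.diagonal lam * star U := by
    refine ⟨hA.1.eigenvectorUnitary, hA.1.eigenvalues, hA.eigenvalues_pos,
      Unitary.coe_star_mul_self _, Unitary.coe_mul_star_self _, ?_⟩
    have h := hA.1.spectral_theorem
    rw [Unitary.conjStarAlgAut_apply] at h
    exact h
  have key : ∀ X Y : Matrix (Fin n) (Fin n) ℝ,
      (U * X * star U) * (U * Y * star U) = U * (X * Y) * star U := by
    intro X Y
    calc (U * X * star U) * (U * Y * star U) = U * X * (star U * U) * Y * star U := by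
          simp only [Matrix.mul_assoc]
      _ = U * (X * Y) * star U := by
          rw [h1, Matrix.mul_one]
          simp only [Matrix.mul_assoc]
  let mu : Fin n → ℝ := fun i => (Real.sqrt (lam i))⁻¹
  refine ⟨U * Matrix.diagonal mu * star U, ?_, ?_, ?_⟩
  · have hstar : star (U * Matrix.diagonal mu * star U) = U * Matrix.diagonal mu * star U := by
      rw [star_mul, star_mul, star_star, Matrix.mul_assoc]
      congr 2
      rw [Matrix.star_eq_conjTranspose, Matrix.diagonal_conjTranspose]
      congr 1
    rw [Matrix.star_eq_conjTranspose, Matrix.conjTranspose_eq_transpose_of_trivial] at hstar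
    exact hstar
  · rw [hsp, key, key, Matrix.diagonal_mul_diagonal, Matrix.diagonal_mul_diagonal]
    have : (fun i => mu i * lam i * mu i) = fun _ => (1 : ℝ) := by
      funext i
      have h := Real.mul_self_sqrt (hlam i).le
      have h0 : Real.sqrt (lam i) ≠ 0 := (Real.sqrt_pos.2 (hlam i)).ne'
      show (Real.sqrt (lam i))⁻¹ * lam i * (Real.sqrt (lam i))⁻¹ = 1
      rw [← h]
      field_simp
      rw [Real.sqrt_sq (Real.sqrt_nonneg _)]
    rw [this, Matrix.diagonal_one, Matrix.mul_one, h2]
  · intro F hF
    set G := star U * F * U with hG
    have hFG : F = U * G * star U := by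
      rw [hG]
      calc F = (U * star U) * F * (U * star U) := by rw [h2, Matrix.one_mul, Matrix.mul_one]
        _ = U * (star U * F * U) * star U := by simp only [Matrix.mul_assoc]
    have hcomm : Matrix.diagonal lam * G = G * Matrix.diagonal lam := by
      rw [hsp, hFG, key, key] at hF
      have h3 := congrArg (fun X => star U * X * U) hF
      have h4 : ∀ X : Matrix (Fin n) (Fin n) ℝ, star U * (U * X * star U) * U = X := by
        intro X
        calc star U * (U * X * star U) * U = (star U * U) * X * (star U * U) := by
              simp only [Matrix.mul_assoc]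
          _ = X := by rw [h1, Matrix.one_mul, Matrix.mul_one]
      rw [h4, h4] at h3
      exact h3
    have hcomm' : Matrix.diagonal mu * G = G * Matrix.diagonal mu := by
      ext i j
      rw [Matrix.diagonal_mul, Matrix.mul_diagonal]
      have h := congrFun (congrFun hcomm i) j
      rw [Matrix.diagonal_mul, Matrix.mul_diagonal] at h
      by_cases hij : G i j = 0
      · rw [hij]; ring
      · have : lam i = lam j := by
          apply mul_right_cancel₀ hij
          rw [h]; ring
        show (Real.sqrt (lam i))⁻¹ * G i j = G i j * (Real.sqrt (lam j))⁻¹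
        rw [this]; ring
    rw [hFG, key, key, hcomm']

end Pool.Agent.UK
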