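import Pool.Agent.UK.GB
import Pool.Agent.UK.GRt
import Pool.Agent.UB.Nrm

/-!
# UK-GNr: isotropic position respecting the blocks

PLAN.  `A i j = ∫ y_i y_j d(unif K)` is symmetric and positive definite (proof as in `CB/IsoPos.lean`, or apply the facts there), and it commutes with the diagonal matrices of the
flips: `A i j = 0` if `π i ≠ π j` (`unif_fl`).  `root`: `B`, `T y = B y` (matrix action on `V n`).  `∫ <ξ, T y>² = ξᵀ B A B ξ = ‖ξ‖²`, and for the image
`T '' K` use `unif_map` (`CB/GenIso.lean`).  `T (fl π b y) = fl π b (T y)` because `B` commutes with the flip matrix, so `T '' K` is `BU k π`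
(compact, convex, interior: `T` is a linear homeomorphism).
-/

set_option autoImplicit false

open MeasureTheory Set
open scoped ENNReal NNReal

namespace Pool.Agent.UK

open Pool.Agent.CB Pool.Agent.UB

private theorem vol_ne {n : ℕ} {K : Set (V n)} (hi : (interior K).Nonempty) :
    volume K ≠ 0 := by
  have h1 := isOpen_interior.measure_pos (volume : Measure (V n)) hi
  exact (lt_of_lt_of_le h1 (measure_mono interior_subset)).ne'

private theorem cont_int {n : ℕ} {K : Set (V n)} (hK : IsCompact K) (hi : (interior K).Nonempty)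
    (f : V n → ℝ) (hf : Continuous f) : Integrable f (MX.unif K) := by
  unfold MX.unif
  exact (hf.continuousOn.integrableOn_compact hK).smul_measure
    (ENNReal.inv_ne_top.mpr (vol_ne hi))

/-- The covariance matrix. -/
private noncomputable def cov {n : ℕ} (K : Set (V n)) : Matrix (Fin n) (Fin n) ℝ :=
  Matrix.of fun i j => ∫ y, y i * y j ∂(MX.unif K)

private theorem cov_quad {n : ℕ} {K : Set (V n)} (hK : IsCompact K) (hi : (interior K).Nonempty)
    (u : Fin n → ℝ) : ∫ y : V n, (∑ i, u i * y i) ^ 2 ∂(MX.unif K) = u ⬝ᵥ (cov K).mulVec u := by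
  have h1 : ∀ y : V n, (∑ i, u i * y i) ^ 2 = ∑ i, ∑ j, (u i * u j) * (y i * y j) := by
    intro y
    rw [sq, Finset.sum_mul_sum]
    refine Finset.sum_congr rfl fun i _ => Finset.sum_congr rfl fun j _ => ?_
    ring
  simp_rw [h1]
  have hi1 : ∀ i j, Integrable (fun y : V n => (u i * u j) * (y i * y j)) (MX.unif K) := by
    intro i j
    apply cont_int hK hi
    fun_prop
  rw [integral_finsetSum _ (fun i _ => integrable_finsetSum _ fun j _ => hi1 i j)]
  have h2 : u ⬝ᵥ (cov K).mulVec u = ∑ i, u i * ∑ j, (∫ y, y i * y j ∂(MX.unif K)) * u j := rfl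
  rw [h2]
  refine Finset.sum_congr rfl fun i _ => ?_
  rw [integral_finsetSum _ (fun j _ => hi1 i j), Finset.mul_sum]
  refine Finset.sum_congr rfl fun j _ => ?_
  rw [integral_const_mul]
  ring

private theorem cov_pos {n : ℕ} {K : Set (V n)} (hK : IsCompact K) (hi : (interior K).Nonempty)
    (u : Fin n → ℝ) (hu : u ≠ 0) : 0 < ∫ y : V n, (∑ i, u i * y i) ^ 2 ∂(MX.unif K) := by
  have hvolfin : volume K ≠ ∞ := hK.measure_lt_top.ne
  have hnn : 0 ≤ ∫ y : V n, (∑ i, u i * y i) ^ 2 ∂(MX.unif K) :=
    integral_nonneg fun y => sq_nonneg _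
  rcases hnn.lt_or_eq with h | h
  · exact h
  exfalso
  have hcont : Continuous fun y : V n => (∑ i, u i * y i) ^ 2 := by fun_prop
  have h2 := (integral_eq_zero_iff_of_nonneg (fun y => sq_nonneg _)
    (cont_int hK hi _ hcont)).mp h.symm
  have h3 : ∀ᵐ y : V n ∂(volume.restrict K), (∑ i, u i * y i) ^ 2 = 0 := by
    have h4 : ∀ᵐ y : V n ∂((volume K)⁻¹ • (volume.restrict K)), (∑ i, u i * y i) ^ 2 = 0 := h2
    rw [ae_iff] at h4 ⊢
    rw [Measure.smul_apply, smul_eq_mul, mul_eq_zero] at h4
    rcases h4 with h4 | h4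
    · exact absurd h4 (ENNReal.inv_ne_zero.mpr hvolfin)
    · exact h4
  set O : Set (V n) := interior K ∩ {y | (∑ i, u i * y i) ^ 2 ≠ 0} with hO
  have hOopen : IsOpen O := isOpen_interior.inter (isOpen_ne.preimage hcont)
  have hOzero : volume O = 0 := by
    rw [ae_iff] at h3
    have h5 : MeasurableSet {y : V n | ¬(∑ i, u i * y i) ^ 2 = 0} :=
      (isOpen_ne.preimage hcont).measurableSet
    rw [Measure.restrict_apply h5] at h3
    refine measure_mono_null ?_ h3
    intro y hy
    exact ⟨hy.2, interior_subset hy.1⟩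
  have hOempty : O = ∅ := (hOopen.measure_eq_zero_iff volume).mp hOzero
  have hz : ∀ y ∈ interior K, ∑ i, u i * y i = 0 := by
    intro y hy
    by_contra hc
    have : y ∈ O := ⟨hy, pow_ne_zero 2 hc⟩
    rw [hOempty] at this
    exact this
  obtain ⟨y₀, hy₀⟩ := hi
  have hline : Continuous fun t : ℝ => y₀ + t • (WithLp.toLp 2 u : V n) := by fun_prop
  have hev : ∀ᶠ t in nhdsWithin (0 : ℝ) {0}ᶜ, y₀ + t • (WithLp.toLp 2 u : V n) ∈ interior K := by
    apply nhdsWithin_le_nhds
    apply hline.continuousAt.eventually_mem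
    rw [zero_smul, add_zero]
    exact isOpen_interior.mem_nhds hy₀
  obtain ⟨t, ht, ht0⟩ := (hev.and self_mem_nhdsWithin).exists
  have e1 := hz _ ht
  have e2 := hz _ hy₀
  have e3 : ∑ i, u i * (y₀ + t • (WithLp.toLp 2 u : V n)) i =
      ∑ i, u i * y₀ i + t * ∑ i, u i * u i := by
    rw [Finset.mul_sum, ← Finset.sum_add_distrib]
    refine Finset.sum_congr rfl fun i _ => ?_
    simp only [PiLp.add_apply, PiLp.smul_apply, smul_eq_mul]
    ring
  rw [e3, e2, zero_add] at e1
  have e4 : ∑ i, u i * u i = 0 := (mul_eq_zero.mp e1).resolve_left ht0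
  apply hu
  funext i
  have e5 := (Finset.sum_eq_zero_iff_of_nonneg (fun i _ => mul_self_nonneg (u i))).mp e4 i
    (Finset.mem_univ i)
  exact mul_self_eq_zero.mp e5

private theorem cov_pd {n : ℕ} {K : Set (V n)} (hK : IsCompact K) (hi : (interior K).Nonempty) :
    (cov K).PosDef := by
  have hAsymm : (cov K).IsHermitian := by
    rw [Matrix.IsHermitian.ext_iff]
    intro i j
    simp only [cov, Matrix.of_apply, star_trivial]
    refine integral_congr_ae (Filter.Eventually.of_forall fun y => ?_)
    ring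
  apply Matrix.PosDef.of_dotProduct_mulVec_pos hAsymm
  intro x hx
  rw [star_trivial, ← cov_quad hK hi x]
  exact cov_pos hK hi x hx

/-- The diagonal matrix of the flip of the block `b`. -/
private noncomputable def dm {n : ℕ} (π : Fin n → Fin n) (b : Fin n) :
    Matrix (Fin n) (Fin n) ℝ := Matrix.diagonal fun i => if π i = b then -1 else 1

private theorem cov_dm {n k : ℕ} {π : Fin n → Fin n} {K : Set (V n)} (hK : BU k π K)
    (b : Fin n) : cov K * dm π b = dm π b * cov K := by
  ext i j
  rw [dm, Matrix.mul_diagonal, Matrix.diagonal_mul]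
  have h1 : ∫ y : V n, y i * y j ∂(MX.unif K) =
      ∫ y : V n, (fl π b y) i * (fl π b y) j ∂(MX.unif K) := by
    have hm : Measurable (fl π b : V n → V n) := by
      unfold fl
      refine (WithLp.measurable_toLp 2 _).comp ?_
      refine measurable_pi_lambda _ fun i => ?_
      by_cases h : π i = b
      · simp only [h, if_true]
        fun_prop
      · simp only [h, if_false]
        fun_prop
    conv_lhs => rw [← unif_fl hK b]
    rw [integral_map hm.aemeasurable]
    exact Continuous.aestronglyMeasurable (by fun_prop)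
  have h2 : ∀ y : V n, (fl π b y) i * (fl π b y) j =
      ((if π i = b then -1 else 1) * (if π j = b then -1 else 1)) * (y i * y j) := by
    intro y
    have h3 : ∀ l, (fl π b y) l = (if π l = b then -1 else 1) * y l := by
      intro l
      change (if π l = b then -y l else y l) = _
      split_ifs <;> ring
    rw [h3, h3]
    ring
  simp_rw [h2] at h1
  rw [integral_const_mul] at h1
  change (∫ y : V n, y i * y j ∂(MX.unif K)) * _ = _ * (∫ y : V n, y i * y j ∂(MX.unif K))
  set c := ∫ y : V n, y i * y j ∂(MX.unif K)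
  by_cases hi : π i = b <;> by_cases hj : π j = b <;>
    simp only [hi, hj, if_true, if_false] at h1 ⊢ <;> linarith

theorem nrmK {n k : ℕ} {π : Fin n → Fin n} {K : Set (V n)} (hK : BU k π K) :
    ∃ T : V n ≃L[ℝ] V n, BU k π (T '' K) ∧ Iso (T '' K) := by
  obtain ⟨B, hB1, hB2, hB3⟩ := root (cov_pd hK.compact hK.nonempty)
  have h1 : B * (cov K * B) = 1 := by rw [← Matrix.mul_assoc, hB2]
  have h2 : (cov K * B) * B = 1 := mul_eq_one_comm.mp h1
  set T : V n ≃L[ℝ] V n := (EuclideanSpace.equiv (Fin n) ℝ).trans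
    ((Matrix.toLin'OfInv h2 h1).toContinuousLinearEquiv.trans
      (EuclideanSpace.equiv (Fin n) ℝ).symm) with hT
  have hTy : ∀ (y : V n) i, T y i = B.mulVec (fun j => y j) i := by
    intro y i
    rfl
  have hTfl : ∀ b y, T (fl π b y) = fl π b (T y) := by
    intro b y
    have e1 : (fun j => (fl π b y) j) = (dm π b).mulVec (fun j => y j) := by
      funext j
      rw [dm, Matrix.mulVec_diagonal]
      change (if π j = b then -y j else y j) = _
      split_ifs <;> ring
    have e2 : ∀ i, (fl π b (T y)) i = (dm π b).mulVec (fun j => T y j) i := by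
      intro i
      rw [dm, Matrix.mulVec_diagonal]
      change (if π i = b then -T y i else T y i) = _
      split_ifs <;> ring
    ext i
    rw [e2, hTy, e1]
    have e3 : (fun j => T y j) = B.mulVec (fun j => y j) := funext fun j => hTy y j
    rw [e3, Matrix.mulVec_mulVec, Matrix.mulVec_mulVec, hB3 _ (cov_dm hK b)]
  refine ⟨T, ⟨hK.compact.image T.continuous, ?_, ?_, ?_, hK.dim⟩, ?_⟩
  · exact hK.convex.linear_image T.toLinearEquiv.toLinearMap
  · have e1 := T.toHomeomorph.image_interior K
    have e2 : T.toHomeomorph '' interior K = T '' interior K := rfl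
    have e3 : T.toHomeomorph '' K = T '' K := rfl
    rw [e2, e3] at e1
    rw [← e1]
    exact hK.nonempty.image _
  · rintro b _ ⟨y, hy, rfl⟩
    exact ⟨fl π b y, hK.flip b y hy, hTfl b y⟩
  · intro ξ
    rw [← CB.unif_map T hK.compact.measurableSet,
      integral_map T.continuous.measurable.aemeasurable
        (Continuous.aestronglyMeasurable (by fun_prop))]
    have hin : ∀ y : V n, (inner ℝ ξ (T y) : ℝ) =
        ∑ j, B.mulVec (fun i => ξ i) j * y j := by
      intro y
      have e1 : (inner ℝ ξ (T y) : ℝ) = ∑ i, ξ i * B.mulVec (fun j => y j) i := by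
        rw [PiLp.inner_apply]
        refine Finset.sum_congr rfl fun i _ => ?_
        rw [hTy]
        simp [mul_comm]
      rw [e1]
      have e2 : ∑ i, ξ i * B.mulVec (fun j => y j) i =
          (fun i => ξ i) ⬝ᵥ B.mulVec (fun j => y j) := rfl
      rw [e2, Matrix.dotProduct_mulVec, ← Matrix.mulVec_transpose, hB1]
      rfl
    simp_rw [hin]
    rw [cov_quad hK.compact hK.nonempty, Matrix.mulVec_mulVec]
    have e4 : B.mulVec (fun i => ξ i) = Matrix.vecMul (fun i => ξ i) B := by
      conv_lhs => rw [← hB1]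
      rw [Matrix.mulVec_transpose]
    rw [e4, ← Matrix.dotProduct_mulVec, Matrix.mulVec_mulVec, h1, Matrix.one_mulVec,
      EuclideanSpace.norm_sq_eq]
    unfold dotProduct
    refine Finset.sum_congr rfl fun i _ => ?_
    rw [Real.norm_eq_abs, sq_abs, sq]

end Pool.Agent.UK
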