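import Pool.Agent.UK.GB

/-!
# UK-GSc: shrinking a block

PLAN.  `Gs_meas`: closed (intersection over `v` of preimages of `K` under continuous maps).  `Gs_scale`: the linear map `L y = y - bl π b y + s • bl π b y` is diagonal with
`d` entries `s` and the others `1`, `d ≤ k` the size of the block, so its determinant is `s^d ≥ s^k`; it maps `Gs ∩ {‖bl y‖ ≤ R}` into `Gs ∩ {‖bl y‖ ≤ s R}` (`BU.shrink`;
`L y - bl (L y) = y - bl y`).  Volumes as in `UB/G2a.lean` (`vol_dg`), `MX.unif K A = volume (A ∩ K) / volume K`.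
-/

set_option autoImplicit false

open MeasureTheory Set
open scoped ENNReal NNReal

namespace Pool.Agent.UK

open Pool.Agent.CB Pool.Agent.UB

private theorem unif_real {n : ℕ} (K : Set (V n)) {A : Set (V n)} (hA : MeasurableSet A) :
    (MX.unif K).real A = (volume K).toReal⁻¹ * (volume (A ∩ K)).toReal := by
  unfold MX.unif Measure.real
  rw [Measure.smul_apply, Measure.restrict_apply hA, smul_eq_mul, ENNReal.toReal_mul,
    ENNReal.toReal_inv]

/-- diagonal maps -/
private noncomputable def dg {n : ℕ} (d : Fin n → ℝ) : V n →ₗ[ℝ] V n :=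
  ((WithLp.linearEquiv 2 ℝ (Fin n → ℝ)).symm.toLinearMap) ∘ₗ (Matrix.toLin' (Matrix.diagonal d)) ∘ₗ
    ((WithLp.linearEquiv 2 ℝ (Fin n → ℝ)).symm.symm.toLinearMap)

private theorem dg_apply {n : ℕ} (d : Fin n → ℝ) (y : V n) (i : Fin n) : dg d y i = d i * y i := by
  change (Matrix.toLin' (Matrix.diagonal d)) (fun i => y i) i = d i * y i
  rw [Matrix.toLin'_apply, Matrix.mulVec_diagonal]

private theorem dg_det {n : ℕ} (d : Fin n → ℝ) : LinearMap.det (dg d) = ∏ i, d i := by
  unfold dg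
  rw [LinearMap.det_conj, LinearMap.det_toLin', Matrix.det_diagonal]

private theorem vol_dg {n : ℕ} (d : Fin n → ℝ) (B : Set (V n)) :
    volume (dg d '' B) = ENNReal.ofReal |∏ i, d i| * volume B := by
  rw [Measure.addHaar_image_linearMap, dg_det]

private theorem bl_at {n : ℕ} (π : Fin n → Fin n) (b i : Fin n) (y : V n) :
    bl π b y i = if π i = b then y i else 0 := rfl

private theorem Gs_closed {n k : ℕ} {π : Fin n → Fin n} {K : Set (V n)} (hK : BU k π K)
    (b : Fin n) (r : ℝ) : IsClosed (Gs π b K r) := by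
  have h1 : Gs π b K r = K ∩ ⋂ v : {v : V n // InB π b v ∧ ‖v‖ ≤ r},
      (fun y : V n => y - bl π b y + v.1) ⁻¹' K := by
    ext y
    rw [mem_inter_iff, mem_iInter]
    exact ⟨fun h => ⟨h.1, fun v => h.2 v.1 v.2.1 v.2.2⟩, fun h => ⟨h.1, fun v h2 h3 =>
      h.2 ⟨v, h2, h3⟩⟩⟩
  rw [h1]
  refine hK.compact.isClosed.inter (isClosed_iInter fun v => hK.compact.isClosed.preimage ?_)
  exact (continuous_id.sub (continuous_bl π b)).add continuous_const

theorem Gs_meas {n k : ℕ} {π : Fin n → Fin n} {K : Set (V n)} (hK : BU k π K) (b : Fin n)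
    (r : ℝ) : MeasurableSet (Gs π b K r) := by
  exact (Gs_closed hK b r).measurableSet

theorem Gs_scale {n k : ℕ} {π : Fin n → Fin n} {K : Set (V n)} (hK : BU k π K) (b : Fin n)
    (r R : ℝ) {s : ℝ} (hs : 0 < s) (hs1 : s ≤ 1) :
    s ^ k * (MX.unif K).real (Gs π b K r ∩ {y | ‖bl π b y‖ ≤ R}) ≤
      (MX.unif K).real (Gs π b K r ∩ {y | ‖bl π b y‖ ≤ s * R}) := by
  classical
  have hm : ∀ T : ℝ, MeasurableSet {y : V n | ‖bl π b y‖ ≤ T} := fun T =>
    (isClosed_le (continuous_bl π b).norm continuous_const).measurableSet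
  have hG := Gs_meas hK b r
  rw [unif_real _ (hG.inter (hm R)), unif_real _ (hG.inter (hm (s * R)))]
  obtain ⟨d, hd⟩ : ∃ d : Fin n → ℝ, d = fun i => if π i = b then s else 1 := ⟨_, rfl⟩
  have hL : ∀ y : V n, dg d y = y - bl π b y + s • bl π b y := by
    intro y
    ext i
    have h1 : (y - bl π b y + s • bl π b y) i = y i - bl π b y i + s * bl π b y i := rfl
    rw [h1, dg_apply, bl_at, hd]
    show (if π i = b then s else 1) * y i = _
    by_cases h : π i = b
    · simp only [if_pos h]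
      ring
    · simp only [if_neg h]
      ring
  have hbl : ∀ y : V n, bl π b (dg d y) = s • bl π b y := by
    intro y
    ext i
    have h1 : (s • bl π b y) i = s * bl π b y i := rfl
    rw [h1, bl_at, bl_at, dg_apply, hd]
    show (if π i = b then (if π i = b then s else 1) * y i else 0) = s * if π i = b then y i else 0
    by_cases h : π i = b
    · simp only [if_pos h]
    · simp only [if_neg h, mul_zero]
  have hdp : ∏ i, d i = s ^ (Finset.univ.filter fun i => π i = b).card := by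
    rw [hd, Finset.prod_ite, Finset.prod_const, Finset.prod_const_one, mul_one]
  have hdk : s ^ k ≤ ∏ i, d i := by
    rw [hdp]
    exact pow_le_pow_of_le_one hs.le hs1 (hK.dim b)
  have hd0 : 0 ≤ ∏ i, d i := (pow_nonneg hs.le k).trans hdk
  have hsub : dg d '' ((Gs π b K r ∩ {y | ‖bl π b y‖ ≤ R}) ∩ K) ⊆
      (Gs π b K r ∩ {y | ‖bl π b y‖ ≤ s * R}) ∩ K := by
    rintro _ ⟨y, ⟨⟨h1, h2⟩, h3⟩, rfl⟩
    have h2' : ‖bl π b y‖ ≤ R := h2
    have h4 : dg d y ∈ K := by
      rw [hL]
      exact hK.shrink b h3 (by rw [abs_of_pos hs]; exact hs1)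
    refine ⟨⟨⟨h4, fun v hv hvr => ?_⟩, ?_⟩, h4⟩
    · have h5 : dg d y - bl π b (dg d y) + v = y - bl π b y + v := by
        rw [hbl, hL, add_sub_cancel_right]
      rw [h5]
      exact h1.2 v hv hvr
    · show ‖bl π b (dg d y)‖ ≤ s * R
      rw [hbl, norm_smul, Real.norm_of_nonneg hs.le]
      exact mul_le_mul_of_nonneg_left h2' hs.le
  have hvol := measure_mono (μ := (volume : Measure (V n))) hsub
  rw [vol_dg, abs_of_nonneg hd0] at hvol
  have hfin : ∀ B : Set (V n), volume (B ∩ K) ≠ ⊤ := fun B =>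
    ((measure_mono inter_subset_right).trans_lt hK.compact.measure_lt_top).ne
  have h6 := ENNReal.toReal_mono (hfin _) hvol
  rw [ENNReal.toReal_mul, ENNReal.toReal_ofReal hd0] at h6
  have h7 : 0 ≤ (volume K).toReal⁻¹ := inv_nonneg.2 ENNReal.toReal_nonneg
  have h8 : s ^ k * (volume ((Gs π b K r ∩ {y | ‖bl π b y‖ ≤ R}) ∩ K)).toReal ≤
      (volume ((Gs π b K r ∩ {y | ‖bl π b y‖ ≤ s * R}) ∩ K)).toReal :=
    (mul_le_mul_of_nonneg_right hdk ENNReal.toReal_nonneg).trans h6
  calc s ^ k * ((volume K).toReal⁻¹ *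
        (volume ((Gs π b K r ∩ {y | ‖bl π b y‖ ≤ R}) ∩ K)).toReal)
      = (volume K).toReal⁻¹ *
        (s ^ k * (volume ((Gs π b K r ∩ {y | ‖bl π b y‖ ≤ R}) ∩ K)).toReal) := by ring
    _ ≤ _ := mul_le_mul_of_nonneg_left h8 h7

end Pool.Agent.UK
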