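import Pool.Agent.UK.GU
import Pool.Agent.UK.GNet
import Pool.Agent.UK.GH
import Pool.Agent.UK.GHB
import Pool.Agent.UK.GSc

/-!
# UK-GOv: overlap

PLAN.  `η₀` from `pz`; `R ≥ 1` with `k/R² ≤ η₀/2`, so for every unit vector `θ` of the block `b = π i`: `P(1/2 ≤ <θ, Y>, ‖bl Y‖ ≤ R) ≥ η₀/2 =: η₁` (`chebB`), hence
`P(Hs 1 θ) ≥ η₁` (`Hs_one`, `SB.ae_mem`).  `net k (1/(4R))`: `F`, `|F| ≤ M`.  `HF`, `ball_slice` with `σ = 2^(-|F|)`, and `Gs` is antitone in the radius: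
`P(Gs r) ≥ η₁` with `r = 2^(-M)/4`.  `R' ≥ R` with `k/R'² ≤ η₁/2`: `P(Gs r ∩ {‖bl‖ ≤ R'}) ≥ η₁/2`; `Gs_scale` with `s = r/(2R')`:
`P(Gs r ∩ {‖bl‖ ≤ r/2}) ≥ s^k η₁/2 =: η`.  For such `y` and `t = r/2`: `y - t e_i = y - bl y + (bl y - t e_i)`, `‖bl y - t e_i‖ ≤ r`, so it lies in `K`.
-/

set_option autoImplicit false

open MeasureTheory Set
open scoped ENNReal NNReal

namespace Pool.Agent.UK

open Pool.Agent.CB Pool.Agent.UB

private theorem gov_exR (k : ℕ) {η : ℝ} (hη : 0 < η) : ∃ R : ℝ, 1 ≤ R ∧ (k : ℝ) / R ^ 2 ≤ η := by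
  have hk : (0 : ℝ) ≤ k := Nat.cast_nonneg _
  have h0 : (0 : ℝ) ≤ k / η := div_nonneg hk hη.le
  refine ⟨1 + k / η, by linarith, ?_⟩
  have h1 : (0 : ℝ) < 1 + k / η := by linarith
  rw [div_le_iff₀ (by positivity)]
  have h2 : (k : ℝ) / η ≤ (1 + k / η) ^ 2 := by nlinarith
  have h3 := mul_le_mul_of_nonneg_left h2 hη.le
  rwa [mul_div_cancel₀ _ hη.ne'] at h3

private theorem gov_gs_mono {n : ℕ} {π : Fin n → Fin n} {K : Set (V n)} (b : Fin n) {r r' : ℝ}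
    (h : r ≤ r') : Gs π b K r' ⊆ Gs π b K r := by
  rintro y ⟨hy, hv⟩
  exact ⟨hy, fun v h1 h2 => hv v h1 (h2.trans h)⟩

private theorem gov_inb_sub {n : ℕ} {π : Fin n → Fin n} {b : Fin n} {x y : V n}
    (hx : InB π b x) (hy : InB π b y) : InB π b (x - y) := by
  intro i hi
  rw [PiLp.sub_apply, hx i hi, hy i hi, sub_zero]

private theorem gov_inb_smul {n : ℕ} {π : Fin n → Fin n} {b : Fin n} {x : V n} (c : ℝ)
    (hx : InB π b x) : InB π b (c • x) := by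
  intro i hi
  rw [PiLp.smul_apply, hx i hi, smul_zero]

/-- removing a set of small probability -/
private theorem gov_split {n k : ℕ} {π : Fin n → Fin n} {K : Set (V n)} (hK : BU k π K)
    (hI : Iso K) (b : Fin n) {R ε η : ℝ} (hR : 0 < R) (hRε : (k : ℝ) / R ^ 2 ≤ ε) {A B : Set (V n)}
    (hA : η ≤ (MX.unif K).real A) (hAB : ∀ y ∈ A, y ∈ K → ‖bl π b y‖ ≤ R → y ∈ B) :
    η - ε ≤ (MX.unif K).real B := by
  have hS := hK.toSB
  have hP := hS.prob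
  have h1 : (MX.unif K).real Kᶜ = 0 := by
    rw [Measure.real, ENNReal.toReal_eq_zero_iff]
    left
    exact hS.ae_mem
  have h2 : A ⊆ (B ∪ {y | R < ‖bl π b y‖}) ∪ Kᶜ := by
    intro y hy
    by_cases hyK : y ∈ K
    · left
      by_cases hyR : ‖bl π b y‖ ≤ R
      · exact Or.inl (hAB y hy hyK hyR)
      · exact Or.inr (not_le.1 hyR)
    · exact Or.inr hyK
  have h3 : (MX.unif K).real A ≤
      ((MX.unif K).real B + (MX.unif K).real {y | R < ‖bl π b y‖}) + (MX.unif K).real Kᶜ :=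
    (measureReal_mono h2).trans ((measureReal_union_le _ _).trans
      (add_le_add (measureReal_union_le _ _) le_rfl))
  have h4 := chebB hK hI b hR
  linarith

theorem overlap (k : ℕ) : ∃ t η : ℝ, 0 < t ∧ 0 < η ∧ ∀ (n : ℕ) (π : Fin n → Fin n)
    (K : Set (V n)), BU k π K → Iso K → ∀ i : Fin n, η ≤ ovl K i t := by
  obtain ⟨η₀, hη₀, hpz⟩ := pz
  obtain ⟨R, hR1, hR⟩ := gov_exR k (half_pos hη₀)
  have hR0 : 0 < R := by linarith
  obtain ⟨M, hM⟩ := net k (δ := 1 / (4 * R)) (by positivity)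
  set η₁ : ℝ := min (η₀ / 2) 1 with hη₁
  have hη₁0 : 0 < η₁ := lt_min (half_pos hη₀) one_pos
  have hη₁1 : η₁ ≤ 1 := min_le_right _ _
  have hη₁2 : η₁ ≤ η₀ / 2 := min_le_left _ _
  obtain ⟨R', hR'1, hR'⟩ := gov_exR k (half_pos hη₁0)
  have hR'0 : 0 < R' := by linarith
  set r : ℝ := (1 / 2) ^ M / 4 with hr
  have hr0 : 0 < r := by positivity
  have hr1 : r ≤ 1 / 4 := by
    rw [hr]
    have h1 : ((1 : ℝ) / 2) ^ M ≤ 1 := pow_le_one₀ (by norm_num) (by norm_num)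
    linarith
  set s : ℝ := r / (2 * R') with hs
  have hs0 : 0 < s := by positivity
  have hs1 : s ≤ 1 := by
    rw [hs, div_le_one (by positivity)]
    linarith
  have hsR : s * R' = r / 2 := by
    rw [hs]
    field_simp
  refine ⟨r / 2, s ^ k * (η₁ / 2), half_pos hr0, by positivity, ?_⟩
  intro n π K hK hI i
  have hS := hK.toSB
  have hP := hS.prob
  obtain ⟨F, hFM, hFU, hFn⟩ := hM n π (π i) (hK.dim (π i))
  have h1 : ∀ θ ∈ F, η₁ ≤ (MX.unif K).real (Hs π (π i) K R 1 θ) := by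
    intro θ hθ
    have hU := hFU θ hθ
    have h2 := hpz n K hS hI θ hU.norm
    have h3 := gov_split hK hI (π i) hR0 hR (B := Hs π (π i) K R 1 θ) h2
      (fun y hy hyK hyR => Hs_one hK (π i) hU.inb hyK hy hyR)
    linarith
  have h2 := HF hK (π i) hη₁0.le hη₁1 F h1
  have h3 : {y | y ∈ K ∧ ∀ θ ∈ F, y ∈ Hs π (π i) K R ((1 / 2) ^ F.card) θ} ⊆
      Gs π (π i) K r := by
    rintro y ⟨hy, hyF⟩
    have h4 := ball_slice hK (π i) hR0 (by positivity : (0 : ℝ) < (1 / 2) ^ F.card) hFn hy hyF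
    refine gov_gs_mono (π i) ?_ h4
    rw [hr]
    have h5 : ((1 : ℝ) / 2) ^ M ≤ (1 / 2) ^ F.card :=
      pow_le_pow_of_le_one (by norm_num) (by norm_num) hFM
    linarith
  have h4 : η₁ ≤ (MX.unif K).real (Gs π (π i) K r) := h2.trans (measureReal_mono h3)
  have h5 := gov_split hK hI (π i) hR'0 hR' (B := Gs π (π i) K r ∩ {y | ‖bl π (π i) y‖ ≤ R'}) h4
    (fun y hy _ hyR => ⟨hy, hyR⟩)
  have h6 : η₁ / 2 ≤ (MX.unif K).real (Gs π (π i) K r ∩ {y | ‖bl π (π i) y‖ ≤ R'}) := by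
    linarith
  have h7 := Gs_scale hK (π i) r R' hs0 hs1
  rw [hsR] at h7
  have h8 : s ^ k * (η₁ / 2) ≤
      (MX.unif K).real (Gs π (π i) K r ∩ {y | ‖bl π (π i) y‖ ≤ r / 2}) :=
    (mul_le_mul_of_nonneg_left h6 (by positivity)).trans h7
  refine h8.trans ?_
  unfold ovl
  refine measureReal_mono ?_
  rintro y ⟨⟨hy, hyv⟩, hyn⟩
  show y - (r / 2) • bv i ∈ K
  have h9 : InB π (π i) (bl π (π i) y - (r / 2) • bv i) :=
    gov_inb_sub (inb_bl π (π i) y) (gov_inb_smul _ (inb_bv π i))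
  have h10 : ‖bl π (π i) y - (r / 2) • bv i‖ ≤ r := by
    have h11 : ‖((r / 2) • bv i : V n)‖ = r / 2 := by
      rw [norm_smul]
      unfold bv
      rw [PiLp.norm_single, norm_one, mul_one, Real.norm_of_nonneg (half_pos hr0).le]
    have h12 : ‖bl π (π i) y‖ ≤ r / 2 := hyn
    have h13 := norm_sub_le (bl π (π i) y) ((r / 2) • bv i)
    rw [h11] at h13
    linarith
  have h11 := hyv _ h9 h10
  have h12 : y - bl π (π i) y + (bl π (π i) y - (r / 2) • bv i) = y - (r / 2) • bv i := by abel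
  rwa [h12] at h11

end Pool.Agent.UK
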