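import Pool.Agent.UK.GB

/-!
# UK-GS2: shifting slabs of one block to the centre

`U = <θ, y>`, `θ` a vector of the block `b`, `D` convex and invariant under the flip of `b`.

PLAN.  `fd_shift`: `A = D ∩ {|U - v| ≤ s}`, `A' = D ∩ {|U + v| ≤ s}`.  The flip of `b` maps `A` onto `A'` and preserves `unif K` (`unif_fl`, `inner_fl`;
`fl` is an involution), so `P(A') = P(A)`.  Midpoints of `A` and `A'` lie in `D ∩ {|U| ≤ s}`: `LC (unif K)` (`lc_unif_gen`): `P(A)² ≤ P(..)²`.
`fd_cover`: union bound.  `fd_big`: cover `[-R, R]` by `N ≤ R/s + 1 ≤ 2 R/s` intervals of length `2 s`.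
-/

set_option autoImplicit false

open MeasureTheory Set
open scoped ENNReal NNReal

namespace Pool.Agent.UK

open Pool.Agent.CB Pool.Agent.UB

variable {n k : ℕ} {π : Fin n → Fin n} {K D : Set (V n)} {b : Fin n} {θ : V n}

private theorem fl_meas (π : Fin n → Fin n) (b : Fin n) : Measurable (fl π b : V n → V n) := by
  have h : (fl π b : V n → V n) = fun y => y - (2 : ℝ) • bl π b y := funext fun y => fl_eq π b y
  rw [h]
  have h2 : Continuous fun y : V n => y - (2 : ℝ) • bl π b y :=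
    continuous_id.sub ((continuous_bl π b).const_smul (2 : ℝ))
  exact h2.measurable

private theorem fl_fl (π : Fin n → Fin n) (b : Fin n) (y : V n) : fl π b (fl π b y) = y := by
  ext i
  by_cases h : π i = b <;> simp [fl, h]

private theorem slab_meas (hD : FD π b D) (f : ℝ → Prop) (hf : MeasurableSet {x | f x}) :
    MeasurableSet (D ∩ {y | f (inner ℝ θ y : ℝ)}) := by
  refine hD.meas.inter ?_
  have hc : Continuous fun y : V n => (inner ℝ θ y : ℝ) := by fun_prop
  exact hc.measurable hf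

theorem fd_shift (hK : BU k π K) (hD : FD π b D) (hθ : InB π b θ) (v s : ℝ) :
    (MX.unif K).real (D ∩ {y | |(inner ℝ θ y : ℝ) - v| ≤ s}) ≤
      (MX.unif K).real (D ∩ {y | |(inner ℝ θ y : ℝ)| ≤ s}) := by
  have hprob : IsProbabilityMeasure (MX.unif K) := isProb_unif hK.compact hK.nonempty
  have hLC : LC (MX.unif K) := lc_unif_gen hK.compact.isClosed.measurableSet hK.convex
  have hms : ∀ w : ℝ, MeasurableSet (D ∩ {y | |(inner ℝ θ y : ℝ) - w| ≤ s}) := fun w =>
    slab_meas hD (fun x => |x - w| ≤ s) (by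
      have : IsClosed {x : ℝ | |x - w| ≤ s} := isClosed_le (by fun_prop) continuous_const
      exact this.measurableSet)
  have hm0 : MeasurableSet (D ∩ {y | |(inner ℝ θ y : ℝ)| ≤ s}) :=
    slab_meas hD (fun x => |x| ≤ s) (by
      have : IsClosed {x : ℝ | |x| ≤ s} := isClosed_le (by fun_prop) continuous_const
      exact this.measurableSet)
  have hpre : fl π b ⁻¹' (D ∩ {y | |(inner ℝ θ y : ℝ) - v| ≤ s}) =
      D ∩ {y | |(inner ℝ θ y : ℝ) - (-v)| ≤ s} := by
    ext y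
    simp only [mem_preimage, mem_inter_iff, mem_ofPred_eq]
    rw [inner_fl hθ]
    have e : |(-inner ℝ θ y : ℝ) - v| = |(inner ℝ θ y : ℝ) - (-v)| := by
      rw [← abs_neg]
      congr 1
      ring
    rw [e]
    constructor
    · rintro ⟨h1, h2⟩
      refine ⟨?_, h2⟩
      have h3 := hD.flip _ h1
      rwa [fl_fl] at h3
    · rintro ⟨h1, h2⟩
      exact ⟨hD.flip _ h1, h2⟩
  have hP : MX.unif K (D ∩ {y | |(inner ℝ θ y : ℝ) - (-v)| ≤ s}) =
      MX.unif K (D ∩ {y | |(inner ℝ θ y : ℝ) - v| ≤ s}) := by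
    rw [← hpre, ← Measure.map_apply (fl_meas π b) (hms v), unif_fl hK b]
  have h1 := hLC _ _ _ (hms v) (hms (-v)) hm0 (by
    rintro a ⟨ha1, ha2⟩ c ⟨hc1, hc2⟩
    simp only [mem_ofPred_eq] at ha2 hc2
    refine ⟨?_, ?_⟩
    · have h2 := hD.convex ha1 hc1 (by norm_num : (0 : ℝ) ≤ 1 / 2) (by norm_num : (0 : ℝ) ≤ 1 / 2)
        (by norm_num)
      rwa [← smul_add] at h2
    · simp only [mem_ofPred_eq]
      rw [inner_smul_right, inner_add_right, abs_le]
      rw [abs_le] at ha2 hc2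
      constructor <;> linarith [ha2.1, ha2.2, hc2.1, hc2.2])
  rw [hP, ← sq] at h1
  have h2 := ENNReal.toReal_mono (by finiteness) h1
  rw [ENNReal.toReal_pow, ENNReal.toReal_pow] at h2
  exact (pow_le_pow_iff_left₀ ENNReal.toReal_nonneg ENNReal.toReal_nonneg (by norm_num)).1 h2

theorem fd_cover (hK : BU k π K) (hD : FD π b D) (hθ : InB π b θ) {s : ℝ} {N : ℕ}
    (v : Fin N → ℝ) {Z : Set ℝ} (hZ : ∀ z ∈ Z, ∃ j, |z - v j| ≤ s) :
    (MX.unif K).real (D ∩ {y | (inner ℝ θ y : ℝ) ∈ Z}) ≤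
      N * (MX.unif K).real (D ∩ {y | |(inner ℝ θ y : ℝ)| ≤ s}) := by
  have hprob : IsProbabilityMeasure (MX.unif K) := isProb_unif hK.compact hK.nonempty
  have h1 : D ∩ {y | (inner ℝ θ y : ℝ) ∈ Z} ⊆
      ⋃ j : Fin N, D ∩ {y | |(inner ℝ θ y : ℝ) - v j| ≤ s} := by
    rintro y ⟨hy1, hy2⟩
    obtain ⟨j, hj⟩ := hZ _ hy2
    exact mem_iUnion.2 ⟨j, hy1, hj⟩
  refine (measureReal_mono h1).trans ((measureReal_iUnion_fintype_le _).trans ?_)
  refine (Finset.sum_le_sum fun j _ => fd_shift hK hD hθ (v j) s).trans (le_of_eq ?_)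
  rw [Finset.sum_const, Finset.card_univ, Fintype.card_fin, nsmul_eq_mul]

theorem fd_big (hK : BU k π K) (hD : FD π b D) (hθ : InB π b θ) {s R : ℝ} (hs : 0 < s)
    (hR : s ≤ R) :
    (MX.unif K).real (D ∩ {y | |(inner ℝ θ y : ℝ)| ≤ R}) ≤
      2 * R / s * (MX.unif K).real (D ∩ {y | |(inner ℝ θ y : ℝ)| ≤ s}) := by
  have h1 := fd_cover hK hD hθ (s := s) (N := ⌊R / s⌋₊ + 1)
    (fun j => -R + (2 * (j : ℕ) + 1) * s) (Z := {z | |z| ≤ R}) (by
      intro z hz
      have hz' : |z| ≤ R := hz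
      rw [abs_le] at hz'
      have h2 : 0 ≤ (z + R) / (2 * s) := div_nonneg (by linarith) (by linarith)
      have h3 : (z + R) / (2 * s) ≤ R / s := by
        rw [div_le_div_iff₀ (by linarith) hs]
        nlinarith
      have h4 : ⌊(z + R) / (2 * s)⌋₊ ≤ ⌊R / s⌋₊ := Nat.floor_le_floor h3
      refine ⟨⟨⌊(z + R) / (2 * s)⌋₊, by omega⟩, ?_⟩
      have h5 := Nat.floor_le h2
      have h6 := Nat.lt_floor_add_one ((z + R) / (2 * s))
      rw [le_div_iff₀ (by linarith)] at h5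
      rw [div_lt_iff₀ (by linarith)] at h6
      simp only
      rw [abs_le]
      constructor <;> nlinarith)
  refine h1.trans (mul_le_mul_of_nonneg_right ?_ measureReal_nonneg)
  have h2 : 1 ≤ R / s := by
    rw [le_div_iff₀ hs]
    linarith
  have h3 : ((⌊R / s⌋₊ : ℕ) : ℝ) ≤ R / s := Nat.floor_le (by linarith)
  have h4 : 2 * R / s = R / s + R / s := by ring
  rw [h4]
  push_cast
  linarith

end Pool.Agent.UK
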