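import Pool.Agent.UK.GBox

/-!
# UK-GZb: boxes of sets covered by short intervals

For a finite set `T` of blocks and a measurable convex `D` invariant under the flips of all `b ∈ T`:
`P(D ∩ {U_b ∈ Z_b, b ∈ T}) ≤ ∏_{b ∈ T} N_b · P(D ∩ {|U_b| ≤ ρ_b, b ∈ T})`, by induction over `T`: the set `Z_b` is covered by the
intervals `I_j`, the induction hypothesis is applied to `D ∩ {U_b ∈ I_j}`, and `fd_shift` to `D ∩ {|U_c| ≤ ρ_c, c ∈ T'}`.
-/

set_option autoImplicit false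

open MeasureTheory Set
open scoped ENNReal NNReal

namespace Pool.Agent.UK

open Pool.Agent.CB Pool.Agent.UB

private theorem gzb_slab_meas {n : ℕ} (θ : V n) (w s : ℝ) :
    MeasurableSet {y : V n | |(inner ℝ θ y : ℝ) - w| ≤ s} :=
  (isClosed_le (by fun_prop) continuous_const).measurableSet

private theorem gzb_slab_conv {n : ℕ} (θ : V n) (w s : ℝ) :
    Convex ℝ {y : V n | |(inner ℝ θ y : ℝ) - w| ≤ s} := by
  intro x hx y hy u v hu hv huv
  have hx1 : |(inner ℝ θ x : ℝ) - w| ≤ s := hx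
  have hy1 : |(inner ℝ θ y : ℝ) - w| ≤ s := hy
  show |(inner ℝ θ (u • x + v • y) : ℝ) - w| ≤ s
  rw [inner_add_right, inner_smul_right, inner_smul_right]
  have e : u * (inner ℝ θ x : ℝ) + v * (inner ℝ θ y : ℝ) - w =
      u * ((inner ℝ θ x : ℝ) - w) + v * ((inner ℝ θ y : ℝ) - w) := by
    have : w = (u + v) * w := by rw [huv, one_mul]
    calc u * (inner ℝ θ x : ℝ) + v * (inner ℝ θ y : ℝ) - w
        = u * (inner ℝ θ x : ℝ) + v * (inner ℝ θ y : ℝ) - (u + v) * w := by rw [← this]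
      _ = _ := by ring
  rw [e]
  calc |u * ((inner ℝ θ x : ℝ) - w) + v * ((inner ℝ θ y : ℝ) - w)|
      ≤ |u * ((inner ℝ θ x : ℝ) - w)| + |v * ((inner ℝ θ y : ℝ) - w)| := abs_add_le _ _
    _ = u * |(inner ℝ θ x : ℝ) - w| + v * |(inner ℝ θ y : ℝ) - w| := by
        rw [abs_mul, abs_mul, abs_of_nonneg hu, abs_of_nonneg hv]
    _ ≤ u * s + v * s :=
        add_le_add (mul_le_mul_of_nonneg_left hx1 hu) (mul_le_mul_of_nonneg_left hy1 hv)
    _ = s := by rw [← add_mul, huv, one_mul]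

private theorem gzb_meas {n : ℕ} (θ : Fin n → V n) (T : Finset (Fin n)) (s : Fin n → ℝ) :
    MeasurableSet {y : V n | ∀ b ∈ T, |(inner ℝ (θ b) y : ℝ)| ≤ s b} := by
  have h1 : {y : V n | ∀ b ∈ T, |(inner ℝ (θ b) y : ℝ)| ≤ s b} =
      ⋂ b ∈ T, {y | |(inner ℝ (θ b) y : ℝ) - 0| ≤ s b} := by
    ext y
    simp only [mem_ofPred_eq, mem_iInter, sub_zero]
  rw [h1]
  exact Finset.measurableSet_biInter _ fun c _ => gzb_slab_meas (θ c) 0 (s c)

private theorem gzb_conv {n : ℕ} (θ : Fin n → V n) (T : Finset (Fin n)) (s : Fin n → ℝ) :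
    Convex ℝ {y : V n | ∀ b ∈ T, |(inner ℝ (θ b) y : ℝ)| ≤ s b} := by
  have h1 : {y : V n | ∀ b ∈ T, |(inner ℝ (θ b) y : ℝ)| ≤ s b} =
      ⋂ b ∈ T, {y | |(inner ℝ (θ b) y : ℝ) - 0| ≤ s b} := by
    ext y
    simp only [mem_ofPred_eq, mem_iInter, sub_zero]
  rw [h1]
  exact convex_iInter₂ fun c _ => gzb_slab_conv (θ c) 0 (s c)

private theorem gzb_key {n k : ℕ} {π : Fin n → Fin n} {K : Set (V n)} (hK : BU k π K)
    (θ : Fin n → V n) (ρ : Fin n → ℝ) (N : Fin n → ℕ) (v : (b : Fin n) → Fin (N b) → ℝ)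
    (Z : Fin n → Set ℝ) (T : Finset (Fin n)) :
    (∀ b ∈ T, UV π b (θ b)) → (∀ b ∈ T, ∀ z ∈ Z b, ∃ j, |z - v b j| ≤ ρ b) →
    ∀ D : Set (V n), MeasurableSet D → Convex ℝ D → (∀ b ∈ T, ∀ y ∈ D, fl π b y ∈ D) →
      (MX.unif K).real (D ∩ {y | ∀ b ∈ T, (inner ℝ (θ b) y : ℝ) ∈ Z b}) ≤
        (∏ b ∈ T, (N b : ℝ)) *
          (MX.unif K).real (D ∩ {y | ∀ b ∈ T, |(inner ℝ (θ b) y : ℝ)| ≤ ρ b}) := by
  have hprob : IsProbabilityMeasure (MX.unif K) := isProb_unif hK.compact hK.nonempty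
  induction T using Finset.induction_on with
  | empty =>
    intro _ _ D _ _ _
    rw [Finset.prod_empty, one_mul]
    refine measureReal_mono ?_
    rintro y ⟨hy, _⟩
    exact ⟨hy, fun b hb => absurd hb (Finset.notMem_empty b)⟩
  | insert b T hb ih =>
    intro hθ hZ D hDm hDc hDf
    have hθ' : ∀ c ∈ T, UV π c (θ c) := fun c hc => hθ c (Finset.mem_insert_of_mem hc)
    have hZ' : ∀ c ∈ T, ∀ z ∈ Z c, ∃ j, |z - v c j| ≤ ρ c :=
      fun c hc => hZ c (Finset.mem_insert_of_mem hc)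
    have hne : ∀ c ∈ T, b ≠ c := by
      rintro c hc rfl
      exact hb hc
    have hθb := hθ b (Finset.mem_insert_self b T)
    -- the set of the second step
    set E : Set (V n) := D ∩ {y | ∀ c ∈ T, |(inner ℝ (θ c) y : ℝ)| ≤ ρ c} with hE
    have hFD : FD π b E := by
      refine ⟨hDm.inter (gzb_meas θ T ρ), hDc.inter (gzb_conv θ T ρ), ?_⟩
      rintro y ⟨hy1, hy2⟩
      refine ⟨hDf b (Finset.mem_insert_self b T) y hy1, fun c hc => ?_⟩
      rw [inner_fl_ne (hne c hc).symm (hθ' c hc).inb]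
      exact hy2 c hc
    have hset : ∀ w : ℝ, D ∩ {y | |(inner ℝ (θ b) y : ℝ) - w| ≤ ρ b} ∩
        {y | ∀ c ∈ T, |(inner ℝ (θ c) y : ℝ)| ≤ ρ c} =
        E ∩ {y | |(inner ℝ (θ b) y : ℝ) - w| ≤ ρ b} := by
      intro w
      rw [hE]
      ext y
      simp only [mem_inter_iff, mem_ofPred_eq]
      tauto
    have hstep : ∀ j : Fin (N b),
        (MX.unif K).real (D ∩ {y | |(inner ℝ (θ b) y : ℝ) - v b j| ≤ ρ b} ∩
          {y | ∀ c ∈ T, (inner ℝ (θ c) y : ℝ) ∈ Z c}) ≤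
        (∏ c ∈ T, (N c : ℝ)) *
          (MX.unif K).real (E ∩ {y | |(inner ℝ (θ b) y : ℝ)| ≤ ρ b}) := by
      intro j
      have h1 := ih hθ' hZ' (D ∩ {y | |(inner ℝ (θ b) y : ℝ) - v b j| ≤ ρ b})
        (hDm.inter (gzb_slab_meas _ _ _)) (hDc.inter (gzb_slab_conv _ _ _)) (by
          rintro c hc y ⟨hy1, hy2⟩
          refine ⟨hDf c (Finset.mem_insert_of_mem hc) y hy1, ?_⟩
          have hy3 : |(inner ℝ (θ b) y : ℝ) - v b j| ≤ ρ b := hy2
          show |(inner ℝ (θ b) (fl π c y) : ℝ) - v b j| ≤ ρ b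
          rw [inner_fl_ne (hne c hc) hθb.inb]
          exact hy3)
      rw [hset] at h1
      exact h1.trans (mul_le_mul_of_nonneg_left (fd_shift hK hFD hθb.inb _ _)
        (Finset.prod_nonneg fun _ _ => Nat.cast_nonneg _))
    have hcov : D ∩ {y | ∀ c ∈ insert b T, (inner ℝ (θ c) y : ℝ) ∈ Z c} ⊆
        ⋃ j : Fin (N b), D ∩ {y | |(inner ℝ (θ b) y : ℝ) - v b j| ≤ ρ b} ∩
          {y | ∀ c ∈ T, (inner ℝ (θ c) y : ℝ) ∈ Z c} := by
      rintro y ⟨hy1, hy2⟩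
      obtain ⟨j, hj⟩ := hZ b (Finset.mem_insert_self b T) _ (hy2 b (Finset.mem_insert_self b T))
      exact mem_iUnion.2 ⟨j, ⟨hy1, hj⟩, fun c hc => hy2 c (Finset.mem_insert_of_mem hc)⟩
    have hfin : D ∩ {y | ∀ c ∈ insert b T, |(inner ℝ (θ c) y : ℝ)| ≤ ρ c} =
        E ∩ {y | |(inner ℝ (θ b) y : ℝ)| ≤ ρ b} := by
      rw [hE]
      ext y
      simp only [mem_inter_iff, mem_ofPred_eq, Finset.forall_mem_insert]
      tauto
    rw [hfin, Finset.prod_insert hb]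
    refine (measureReal_mono hcov).trans ((measureReal_iUnion_fintype_le _).trans ?_)
    refine (Finset.sum_le_sum fun j _ => hstep j).trans (le_of_eq ?_)
    rw [Finset.sum_const, Finset.card_univ, Fintype.card_fin, nsmul_eq_mul, mul_assoc]

theorem boxZ (m : ℕ) : ∃ C : ℝ, 1 ≤ C ∧ ∀ (k n : ℕ) (π : Fin n → Fin n) (K : Set (V n)),
    BU k π K → Iso K → ∀ (θ : Fin n → V n) (T : Finset (Fin n)) (ρ : Fin n → ℝ)
    (N : Fin n → ℕ) (v : (b : Fin n) → Fin (N b) → ℝ) (Z : Fin n → Set ℝ),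
    T.card ≤ m → (∀ b ∈ T, UV π b (θ b)) → (∀ b ∈ T, 0 < ρ b) →
    (∀ b ∈ T, ∀ z ∈ Z b, ∃ j, |z - v b j| ≤ ρ b) →
    (MX.unif K).real {y | ∀ b ∈ T, (inner ℝ (θ b) y : ℝ) ∈ Z b} ≤
      C * ∏ b ∈ T, ((N b : ℝ) * ρ b) := by
  obtain ⟨C, hC1, hC⟩ := box m
  refine ⟨C, hC1, ?_⟩
  intro k n π K hK hI θ T ρ N v Z hT hθ hρ hZ
  have h1 := gzb_key hK θ ρ N v Z T hθ hZ univ MeasurableSet.univ convex_univ
    (fun b _ y _ => mem_univ _)
  rw [univ_inter, univ_inter] at h1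
  have h2 := hC k n π K hK hI θ T ρ hT hθ hρ
  refine h1.trans ((mul_le_mul_of_nonneg_left h2
    (Finset.prod_nonneg fun _ _ => Nat.cast_nonneg _)).trans (le_of_eq ?_))
  rw [Finset.prod_mul_distrib]
  ring

end Pool.Agent.UK
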