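import Pool.Agent.UK.WSym
import Pool.Agent.UK.VK
import Pool.Agent.UK.Sgn
import Pool.Agent.UB.IntV

/-!
# UK-LH: the part `(1 - S)^J ∑ d_i v_i`

`S = So 1 λ`, `λ = N^(-γ)`.  PLAN.  `interpV` with `T v = (1-S)^J ∑_i kv (wd_i) (v_i)` (additive by linearity), `B = 2^(J) N`,
`b = C' N^(-1/2)`.
* `L^∞`: `|∑ kv (wd_i) (v_i)| ≤ θ⁻¹ cv P (∑ |v_i|)` (`kv_le_cv`, `|wd| ≤ wt ≤ θ⁻¹ ≤ N`), `(1-S)^J` has norm `≤ 2^J` (`Opr.om`, `Opr.iter`).
* `L²`: `l2vec` with `A = (1-S)^J`, and `sqf v ≤ l1f v`.  Symbol of `d_i`: `δ_i = kvs (wd_i) = ξ_i² kvs (we_i)` (`wsym`), so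
`(1 + ξ_i²) δ_i = ξ_i² (kvs (wd_i) + kvs (we_i))` and by `kvs_le` (weights depend on absolute values, `|wd| ≤ θ⁻¹ ≤ N`,
`|we| ≤ θ/4 ≤ N`): `|δ_i| ≤ min (1, ξ_i²) 2 N Φ`.  Hence `∑ δ_i² ≤ 4 N² Am Φ²` (`min(1,x)² ≤ min (1,x)`).
With `s = ss 1 λ ξ`: `0 ≤ 1 - s ≤ min (1, 4 λ Am)` (`ss_bd`).  If `Am ≤ N^(γ/2)`: `(1-s)^(2J) ∑ δ² ≤ 16^J N^(-γJ) 4 N² N^(γ/2)`.  If
`Am > N^(γ/2)`: `≤ 4 N² Am Φ² ≤ 4 N² (c l)² (1+Am)^(1-2l) ≤ 4 N² (c l)² N^(-(γ/2)(2l-1))` (`Geo.dec`).  Both `≤ C N^(-q)` for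
`J`, `l` large depending on `γ, q` (e.g. `J = l = ⌈(q+3)/γ⌉ + 1`), i.e. `≤ (b^q)²`.
* Result: `8 b² B = 8 C'² 2^J`.
-/

set_option autoImplicit false

open MeasureTheory Set
open scoped ENNReal NNReal

namespace Pool.Agent.UK

open Pool.Agent.CB Pool.Agent.UB

private theorem key_pow {γ : ℝ} {q J : ℕ} (hJ : (q : ℝ) + 2 + γ / 2 ≤ γ * J) {N : ℝ}
    (hN : 1 ≤ N) : N ^ (q + 2) * N ^ (γ / 2) ≤ (N ^ (γ / 2)) ^ (2 * J) := by
  have hN0 : 0 < N := by linarith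
  have e1 : N ^ (q + 2) = N ^ ((q : ℝ) + 2) := by
    rw [← Real.rpow_natCast]
    push_cast
    rfl
  have e2 : (N ^ (γ / 2)) ^ (2 * J) = N ^ (γ * J) := by
    rw [← Real.rpow_natCast, ← Real.rpow_mul hN0.le]
    congr 1
    push_cast
    ring
  rw [e1, e2, ← Real.rpow_add hN0]
  exact Real.rpow_le_rpow_of_exponent_le hN (by linarith)

private theorem Am_nonneg {n : ℕ} (ξ : V n) : 0 ≤ Am ξ :=
  Finset.sum_nonneg fun i _ => le_min zero_le_one (sq_nonneg _)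

private theorem del_bd {c : ℕ → ℝ} {n : ℕ} {K : Set (V n)} (hK : Geo c K) {N : ℝ} (hN : 1 ≤ N)
    (b : ℕ) {θ : ℝ} (hθ : 0 < θ) (hθb : θ ≤ (1 / 2) ^ (b + 1)) (hNθ : N⁻¹ ≤ θ) (ξ : V n)
    (i : Fin n) : kvs (MX.unif K) (wd K b θ i) ξ ^ 2 ≤ N ^ 2 * Phi K ξ ^ 2 * min 1 (ξ i ^ 2) := by
  have hU : SB K := hK.toSB
  have hN0 : 0 < N := by linarith
  have hθN : θ⁻¹ ≤ N := by
    rw [inv_le_comm₀ hθ hN0]
    exact hNθ
  have hP0 : 0 ≤ Phi K ξ := Phi_nonneg K ξ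
  have hθ1 : θ ≤ 1 := le_trans hθb (pow_le_one₀ (by norm_num) (by norm_num))
  have h1 : |kvs (MX.unif K) (wd K b θ i) ξ| ≤ θ⁻¹ * Phi K ξ := by
    refine kvs_le hU (wtt_wd hU b hθ i) (wd_sign hU b θ i) (by positivity) ?_ ξ
    exact Filter.Eventually.of_forall fun y => le_trans (abs_wd_le b hθ i y) (wt_le b hθ i y)
  have h2 : |kvs (MX.unif K) (we K b θ i) ξ| ≤ θ / 4 * Phi K ξ := by
    refine kvs_le hU (wtt_we hU b hθ i) (we_sign hU b θ i) (by positivity) ?_ ξ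
    exact Filter.Eventually.of_forall fun y => abs_we_le hU b hθ i y
  have h3 : |kvs (MX.unif K) (wd K b θ i) ξ| ≤ N * Phi K ξ :=
    le_trans h1 (mul_le_mul_of_nonneg_right hθN hP0)
  have h4 : |kvs (MX.unif K) (wd K b θ i) ξ| ≤ ξ i ^ 2 * (N * Phi K ξ) := by
    rw [wsym hU b hθ hθb i ξ, abs_mul, abs_of_nonneg (sq_nonneg (ξ i))]
    apply mul_le_mul_of_nonneg_left _ (sq_nonneg _)
    refine le_trans h2 (mul_le_mul_of_nonneg_right (by linarith) hP0)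
  have hNP : 0 ≤ N * Phi K ξ := by positivity
  have h5 : |kvs (MX.unif K) (wd K b θ i) ξ| ≤ min 1 (ξ i ^ 2) * (N * Phi K ξ) := by
    rcases le_total (1 : ℝ) (ξ i ^ 2) with h | h
    · rw [min_eq_left h, one_mul]
      exact h3
    · rw [min_eq_right h]
      exact h4
  have h6 : 0 ≤ min 1 (ξ i ^ 2) := le_min zero_le_one (sq_nonneg _)
  have h7 : min 1 (ξ i ^ 2) ≤ 1 := min_le_left _ _
  have h8 : kvs (MX.unif K) (wd K b θ i) ξ ^ 2 ≤ (min 1 (ξ i ^ 2) * (N * Phi K ξ)) ^ 2 := by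
    rw [← sq_abs]
    exact pow_le_pow_left₀ (abs_nonneg _) h5 2
  refine le_trans h8 ?_
  have h9 : min 1 (ξ i ^ 2) ^ 2 ≤ min 1 (ξ i ^ 2) := by nlinarith
  calc (min 1 (ξ i ^ 2) * (N * Phi K ξ)) ^ 2 = min 1 (ξ i ^ 2) ^ 2 * (N * Phi K ξ) ^ 2 := by ring
    _ ≤ min 1 (ξ i ^ 2) * (N * Phi K ξ) ^ 2 := mul_le_mul_of_nonneg_right h9 (sq_nonneg _)
    _ = N ^ 2 * Phi K ξ ^ 2 * min 1 (ξ i ^ 2) := by ring

private theorem sym_bd {c : ℕ → ℝ} {γ : ℝ} (hγ : 0 < γ) {q J : ℕ} (hJ1 : 1 ≤ J)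
    (hJ : (q : ℝ) + 2 + γ / 2 ≤ γ * J) {n : ℕ} {K : Set (V n)} (hK : Geo c K) {N : ℝ} (hN : 1 ≤ N)
    (b : ℕ) {θ : ℝ} (hθ : 0 < θ) (hθb : θ ≤ (1 / 2) ^ (b + 1)) (hNθ : N⁻¹ ≤ θ) (ξ : V n) :
    ((1 - ss 1 (N ^ (-γ)) ξ) ^ J) ^ 2 * ∑ i, kvs (MX.unif K) (wd K b θ i) ξ ^ 2 ≤
      (16 ^ J + c J ^ 2) / N ^ q := by
  have hU : SB K := hK.toSB
  have hN0 : 0 < N := by linarith
  have hP0 : 0 ≤ Phi K ξ := Phi_nonneg K ξ
  have hP1 : Phi K ξ ≤ 1 := Phi_le_one hU ξ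
  have hA0 : 0 ≤ Am ξ := Am_nonneg ξ
  have hl0 : 0 < N ^ (-γ) := Real.rpow_pos_of_pos hN0 _
  have hl1 : N ^ (-γ) ≤ 1 := Real.rpow_le_one_of_one_le_of_nonpos hN (by linarith)
  obtain ⟨hs0, hs1, hs2⟩ := ss_bd (n := n) (r := 1) one_pos le_rfl hl0 hl1 ξ
  have hM1 : 1 ≤ N ^ (γ / 2) := Real.one_le_rpow hN (by positivity)
  have hlam : N ^ (-γ) = ((N ^ (γ / 2)) ^ 2)⁻¹ := by
    rw [← Real.rpow_natCast, ← Real.rpow_mul hN0.le, Real.rpow_neg hN0.le]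
    congr 2
    push_cast
    ring
  have hkey := key_pow hJ hN
  set s := ss 1 (N ^ (-γ)) ξ with hs
  set A := Am ξ with hA
  set P := Phi K ξ with hP
  set M := N ^ (γ / 2) with hM
  have hM0 : 0 < M := by linarith
  have hsum : ∑ i, kvs (MX.unif K) (wd K b θ i) ξ ^ 2 ≤ N ^ 2 * P ^ 2 * A := by
    refine le_trans (Finset.sum_le_sum fun i _ => del_bd hK hN b hθ hθb hNθ ξ i) (le_of_eq ?_)
    rw [← Finset.mul_sum]
    rfl
  have hNq : 0 < N ^ q := by positivity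
  have hM2J : 0 < M ^ (2 * J) := by positivity
  have hkey' : N ^ 2 * M / M ^ (2 * J) ≤ 1 / N ^ q := by
    rw [div_le_div_iff₀ hM2J hNq]
    calc N ^ 2 * M * N ^ q = N ^ (q + 2) * M := by ring
      _ ≤ 1 * M ^ (2 * J) := by rw [one_mul]; exact hkey
  have hα : ((1 - s) ^ J) ^ 2 = (1 - s) ^ (2 * J) := by rw [← pow_mul, mul_comm]
  have hc0 : (0 : ℝ) ≤ c J ^ 2 := sq_nonneg _
  have h16 : (0 : ℝ) ≤ 16 ^ J := by positivity
  rw [hα]
  rcases le_or_gt A M with hAM | hAM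
  · have h1 : 1 - s ≤ 4 / M := by
      refine le_trans hs2 ?_
      rw [hlam]
      calc 4 * (M ^ 2)⁻¹ * A ≤ 4 * (M ^ 2)⁻¹ * M := mul_le_mul_of_nonneg_left hAM (by positivity)
        _ = 4 / M := by field_simp
    have h2 : (1 - s) ^ (2 * J) ≤ 16 ^ J / M ^ (2 * J) := by
      refine le_trans (pow_le_pow_left₀ (by linarith) h1 (2 * J)) (le_of_eq ?_)
      rw [div_pow, pow_mul]
      norm_num
    have h3 : N ^ 2 * P ^ 2 * A ≤ N ^ 2 * M := by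
      have : P ^ 2 ≤ 1 := pow_le_one₀ hP0 hP1
      calc N ^ 2 * P ^ 2 * A ≤ N ^ 2 * 1 * M := by gcongr
        _ = N ^ 2 * M := by ring
    calc (1 - s) ^ (2 * J) * ∑ i, kvs (MX.unif K) (wd K b θ i) ξ ^ 2
        ≤ 16 ^ J / M ^ (2 * J) * (N ^ 2 * M) := by
          apply mul_le_mul h2 (le_trans hsum h3)
            (Finset.sum_nonneg fun i _ => sq_nonneg _) (by positivity)
      _ = 16 ^ J * (N ^ 2 * M / M ^ (2 * J)) := by ring
      _ ≤ 16 ^ J * (1 / N ^ q) := mul_le_mul_of_nonneg_left hkey' h16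
      _ = 16 ^ J / N ^ q := by ring
      _ ≤ (16 ^ J + c J ^ 2) / N ^ q := by
          apply div_le_div_of_nonneg_right _ hNq.le
          linarith
  · have h1 : (1 - s) ^ (2 * J) ≤ 1 := pow_le_one₀ (by linarith) (by linarith)
    have hd : P * (1 + A) ^ J ≤ c J := hK.dec J ξ
    have h2 : P ^ 2 * (1 + A) ^ (2 * J) ≤ c J ^ 2 := by
      have h0 : 0 ≤ P * (1 + A) ^ J := by positivity
      calc P ^ 2 * (1 + A) ^ (2 * J) = (P * (1 + A) ^ J) ^ 2 := by ring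
        _ ≤ c J ^ 2 := pow_le_pow_left₀ h0 hd 2
    obtain ⟨m, rfl⟩ := Nat.exists_eq_add_of_le hJ1
    have h3 : M ^ (2 * (1 + m)) * A ≤ M * (1 + A) ^ (2 * (1 + m)) := by
      have e1 : M ^ (2 * (1 + m)) = M * M ^ (2 * m + 1) := by ring
      have e2 : (1 + A) ^ (2 * (1 + m)) = (1 + A) ^ (2 * m + 1) * (1 + A) := by ring
      rw [e1, e2, mul_assoc]
      apply mul_le_mul_of_nonneg_left _ hM0.le
      apply mul_le_mul _ (by linarith) hA0 (by positivity)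
      exact pow_le_pow_left₀ hM0.le (by linarith) _
    have h4 : P ^ 2 * A ≤ c (1 + m) ^ 2 * (M / M ^ (2 * (1 + m))) := by
      rw [mul_div_assoc', le_div_iff₀ hM2J]
      calc P ^ 2 * A * M ^ (2 * (1 + m)) = P ^ 2 * (M ^ (2 * (1 + m)) * A) := by ring
        _ ≤ P ^ 2 * (M * (1 + A) ^ (2 * (1 + m))) := mul_le_mul_of_nonneg_left h3 (sq_nonneg _)
        _ = M * (P ^ 2 * (1 + A) ^ (2 * (1 + m))) := by ring
        _ ≤ M * c (1 + m) ^ 2 := mul_le_mul_of_nonneg_left h2 hM0.le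
        _ = c (1 + m) ^ 2 * M := by ring
    calc (1 - s) ^ (2 * (1 + m)) * ∑ i, kvs (MX.unif K) (wd K b θ i) ξ ^ 2
        ≤ 1 * (N ^ 2 * P ^ 2 * A) := by
          apply mul_le_mul h1 hsum (Finset.sum_nonneg fun i _ => sq_nonneg _) zero_le_one
      _ = N ^ 2 * (P ^ 2 * A) := by ring
      _ ≤ N ^ 2 * (c (1 + m) ^ 2 * (M / M ^ (2 * (1 + m)))) :=
          mul_le_mul_of_nonneg_left h4 (by positivity)
      _ = c (1 + m) ^ 2 * (N ^ 2 * M / M ^ (2 * (1 + m))) := by ring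
      _ ≤ c (1 + m) ^ 2 * (1 / N ^ q) := mul_le_mul_of_nonneg_left hkey' hc0
      _ = c (1 + m) ^ 2 / N ^ q := by ring
      _ ≤ (16 ^ (1 + m) + c (1 + m) ^ 2) / N ^ q := by
          apply div_le_div_of_nonneg_right _ hNq.le
          linarith

theorem lh (c : ℕ → ℝ) {γ : ℝ} (hγ : 0 < γ) {q : ℕ} (hq : 2 ≤ q) :
    ∃ (J : ℕ) (C : ℝ), 0 ≤ C ∧ ∀ (n : ℕ) (K : Set (V n)), Geo c K → ∀ N : ℝ, 1 ≤ N →
      ∀ (b : ℕ) (θ : ℝ), 0 < θ → θ ≤ (1 / 2) ^ (b + 1) → N⁻¹ ≤ θ →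
      ∀ v : Fin n → V n → ℝ, (∀ i, Nice (v i)) →
        nm q ((om (So 1 (N ^ (-γ))))^[J] fun x => ∑ i, kv (MX.unif K) (wd K b θ i) (v i) x) ≤
          ENNReal.ofReal C * nm q (l1f v) := by
  set J : ℕ := ⌈((q : ℝ) + 3) / γ⌉₊ + 1 with hJdef
  have hJ1 : 1 ≤ J := by omega
  have hJ : (q : ℝ) + 2 + γ / 2 ≤ γ * J := by
    have h1 : ((q : ℝ) + 3) / γ ≤ ⌈((q : ℝ) + 3) / γ⌉₊ := Nat.le_ceil _
    rw [div_le_iff₀ hγ] at h1
    rw [hJdef]
    push_cast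
    nlinarith
  set C' : ℝ := 16 ^ J + c J ^ 2 + 1 with hC'
  have hC'1 : 1 ≤ C' := by
    have : (0 : ℝ) ≤ 16 ^ J := by positivity
    have : (0 : ℝ) ≤ c J ^ 2 := sq_nonneg _
    linarith
  refine ⟨J, 8 * C' ^ 2 * 2 ^ J, by positivity, ?_⟩
  intro n K hK N hN b θ hθ hθb hNθ v hv
  have hU : SB K := hK.toSB
  have hsp : SymP (MX.unif K) := hU.symP
  have hN0 : 0 < N := by linarith
  have hl0 : 0 < N ^ (-γ) := Real.rpow_pos_of_pos hN0 _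
  have hl1 : N ^ (-γ) ≤ 1 := Real.rpow_le_one_of_one_le_of_nonpos hN (by linarith)
  have hA : Opr (fun ξ => (1 - ss 1 (N ^ (-γ)) ξ) ^ J) ((1 + 1) ^ J)
      (fun f : V n → ℝ => (om (So 1 (N ^ (-γ))))^[J] f) :=
    (opr_So one_pos hl0 hl1).om.iter J
  have hkv : ∀ i, Mul (kvs (MX.unif K) (wd K b θ i)) (kv (MX.unif K) (wd K b θ i)) :=
    fun i => mul_kv hsp (wtt_wd hU b hθ i)
  have hng : ∀ w : Fin n → V n → ℝ, (∀ i, Nice (w i)) →
      Nice fun x => ∑ i, kv (MX.unif K) (wd K b θ i) (w i) x := fun w hw =>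
    nice_sum Finset.univ fun i _ => (hkv i).nice _ (hw i)
  have hθN : θ⁻¹ ≤ N := by
    rw [inv_le_comm₀ hθ hN0]
    exact hNθ
  have hsq : (C' / Real.sqrt N) ^ 2 = C' ^ 2 / N := by
    rw [div_pow, Real.sq_sqrt hN0.le]
  have hb0 : 0 ≤ C' / Real.sqrt N := by positivity
  have hB1 : (1 : ℝ) ≤ 2 ^ J * N := by
    have : (1 : ℝ) ≤ 2 ^ J := one_le_pow₀ (by norm_num)
    nlinarith
  have hmain := interpV (m := n) (n := n)
    (fun w : Fin n → V n → ℝ => (om (So 1 (N ^ (-γ))))^[J] fun x =>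
      ∑ i, kv (MX.unif K) (wd K b θ i) (w i) x) (fun w hw => hA.nice _ (hng w hw))
    (fun w w' hw hw' => by
      have e1 : (fun x => ∑ i, kv (MX.unif K) (wd K b θ i) (fun x => w i x + w' i x) x) =
          fun x => (∑ i, kv (MX.unif K) (wd K b θ i) (w i) x) +
            ∑ i, kv (MX.unif K) (wd K b θ i) (w' i) x := by
        funext x
        rw [← Finset.sum_add_distrib]
        refine Finset.sum_congr rfl fun i _ => ?_
        exact congrFun ((hkv i).map_add (hw i) (hw' i)) x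
      have e2 := hA.toMul.map_add (hng w hw) (hng w' hw')
      simp only [e1]
      exact e2) hq hb0 hB1
    (fun w hw => by
      have h1 : ∀ ξ, ((1 - ss 1 (N ^ (-γ)) ξ) ^ J) ^ 2 *
          ∑ i, kvs (MX.unif K) (wd K b θ i) ξ ^ 2 ≤ ((C' / Real.sqrt N) ^ q) ^ 2 := by
        intro ξ
        refine le_trans (sym_bd hγ hJ1 hJ hK hN b hθ hθb hNθ ξ) ?_
        have e1 : ((C' / Real.sqrt N) ^ q) ^ 2 = (C' ^ 2) ^ q / N ^ q := by
          rw [← pow_mul, mul_comm, pow_mul, hsq, div_pow]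
        rw [e1]
        apply div_le_div_of_nonneg_right _ (by positivity)
        have e2 : C' ≤ C' ^ 2 := by nlinarith
        have e3 : C' ^ 2 ≤ (C' ^ 2) ^ q := le_self_pow₀ (by nlinarith) (by omega)
        linarith
      refine le_trans (l2vec hkv hA.toMul (by positivity) h1 w hw) ?_
      apply mul_le_mul_right
      apply nm_mono
      intro x
      rw [abs_of_nonneg (sqf_nonneg w x)]
      exact sqf_le_l1f w x)
    (fun w hw => by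
      refine le_trans (hA.bd ⊤ le_top _ (hng w hw)) ?_
      have hnl : Nice (l1f w) := nice_l1f hw
      have h1 : ∀ x, |∑ i, kv (MX.unif K) (wd K b θ i) (w i) x| ≤
          N * cv (MX.unif K) (l1f w) x := by
        intro x
        have e1 : cv (MX.unif K) (l1f w) x = ∑ i, cv (MX.unif K) (fun y => |w i y|) x :=
          congrFun ((Mul.cv hsp).map_sum Finset.univ (f := fun i y => |w i y|)
            fun i _ => (hw i).abs) x
        rw [e1, Finset.mul_sum]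
        refine le_trans (Finset.abs_sum_le_sum_abs _ _) (Finset.sum_le_sum fun i _ => ?_)
        refine kv_le_cv hsp (wtt_wd hU b hθ i) (Filter.Eventually.of_forall fun y => ?_) (hw i) x
        exact le_trans (abs_wd_le b hθ i y) (le_trans (wt_le b hθ i y) hθN)
      have h2 : nm ⊤ (fun x => ∑ i, kv (MX.unif K) (wd K b θ i) (w i) x) ≤
          ENNReal.ofReal N * nm ⊤ (l1f w) := by
        refine le_trans (nm_mono h1) ?_
        rw [nm_smul, abs_of_pos hN0]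
        apply mul_le_mul_right
        have h3 := (opr_cv hsp).bd ⊤ le_top _ hnl
        rwa [ENNReal.ofReal_one, one_mul] at h3
      calc ENNReal.ofReal ((1 + 1) ^ J) * nm ⊤ (fun x => ∑ i, kv (MX.unif K) (wd K b θ i) (w i) x)
          ≤ ENNReal.ofReal ((1 + 1) ^ J) * (ENNReal.ofReal N * nm ⊤ (l1f w)) :=
            mul_le_mul_right h2 _
        _ = ENNReal.ofReal (2 ^ J * N) * nm ⊤ (l1f w) := by
            rw [← mul_assoc, ← ENNReal.ofReal_mul (by positivity)]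
            norm_num) v hv
  refine le_trans hmain (le_of_eq ?_)
  congr 2
  rw [hsq]
  field_simp


end Pool.Agent.UK
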