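import Pool.Agent.UK.LH
import Pool.Agent.UB.SumD
import Pool.Agent.UB.MulB

/-!
# UK-Rec: the recursion for `K*_q`

PLAN.  `q = 2 j`, `λ = N^(-γ)`, `S = So 1 λ`, `M = Mo 1 λ`, `k = kk n`; `F = ∑ d_i v_i`, `d_i = kv (wd_i)`, so
`∑ τ_i^{θ/2} v_i = ∑ τ_i^θ v_i + F` (`kv_sub_weight`).  `F = (1-S)^J F + ∑_{l<J} (1-S)^l S F` (`Mul.ext`, geometric sum).  First term: `lh`.
`S F = M^(k+1) M^(k-1) F` and `M^(k-1) F = ∑ (1 - H_i) M^(k-1) u_i`, `u_i = kv (wd_i + we_i) (v_i)` (`wd_op`, commutation), so by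
`sumM`: `‖S F‖_q ≤ (c3 q/λ) ‖sqf u‖_q` and `|u_i| ≤ τ_i^θ |v_i| + P |v_i|` (`abs_wd_le`, `abs_we_le`, `θ/4 ≤ 1`), so
`‖sqf u‖_q ≤ (V + 1) ‖sqf v‖_q ≤ (V+1) ‖l1f v‖_q` (`VB` applied to `|v_i|`, `vb_P`, `sqf_add`, `sqf_abs`).
`∑_{l<J} (1-S)^l` has norm `≤ 2^J`.  `λ⁻¹ = N^γ ≥ 1`.
-/

set_option autoImplicit false

open MeasureTheory Set
open scoped ENNReal NNReal

namespace Pool.Agent.UK

open Pool.Agent.CB Pool.Agent.UB

private theorem geom_two (J : ℕ) : ∑ l ∈ Finset.range J, ((1 : ℝ) + 1) ^ l ≤ 2 ^ J := by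
  induction J with
  | zero => simp
  | succ J ih =>
    rw [Finset.sum_range_succ]
    have h : ((1 : ℝ) + 1) ^ J = 2 ^ J := by norm_num
    rw [h, pow_succ]
    linarith

private theorem u_bound {n : ℕ} {K : Set (V n)} (hU : SB K) {b : ℕ} {θ : ℝ} (hθ : 0 < θ)
    (hθ1 : θ ≤ 1) (i : Fin n) {f : V n → ℝ} (hf : Nice f) (x : V n) :
    |kv (MX.unif K) (fun y => wd K b θ i y + we K b θ i y) f x| ≤
      ta K b θ i (fun y => |f y|) x + cv (MX.unif K) (fun y => |f y|) x := by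
  have hP : SymP (MX.unif K) := hU.symP
  have h1 : Wtt (fun _ : V n => (1 : ℝ)) := ⟨measurable_const, ⟨1, fun _ => by simp⟩, fun _ => rfl⟩
  have hwt := wtt_wt hU b hθ i
  have hwd := wtt_wd hU b hθ i
  have hwe := wtt_we hU b hθ i
  have hadd : Wtt (fun y => wd K b θ i y + we K b θ i y) := by
    obtain ⟨B1, hB1⟩ := hwd.bdd
    obtain ⟨B2, hB2⟩ := hwe.bdd
    refine ⟨hwd.meas.add hwe.meas, ⟨B1 + B2, fun y => ?_⟩, fun y => ?_⟩
    · exact (abs_add_le _ _).trans (add_le_add (hB1 y) (hB2 y))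
    · rw [hwd.even, hwe.even]
  have hadd1 : Wtt (fun y => wt K b θ i y + 1) := by
    obtain ⟨B1, hB1⟩ := hwt.bdd
    refine ⟨hwt.meas.add measurable_const, ⟨B1 + 1, fun y => ?_⟩, fun y => ?_⟩
    · refine (abs_add_le _ _).trans (add_le_add (hB1 y) ?_)
      rw [abs_one]
    · rw [hwt.even]
  have h2 := abs_kv_le hP hadd hadd1 (Filter.Eventually.of_forall fun y => by
    refine (abs_add_le _ _).trans (add_le_add (abs_wd_le b hθ i y) ?_)
    refine (abs_we_le hU b hθ i y).trans ?_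
    linarith) hf x
  have h3 := congrFun (kv_add_weight hP hwt h1 hf.abs) x
  have h4 : kv (MX.unif K) (fun _ => (1 : ℝ)) (fun y => |f y|) x =
      cv (MX.unif K) (fun y => |f y|) x := by
    unfold kv cv
    simp only [one_mul]
  rw [h4] at h3
  exact h2.trans h3.le

private theorem u_norm {n : ℕ} {K : Set (V n)} (hU : SB K) {b : ℕ} {θ : ℝ} (hθ : 0 < θ)
    (hθ1 : θ ≤ 1) {q : ℝ≥0∞} (hq : 1 ≤ q) {W : ℝ} (hW : 0 ≤ W) (hVB : VB q W (ta K b θ))
    {v : Fin n → V n → ℝ} (hv : ∀ i, Nice (v i)) :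
    nm q (sqf fun i => kv (MX.unif K) (fun y => wd K b θ i y + we K b θ i y) (v i)) ≤
      ENNReal.ofReal (W + 1) * nm q (l1f v) := by
  have hP : SymP (MX.unif K) := hU.symP
  haveI := hU.prob
  have ha : ∀ i, Nice (fun y => |v i y|) := fun i => (hv i).abs
  have hT : ∀ i, Nice (ta K b θ i fun y => |v i y|) := fun i =>
    (mul_kv hP (wtt_wt hU b hθ i)).nice _ (ha i)
  have hC : ∀ i, Nice (cv (MX.unif K) fun y => |v i y|) := fun i => nice_cv (ha i)
  have h1 : nm q (sqf fun i => kv (MX.unif K) (fun y => wd K b θ i y + we K b θ i y) (v i)) ≤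
      nm q (fun x => sqf (fun i => ta K b θ i fun y => |v i y|) x +
        sqf (fun i => cv (MX.unif K) fun y => |v i y|) x) := by
    refine nm_mono fun x => ?_
    rw [abs_of_nonneg (sqf_nonneg _ _)]
    refine le_trans (sqf_mono fun i => ?_)
      (sqf_add (fun i => ta K b θ i fun y => |v i y|) (fun i => cv (MX.unif K) fun y => |v i y|) x)
    exact (u_bound hU hθ hθ1 i (hv i) x).trans (le_abs_self _)
  have h2 := nm_add_le hq (nice_sqf hT) (nice_sqf hC)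
  have h3 := hVB (fun i y => |v i y|) ha
  have h4 := vb_P hU hq hv
  rw [sqf_abs] at h3
  have h5 : nm q (sqf v) ≤ nm q (l1f v) := by
    refine nm_mono fun x => ?_
    rw [abs_of_nonneg (sqf_nonneg _ _)]
    exact sqf_le_l1f v x
  calc _ ≤ _ := h1
    _ ≤ _ := h2
    _ ≤ ENNReal.ofReal W * nm q (sqf v) + nm q (sqf v) := add_le_add h3 h4
    _ = ENNReal.ofReal (W + 1) * nm q (sqf v) := by
        rw [ENNReal.ofReal_add hW zero_le_one, ENNReal.ofReal_one, add_mul, one_mul]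
    _ ≤ _ := mul_le_mul_right h5 _

theorem rec_step (c : ℕ → ℝ) {γ : ℝ} (hγ : 0 < γ) {j : ℕ} (hj : 1 ≤ j) :
    ∃ C : ℝ, 0 ≤ C ∧ ∀ (n : ℕ) (K : Set (V n)), Geo c K → ∀ N : ℝ, 1 ≤ N →
      ∀ (b : ℕ) (θ : ℝ), 0 < θ → θ ≤ (1 / 2) ^ (b + 1) → N⁻¹ ≤ θ →
      ∀ Ko W : ℝ, 0 ≤ Ko → 0 ≤ W → KB ((2 * j : ℕ) : ℝ≥0∞) Ko (ta K b θ) →
        VB ((2 * j : ℕ) : ℝ≥0∞) W (ta K b θ) →
        KB ((2 * j : ℕ) : ℝ≥0∞) (Ko + C * N ^ γ * (W + 1)) (ta K b (θ / 2)) := by
  obtain ⟨J, C1, hC1, hlh⟩ := lh c hγ (q := 2 * j) (by omega)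
  have hc3 : 0 ≤ c3 (2 * j) := by
    unfold c3
    positivity
  refine ⟨C1 + 2 ^ J * c3 (2 * j), by positivity, ?_⟩
  intro n K hK N hN b θ hθ hθb hNθ Ko W hKo hW hKB hVB v hv
  have hU : SB K := hK.toSB
  have hP : SymP (MX.unif K) := hU.symP
  have hN0 : 0 < N := by linarith
  have hl0 : 0 < N ^ (-γ) := Real.rpow_pos_of_pos hN0 _
  have hl1 : N ^ (-γ) ≤ 1 := Real.rpow_le_one_of_one_le_of_nonpos hN (by linarith)
  have hθ1 : θ ≤ 1 := hθb.trans (pow_le_one₀ (by norm_num) (by norm_num))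
  have hq : (1 : ℝ≥0∞) ≤ ((2 * j : ℕ) : ℝ≥0∞) := by exact_mod_cast (by omega : 1 ≤ 2 * j)
  have hlh' := hlh n K hK N hN b θ hθ hθb hNθ v hv
  have hsumM := fun (w : Fin n → V n → ℝ) (hw : ∀ i, Nice (w i)) =>
    sumM (n := n) (j := j) hj (r := 1) (lam := N ^ (-γ)) one_pos hl0 hl1 (w := w) hw
  have hkb := hKB v hv
  have hun := u_norm hU hθ hθ1 hq hW hVB hv
  generalize ((2 * j : ℕ) : ℝ≥0∞) = q at *
  obtain ⟨lam, hlam⟩ : ∃ lam, lam = N ^ (-γ) := ⟨_, rfl⟩
  rw [← hlam] at hl0 hl1 hlh' hsumM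
  have hd : ∀ i, Nice (kv (MX.unif K) (wd K b θ i) (v i)) := fun i =>
    (mul_kv hP (wtt_wd hU b hθ i)).nice _ (hv i)
  have hwde : ∀ i, Wtt (fun y => wd K b θ i y + we K b θ i y) := by
    intro i
    have hwd := wtt_wd hU b hθ i
    have hwe := wtt_we hU b hθ i
    obtain ⟨B1, hB1⟩ := hwd.bdd
    obtain ⟨B2, hB2⟩ := hwe.bdd
    refine ⟨hwd.meas.add hwe.meas, ⟨B1 + B2, fun y => ?_⟩, fun y => ?_⟩
    · exact (abs_add_le _ _).trans (add_le_add (hB1 y) (hB2 y))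
    · rw [hwd.even, hwe.even]
  have hu : ∀ i, Nice (kv (MX.unif K) (fun y => wd K b θ i y + we K b θ i y) (v i)) := fun i =>
    (mul_kv hP (hwde i)).nice _ (hv i)
  obtain ⟨F, hFd⟩ : ∃ F : V n → ℝ, F = fun x => ∑ i, kv (MX.unif K) (wd K b θ i) (v i) x :=
    ⟨_, rfl⟩
  have hF : Nice F := by
    rw [hFd]
    exact nice_sum Finset.univ fun i _ => hd i
  rw [← hFd] at hlh'
  have ht : Nice (fun x => ∑ i, ta K b θ i (v i) x) :=
    nice_sum Finset.univ fun i _ => (mul_kv hP (wtt_wt hU b hθ i)).nice _ (hv i)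
  -- the splitting
  have h1 : (fun x => ∑ i, ta K b (θ / 2) i (v i) x) =
      fun x => (∑ i, ta K b θ i (v i) x) + F x := by
    funext x
    rw [hFd]
    change _ = (∑ i, ta K b θ i (v i) x) + ∑ i, kv (MX.unif K) (wd K b θ i) (v i) x
    rw [← Finset.sum_add_distrib]
    refine Finset.sum_congr rfl fun i _ => ?_
    have h2 : kv (MX.unif K) (wd K b θ i) (v i) x =
        ta K b (θ / 2) i (v i) x - ta K b θ i (v i) x :=
      congrFun (kv_sub_weight hP (wtt_wt hU b (half_pos hθ) i) (wtt_wt hU b hθ i) (hv i)) x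
    rw [h2]
    ring
  have hS := opr_So (n := n) (r := 1) (lam := lam) one_pos hl0 hl1
  have hM := opr_Mo (n := n) (r := 1) (lam := lam) one_pos hl0 hl1
  have hSF : Nice (So 1 lam F) := hS.nice F hF
  have hid : F = fun x => (om (So 1 lam))^[J] F x +
      ∑ l ∈ Finset.range J, (om (So 1 lam))^[l] (So 1 lam F) x := by
    refine Mul.ext (T := fun f => f)
      (S := fun f x => (om (So 1 lam))^[J] f x +
        ∑ l ∈ Finset.range J, (om (So 1 lam))^[l] (So 1 lam f) x) Mul.one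
      (Mul.add (hS.om.iter J).toMul
        (Mul.sum (Finset.range J) (τ := fun l ξ => (1 - ss 1 lam ξ) ^ l * ss 1 lam ξ)
          (T := fun l f => (om (So 1 lam))^[l] (So 1 lam f))
          fun l _ => Mul.comp (hS.om.iter l).toMul hS.toMul)) (fun ξ => ?_) hF
    have h3 := geom_sum_mul_neg (1 - ss 1 lam ξ) J
    rw [← Finset.sum_mul]
    have h4 : 1 - (1 - ss 1 lam ξ) = ss 1 lam ξ := by ring
    rw [h4] at h3
    rw [h3]
    ring
  have hJn : Nice ((om (So 1 lam))^[J] F) := (hS.om.iter J).nice F hF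
  have hln : ∀ l, Nice ((om (So 1 lam))^[l] (So 1 lam F)) := fun l =>
    (hS.om.iter l).nice _ hSF
  have hF1 : nm q F ≤ ENNReal.ofReal C1 * nm q (l1f v) +
      ENNReal.ofReal (2 ^ J) * nm q (So 1 lam F) := by
    calc nm q F = nm q (fun x => (om (So 1 lam))^[J] F x +
          ∑ l ∈ Finset.range J, (om (So 1 lam))^[l] (So 1 lam F) x) := by rw [← hid]
      _ ≤ nm q ((om (So 1 lam))^[J] F) +
          nm q (fun x => ∑ l ∈ Finset.range J, (om (So 1 lam))^[l] (So 1 lam F) x) :=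
          nm_add_le hq hJn (nice_sum _ fun l _ => hln l)
      _ ≤ ENNReal.ofReal C1 * nm q (l1f v) +
          ∑ l ∈ Finset.range J, nm q ((om (So 1 lam))^[l] (So 1 lam F)) :=
          add_le_add hlh' (nm_sum_le hq _ fun l _ => hln l)
      _ ≤ ENNReal.ofReal C1 * nm q (l1f v) +
          ∑ l ∈ Finset.range J, ENNReal.ofReal ((1 + 1) ^ l) * nm q (So 1 lam F) := by
          gcongr with l hl
          exact (hS.om.iter l).bd q hq _ hSF
      _ ≤ ENNReal.ofReal C1 * nm q (l1f v) +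
          ENNReal.ofReal (2 ^ J) * nm q (So 1 lam F) := by
          rw [← Finset.sum_mul, ← ENNReal.ofReal_sum_of_nonneg (fun l _ => by positivity)]
          gcongr
          exact geom_two J
  -- the smoothing part
  have hkk : 1 ≤ kk n := by
    unfold kk
    omega
  have hSM : nm q (So 1 lam F) ≤ nm q ((Mo 1 lam)^[kk n - 1] F) := by
    have h5 : So 1 lam F = (Mo 1 lam)^[kk n + 1] ((Mo 1 lam)^[kk n - 1] F) := by
      rw [← Function.iterate_add_apply]
      unfold So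
      congr 2
      omega
    rw [h5]
    have h6 := (hM.iter (kk n + 1)).bd q hq ((Mo 1 lam)^[kk n - 1] F)
      ((hM.iter (kk n - 1)).nice F hF)
    rw [one_pow, ENNReal.ofReal_one, one_mul] at h6
    exact h6
  have hMk := (hM.iter (kk n - 1)).toMul
  have hMF : (Mo 1 lam)^[kk n - 1] F = fun x => ∑ i, om (cv (dm lap i))
      ((Mo 1 lam)^[kk n - 1]
        (kv (MX.unif K) (fun y => wd K b θ i y + we K b θ i y) (v i))) x := by
    have h7 := hMk.map_sum Finset.univ (f := fun i => kv (MX.unif K) (wd K b θ i) (v i))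
      fun i _ => hd i
    have h8 : (Mo 1 lam)^[kk n - 1] F = fun x => ∑ i, (Mo 1 lam)^[kk n - 1]
        (kv (MX.unif K) (wd K b θ i) (v i)) x := by
      rw [hFd]
      exact h7
    rw [h8]
    funext x
    refine Finset.sum_congr rfl fun i _ => ?_
    have h9 := wd_op hU b hθ hθb i (hv i)
    have h10 := hMk.comm (Mul.om (Mul.cv (symP_dm symR_lap i))) (hu i)
    have h11 : (Mo 1 lam)^[kk n - 1] (kv (MX.unif K) (wd K b θ i) (v i)) =
        om (cv (dm lap i)) ((Mo 1 lam)^[kk n - 1]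
          (kv (MX.unif K) (fun y => wd K b θ i y + we K b θ i y) (v i))) := by
      rw [h9]
      exact h10
    exact congrFun h11 x
  have hsm := hsumM (fun i => kv (MX.unif K) (fun y => wd K b θ i y + we K b θ i y) (v i)) hu
  rw [← hMF] at hsm
  have hSF2 : nm q (So 1 lam F) ≤ ENNReal.ofReal (c3 (2 * j) / lam) *
      (ENNReal.ofReal (W + 1) * nm q (l1f v)) :=
    hSM.trans (hsm.trans (mul_le_mul_right hun _))
  have hlinv : c3 (2 * j) / lam = c3 (2 * j) * N ^ γ := by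
    rw [hlam, Real.rpow_neg hN0.le, div_inv_eq_mul]
  rw [hlinv] at hSF2
  have hNg : 1 ≤ N ^ γ := Real.one_le_rpow hN hγ.le
  rw [h1]
  calc nm q (fun x => (∑ i, ta K b θ i (v i) x) + F x)
      ≤ nm q (fun x => ∑ i, ta K b θ i (v i) x) + nm q F := nm_add_le hq ht hF
    _ ≤ ENNReal.ofReal Ko * nm q (l1f v) + (ENNReal.ofReal C1 * nm q (l1f v) +
        ENNReal.ofReal (2 ^ J) * (ENNReal.ofReal (c3 (2 * j) * N ^ γ) *
          (ENNReal.ofReal (W + 1) * nm q (l1f v)))) := by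
        refine add_le_add hkb (hF1.trans ?_)
        gcongr
    _ = ENNReal.ofReal (Ko + (C1 + 2 ^ J * ((c3 (2 * j) * N ^ γ) * (W + 1)))) *
        nm q (l1f v) := by
        have hX : 0 ≤ c3 (2 * j) * N ^ γ := by positivity
        rw [ENNReal.ofReal_add hKo (by positivity), ENNReal.ofReal_add hC1 (by positivity),
          ENNReal.ofReal_mul (p := 2 ^ J) (by positivity),
          ENNReal.ofReal_mul (p := c3 (2 * j) * N ^ γ) hX]
        generalize ENNReal.ofReal (c3 (2 * j) * N ^ γ) = X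
        ring
    _ ≤ ENNReal.ofReal (Ko + (C1 + 2 ^ J * c3 (2 * j)) * N ^ γ * (W + 1)) *
        nm q (l1f v) := by
        gcongr
        have h12 : C1 * 1 ≤ C1 * (N ^ γ * (W + 1)) := by
          apply mul_le_mul_of_nonneg_left _ hC1
          nlinarith
        linarith

end Pool.Agent.UK
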