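import Pool.Agent.UK.Chord

/-!
# UK-Wts: the weights

PLAN.  As `UB/Wts.lean`, with `nd K i y` instead of `hl K i y - |y i|`.  Measurability from `SB.measurable_hl`, `SB.measurable_nd`; evenness from `SB.even`;
invariance from `SB.hl_si`, `SB.nd_si`.  `0 ≤ nd`.
-/

set_option autoImplicit false

open MeasureTheory Set
open scoped ENNReal NNReal

namespace Pool.Agent.UK

open Pool.Agent.CB Pool.Agent.UB

variable {n : ℕ} {K : Set (V n)}

private theorem meas_Ib (b : ℕ) : MeasurableSet (Ib b) := by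
  unfold Ib
  split_ifs
  · exact measurableSet_Ioi
  · exact measurableSet_Ioc

private theorem wt_si (hK : SB K) (b : ℕ) (θ : ℝ) (i : Fin n) : SI K (wt K b θ i) := by
  intro ε hε y
  unfold wt
  rw [hK.hl_si i ε hε y, hK.nd_si i ε hε y]

theorem wt_nonneg (b : ℕ) {θ : ℝ} (hθ : 0 < θ) (i : Fin n) (y : V n) : 0 ≤ wt K b θ i y := by
  unfold wt
  split_ifs
  · exact inv_nonneg.mpr hθ.le
  · exact le_rfl

theorem wt_le (b : ℕ) {θ : ℝ} (hθ : 0 < θ) (i : Fin n) (y : V n) : wt K b θ i y ≤ θ⁻¹ := by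
  unfold wt
  split_ifs
  · exact le_rfl
  · exact inv_nonneg.mpr hθ.le

theorem ws_nonneg {r : ℝ} (hr : 0 < r) (i : Fin n) (y : V n) : 0 ≤ ws K r i y := by
  unfold ws
  split_ifs
  · exact inv_nonneg.mpr hr.le
  · exact le_rfl

theorem ws_le {r : ℝ} (hr : 0 < r) (i : Fin n) (y : V n) : ws K r i y ≤ r⁻¹ := by
  unfold ws
  split_ifs
  · exact le_rfl
  · exact inv_nonneg.mpr hr.le

theorem abs_wd_le (b : ℕ) {θ : ℝ} (hθ : 0 < θ) (i : Fin n) (y : V n) :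
    |wd K b θ i y| ≤ wt K b θ i y := by
  have hi : 0 < θ⁻¹ := inv_pos.mpr hθ
  have h2 : (θ / 2)⁻¹ = 2 * θ⁻¹ := by
    rw [inv_div]
    ring
  unfold wd wt
  by_cases h1 : hl K i y ∈ Ib b
  · by_cases h3 : nd K i y < θ / 2
    · have h4 : nd K i y < θ := by linarith
      rw [if_pos ⟨h1, h3⟩, if_pos ⟨h1, h4⟩, h2]
      rw [show 2 * θ⁻¹ - θ⁻¹ = θ⁻¹ by ring, abs_of_pos hi]
    · rw [if_neg (fun h => h3 h.2)]
      by_cases h4 : nd K i y < θ
      · rw [if_pos ⟨h1, h4⟩, zero_sub, abs_neg, abs_of_pos hi]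
      · rw [if_neg (fun h => h4 h.2), sub_zero, abs_zero]
  · rw [if_neg (fun h => h1 h.1), if_neg (fun h => h1 h.1), sub_zero, abs_zero]

private theorem abs_Ef_le {θ : ℝ} (hθ : 0 < θ) (u : ℝ) : |Ef θ u| ≤ θ / 4 := by
  have hi : 0 < θ⁻¹ := inv_pos.mpr hθ
  have hq : 0 < θ / 4 := by linarith
  have hm : θ⁻¹ * (θ ^ 2 / 4) = θ / 4 := by
    field_simp
  unfold Ef
  split_ifs with h1 h2 h3
  · rw [abs_zero]
    exact hq.le
  · push Not at h1
    have h4 : 0 ≤ u ^ 2 / 2 := by positivity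
    have h5 : u ^ 2 / 2 ≤ θ ^ 2 / 4 := by nlinarith
    rw [abs_neg, abs_of_nonneg (mul_nonneg hi.le h4)]
    calc θ⁻¹ * (u ^ 2 / 2) ≤ θ⁻¹ * (θ ^ 2 / 4) := mul_le_mul_of_nonneg_left h5 hi.le
      _ = θ / 4 := hm
  · push Not at h1 h2
    have h4 : 0 ≤ θ ^ 2 / 4 - (θ - u) ^ 2 / 2 := by nlinarith
    have h5 : θ ^ 2 / 4 - (θ - u) ^ 2 / 2 ≤ θ ^ 2 / 4 := by
      have : 0 ≤ (θ - u) ^ 2 := sq_nonneg _
      linarith
    rw [abs_neg, abs_of_nonneg (mul_nonneg hi.le h4)]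
    calc θ⁻¹ * (θ ^ 2 / 4 - (θ - u) ^ 2 / 2) ≤ θ⁻¹ * (θ ^ 2 / 4) :=
          mul_le_mul_of_nonneg_left h5 hi.le
      _ = θ / 4 := hm
  · rw [abs_neg, abs_of_pos hq]

theorem abs_we_le (hK : SB K) (b : ℕ) {θ : ℝ} (hθ : 0 < θ) (i : Fin n) (y : V n) :
    |we K b θ i y| ≤ θ / 4 := by
  unfold we
  split_ifs
  · exact abs_Ef_le hθ _
  · rw [abs_zero]
    linarith

/-- Invariance. -/
theorem wd_sign (hK : SB K) (b : ℕ) (θ : ℝ) (i : Fin n) : SI K (wd K b θ i) := by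
  intro ε hε y
  unfold wd
  rw [wt_si hK b (θ / 2) i ε hε y, wt_si hK b θ i ε hε y]

theorem we_sign (hK : SB K) (b : ℕ) (θ : ℝ) (i : Fin n) : SI K (we K b θ i) := by
  intro ε hε y
  unfold we
  rw [hK.hl_si i ε hε y, hK.nd_si i ε hε y]

private theorem ws_si (hK : SB K) (r : ℝ) (i : Fin n) : SI K (ws K r i) := by
  intro ε hε y
  unfold ws
  rw [hK.hl_si i ε hε y]

theorem wtt_wt (hK : SB K) (b : ℕ) {θ : ℝ} (hθ : 0 < θ) (i : Fin n) : Wtt (wt K b θ i) := by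
  refine ⟨?_, ⟨θ⁻¹, fun y => ?_⟩, hK.even (wt_si hK b θ i)⟩
  · unfold wt
    refine Measurable.ite ?_ measurable_const measurable_const
    exact (hK.measurable_hl i (meas_Ib b)).inter
      (measurableSet_lt (hK.measurable_nd i) measurable_const)
  · rw [abs_of_nonneg (wt_nonneg b hθ i y)]
    exact wt_le b hθ i y

theorem wtt_wd (hK : SB K) (b : ℕ) {θ : ℝ} (hθ : 0 < θ) (i : Fin n) : Wtt (wd K b θ i) := by
  refine ⟨?_, ⟨θ⁻¹, fun y => ?_⟩, hK.even (wd_sign hK b θ i)⟩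
  · unfold wd
    exact (wtt_wt hK b (half_pos hθ) i).meas.sub (wtt_wt hK b hθ i).meas
  · exact (abs_wd_le b hθ i y).trans (wt_le b hθ i y)

private theorem meas_Ef (θ : ℝ) : Measurable (Ef θ) := by
  unfold Ef
  refine Measurable.ite measurableSet_Iio measurable_const ?_
  refine Measurable.ite measurableSet_Iio (by fun_prop) ?_
  exact Measurable.ite measurableSet_Iio (by fun_prop) measurable_const

theorem wtt_we (hK : SB K) (b : ℕ) {θ : ℝ} (hθ : 0 < θ) (i : Fin n) : Wtt (we K b θ i) := by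
  refine ⟨?_, ⟨θ / 4, abs_we_le hK b hθ i⟩, hK.even (we_sign hK b θ i)⟩
  unfold we
  refine Measurable.ite ?_ ?_ measurable_const
  · exact hK.measurable_hl i (meas_Ib b)
  · exact (meas_Ef θ).comp (hK.measurable_nd i)

theorem wtt_ws (hK : SB K) {r : ℝ} (hr : 0 < r) (i : Fin n) : Wtt (ws K r i) := by
  refine ⟨?_, ⟨r⁻¹, fun y => ?_⟩, hK.even (ws_si hK r i)⟩
  · unfold ws
    exact Measurable.ite (measurableSet_le (hK.measurable_hl i) measurable_const)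
      measurable_const measurable_const
  · rw [abs_of_nonneg (ws_nonneg hr i y)]
    exact ws_le hr i y

private theorem exists_class {m : ℕ} (hm : 1 ≤ m) {l : ℝ} (hl : (1 / 2 : ℝ) ^ m < l) :
    ∃ b, b < m ∧ l ∈ Ib b := by
  classical
  have hex : ∃ k : ℕ, (1 / 2 : ℝ) ^ (k + 1) < l := ⟨m - 1, by rwa [Nat.sub_add_cancel hm]⟩
  have h1 := Nat.find_spec hex
  have h2 : Nat.find hex ≤ m - 1 := Nat.find_min' hex (by rwa [Nat.sub_add_cancel hm])
  have h3 : ∀ j, j < Nat.find hex → ¬ (1 / 2 : ℝ) ^ (j + 1) < l := fun j hj => Nat.find_min hex hj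
  obtain ⟨k, hk⟩ : ∃ k, k = Nat.find hex := ⟨_, rfl⟩
  rw [← hk] at h1 h2 h3
  refine ⟨k, by omega, ?_⟩
  unfold Ib
  split_ifs with h0
  · rw [h0, zero_add, pow_one] at h1
    exact h1
  · refine ⟨h1, ?_⟩
    have h4 := h3 (k - 1) (by omega)
    rw [Nat.sub_add_cancel (by omega : 1 ≤ k)] at h4
    exact not_lt.mp h4

open Classical in
/-- The decomposition of the boundary layer of width `r = 2^(-m)`. -/
theorem layer (hK : SB K) {m : ℕ} (hm : 1 ≤ m) (i : Fin n) {y : V n} (hy : y ∈ K) :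
    (if nd K i y < (1 / 2 : ℝ) ^ m then (1 : ℝ) else 0) ≤
      (1 / 2 : ℝ) ^ m * (∑ b ∈ Finset.range m, wt K b ((1 / 2) ^ m) i y + ws K ((1 / 2) ^ m) i y) := by
  have hr : (0 : ℝ) < (1 / 2 : ℝ) ^ m := by positivity
  have hsum : 0 ≤ ∑ b ∈ Finset.range m, wt K b ((1 / 2) ^ m) i y :=
    Finset.sum_nonneg fun b _ => wt_nonneg b hr i y
  have hws : 0 ≤ ws K ((1 / 2) ^ m) i y := ws_nonneg hr i y
  split_ifs with h1
  · by_cases h2 : hl K i y ≤ (1 / 2 : ℝ) ^ m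
    · have h3 : ws K ((1 / 2) ^ m) i y = ((1 / 2 : ℝ) ^ m)⁻¹ := by
        unfold ws
        rw [if_pos h2]
      rw [mul_add, h3, mul_inv_cancel₀ hr.ne']
      have := mul_nonneg hr.le hsum
      linarith
    · push Not at h2
      obtain ⟨b, hb, hlb⟩ := exists_class hm h2
      have h3 : wt K b ((1 / 2) ^ m) i y = ((1 / 2 : ℝ) ^ m)⁻¹ := by
        unfold wt
        rw [if_pos ⟨hlb, h1⟩]
      have h4 : wt K b ((1 / 2) ^ m) i y ≤ ∑ b ∈ Finset.range m, wt K b ((1 / 2) ^ m) i y :=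
        Finset.single_le_sum (f := fun b => wt K b ((1 / 2) ^ m) i y)
          (fun b _ => wt_nonneg b hr i y) (Finset.mem_range.mpr hb)
      rw [h3] at h4
      calc (1 : ℝ) = (1 / 2 : ℝ) ^ m * ((1 / 2 : ℝ) ^ m)⁻¹ := (mul_inv_cancel₀ hr.ne').symm
        _ ≤ _ := mul_le_mul_of_nonneg_left (by linarith) hr.le
  · exact mul_nonneg hr.le (by linarith)

end Pool.Agent.UK
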